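import Pool.Agent.Lib.MP_5d7bff_an.NoGen

/-!
The same space embeds into every space of `p`-integrable functions with `0 < p < 1`.
-/

namespace Pool.Agent.Lib.MP_5d7bff_an

open Finset MeasureTheory Filter Topology UniformSpace

/-- The `p`-th absolute moment. -/
noncomputable def Dp (p : ℝ) (f : ℝ → ℝ) : ENNReal := ∫⁻ t, ENNReal.ofReal (|f t| ^ p) ∂mu

/-- One minus the characteristic function. -/
noncomputable def Ph (f : ℝ → ℝ) : ENNReal := ∫⁻ t, ENNReal.ofReal (1 - Real.cos (f t)) ∂mu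

theorem Dp_half (f : ℝ → ℝ) : Dp (1 / 2) f = DD f := by
  simp only [Dp, DD, Real.sqrt_eq_rpow]

theorem Dp_smul {p : ℝ} (c : ℝ) (f : ℝ → ℝ) :
    Dp p (c • f) = ENNReal.ofReal (|c| ^ p) * Dp p f := by
  unfold Dp
  rw [← lintegral_const_mul' _ _ ENNReal.ofReal_ne_top]
  refine lintegral_congr fun t => ?_
  rw [← ENNReal.ofReal_mul (by positivity), ← Real.mul_rpow (abs_nonneg _) (abs_nonneg _),
    ← abs_mul]
  rfl

theorem eLpNorm_eq_Dp {p : ℝ} (hp : 0 < p) (f : ℝ → ℝ) :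
    eLpNorm f (ENNReal.ofReal p) mu = Dp p f ^ (1 / p) := by
  rw [eLpNorm_eq_lintegral_rpow_enorm_toReal (by simpa using hp) (by simp),
    ENNReal.toReal_ofReal hp.le]
  congr 1
  refine lintegral_congr fun t => ?_
  rw [← ENNReal.ofReal_rpow_of_nonneg (abs_nonneg _) hp.le, Real.enorm_eq_ofReal_abs]

theorem one_sub_cos_le_rpow {p : ℝ} (hp : 0 < p) (hp1 : p < 1) (y : ℝ) :
    1 - Real.cos y ≤ 2 * |y| ^ p := by
  rcases le_total 1 |y| with h | h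
  · have := Real.one_le_rpow h hp.le
    linarith [Real.neg_one_le_cos y]
  · have h1 := Real.one_sub_sq_div_two_le_cos (x := y)
    have h2 : |y| ^ (2 : ℝ) ≤ |y| ^ p :=
      Real.rpow_le_rpow_of_exponent_ge' (abs_nonneg _) h hp.le (by linarith)
    rw [Real.rpow_two, sq_abs] at h2
    have h3 : 0 ≤ |y| ^ p := by positivity
    linarith

theorem Ph_le_Dp {p : ℝ} (hp : 0 < p) (hp1 : p < 1) (f : ℝ → ℝ) : Ph f ≤ 2 * Dp p f := by
  unfold Ph Dp
  rw [← lintegral_const_mul' _ _ (by simp)]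
  refine lintegral_mono fun t => ?_
  refine (ENNReal.ofReal_le_ofReal (one_sub_cos_le_rpow hp hp1 _)).trans (le_of_eq ?_)
  rw [ENNReal.ofReal_mul (by norm_num)]
  simp

theorem cos_sub_le (a b : ℝ) : 1 - Real.cos a ≤ 1 - Real.cos b + 2 * √|a - b| := by
  have h0 := Real.sqrt_nonneg |a - b|
  rcases le_total 1 √|a - b| with h | h
  · linarith [Real.neg_one_le_cos a, Real.cos_le_one b]
  · have h1 := Real.abs_cos_sub_cos_le a b
    have h2 := Real.mul_self_sqrt (abs_nonneg (a - b))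
    have h3 := neg_abs_le (Real.cos a - Real.cos b)
    nlinarith

theorem Ph_le_add {f g : ℝ → ℝ} (hg : AEMeasurable g mu) : Ph f ≤ Ph g + 2 * DD (f - g) := by
  unfold Ph DD
  rw [← lintegral_const_mul' _ _ (by simp), ← lintegral_add_left' (by fun_prop)]
  refine lintegral_mono fun t => ?_
  refine (ENNReal.ofReal_le_ofReal (cos_sub_le (f t) (g t))).trans (le_of_eq ?_)
  rw [ENNReal.ofReal_add (sub_nonneg.mpr (Real.cos_le_one _)) (by positivity),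
    ENNReal.ofReal_mul (by norm_num)]
  simp

theorem rpow_le_tsum {p : ℝ} (hp : 0 < p) (y : ℝ) :
    ENNReal.ofReal (|y| ^ p) ≤ 1 + ∑' j : ℕ, ENNReal.ofReal (40 * (4 ^ p) ^ (j + 1)) *
      ENNReal.ofReal (1 - Real.cos ((1 / 4) ^ (j + 1) * y)) := by
  rcases le_total |y| 1 with h | h
  · refine le_trans ?_ le_self_add
    exact ENNReal.ofReal_le_one.mpr (Real.rpow_le_one (abs_nonneg _) h hp.le)
  · obtain ⟨J, h1, h'⟩ := exists_nat_pow_near h (show (1 : ℝ) < 4 by norm_num)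
    refine le_trans ?_ (le_add_left (ENNReal.le_tsum J))
    rw [← ENNReal.ofReal_mul (by positivity)]
    refine ENNReal.ofReal_le_ofReal ?_
    have e : |(1 / 4 : ℝ) ^ (J + 1) * y| = |y| / 4 ^ (J + 1) := by
      rw [abs_mul, abs_of_pos (by positivity), one_div, inv_pow, inv_mul_eq_div]
    have h2 := sq_le_eta (y := (1 / 4) ^ (J + 1) * y) (by
      rw [e, div_le_one (by positivity)]
      exact h'.le)
    have h3 : 1 / 4 ≤ |y| / 4 ^ (J + 1) := by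
      rw [le_div_iff₀ (by positivity), pow_succ]
      linarith
    rw [← sq_abs, e, eta] at h2
    have h4 : 1 ≤ 40 * (1 - Real.cos ((1 / 4) ^ (J + 1) * y)) := by nlinarith
    have h5 : |y| ^ p ≤ (4 ^ p) ^ (J + 1) := by
      rw [← Real.rpow_natCast, ← Real.rpow_mul (by norm_num), mul_comm,
        Real.rpow_mul (by norm_num), Real.rpow_natCast]
      exact Real.rpow_le_rpow (abs_nonneg _) h'.le hp.le
    have h6 := mul_le_mul_of_nonneg_left h4 (by positivity : (0 : ℝ) ≤ (4 ^ p) ^ (J + 1))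
    linarith

theorem exists_Dp_bound {p : ℝ} (hp : 0 < p) (hp1 : p < 1) : ∃ B : ℝ, 0 < B ∧
    ∀ f : ℝ → ℝ, AEMeasurable f mu →
      (∀ j : ℕ, Ph (((1 / 4 : ℝ) ^ (j + 1)) • f) ≤ ENNReal.ofReal ((1 / 4) ^ (j + 1))) →
      Dp p f ≤ ENNReal.ofReal B := by
  have h0 : (0 : ℝ) < 4 ^ p / 4 := by positivity
  have h1 : (4 : ℝ) ^ p / 4 < 1 := by
    rw [div_lt_one (by norm_num)]
    simpa using Real.rpow_lt_rpow_of_exponent_lt (show (1 : ℝ) < 4 by norm_num) hp1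
  have hs : Summable fun j : ℕ => 40 * ((4 : ℝ) ^ p / 4) ^ (j + 1) :=
    ((summable_nat_add_iff 1).mpr (summable_geometric_of_lt_one h0.le h1)).mul_left _
  have ht : 0 ≤ ∑' j : ℕ, 40 * ((4 : ℝ) ^ p / 4) ^ (j + 1) := tsum_nonneg fun j => by positivity
  refine ⟨1 + ∑' j : ℕ, 40 * ((4 : ℝ) ^ p / 4) ^ (j + 1), by linarith, fun f hf h => ?_⟩
  refine (lintegral_mono fun t => rpow_le_tsum hp (f t)).trans ?_
  rw [lintegral_add_left measurable_const, lintegral_tsum fun j => by fun_prop,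
    ENNReal.ofReal_add zero_le_one ht, ENNReal.ofReal_tsum_of_nonneg (fun j => by positivity) hs]
  refine add_le_add (by simp) (ENNReal.tsum_le_tsum fun j => ?_)
  rw [lintegral_const_mul' _ _ ENNReal.ofReal_ne_top]
  refine (mul_le_mul_right (h j) _).trans (le_of_eq ?_)
  rw [← ENNReal.ofReal_mul (by positivity), mul_assoc, ← mul_pow, mul_one_div]

variable {V : Type} [SeminormedAddCommGroup V] [NormedSpace ℝ V]

theorem Dp_upper {p : ℝ} (hp : 0 < p) (hp1 : p < 1) (S : V →ₗ[ℝ] ℝ → ℝ)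
    (hm : ∀ v, AEMeasurable (S v) mu)
    (hU : ∀ v, ‖v‖ < 1 / 400 → Ph (S v) ≤ ENNReal.ofReal (98 * ‖v‖)) :
    ∃ C : ℝ, 0 < C ∧ ∀ v, Dp p (S v) ≤ ENNReal.ofReal (C * ‖v‖ ^ p) := by
  obtain ⟨B, hB, h⟩ := exists_Dp_bound hp hp1
  have h1 : ∀ v, ‖v‖ < 1 / 400 → Dp p (S v) ≤ ENNReal.ofReal B := fun v hv => by
    refine h _ (hm v) fun j => ?_
    have e : ‖((1 / 4 : ℝ) ^ (j + 1)) • v‖ = (1 / 4) ^ (j + 1) * ‖v‖ := by
      rw [norm_smul, Real.norm_of_nonneg (by positivity)]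
    have h2 : (1 / 4 : ℝ) ^ (j + 1) ≤ 1 := pow_le_one₀ (by norm_num) (by norm_num)
    have h3 : (0 : ℝ) < (1 / 4) ^ (j + 1) := by positivity
    rw [← map_smul]
    refine (hU _ ?_).trans (ENNReal.ofReal_le_ofReal ?_)
    · rw [e]
      exact (mul_le_of_le_one_left (norm_nonneg _) h2).trans_lt hv
    · rw [e]
      nlinarith
  refine ⟨B * 400 ^ p, by positivity, fun v => ?_⟩
  have h2 : Tendsto (fun d : ℝ => ENNReal.ofReal (B * 400 ^ p * d ^ p)) (𝓝[>] ‖v‖)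
      (𝓝 (ENNReal.ofReal (B * 400 ^ p * ‖v‖ ^ p))) :=
    ENNReal.tendsto_ofReal ((((Real.continuous_rpow_const hp.le).const_mul _).tendsto _).mono_left
      nhdsWithin_le_nhds)
  refine ge_of_tendsto h2 (eventually_nhdsWithin_of_forall fun d hd => ?_)
  have h3 : ‖v‖ < d := hd
  have h4 : 0 < d := (norm_nonneg v).trans_lt h3
  have h5 : 0 < 400 * d := by linarith
  have e : S v = (400 * d) • S ((400 * d)⁻¹ • v) := by rw [← map_smul, smul_inv_smul₀ h5.ne']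
  rw [e, Dp_smul, abs_of_pos h5]
  refine (mul_le_mul_right (h1 _ ?_) _).trans (le_of_eq ?_)
  · rw [norm_smul, Real.norm_of_nonneg (by positivity), inv_mul_eq_div, div_lt_iff₀ h5]
    linarith
  · rw [← ENNReal.ofReal_mul (by positivity), Real.mul_rpow (by norm_num) h4.le]
    congr 1
    ring

theorem Dp_lower {p : ℝ} (hp : 0 < p) (hp1 : p < 1) (S : V →ₗ[ℝ] ℝ → ℝ) {c : ℝ}
    (hL : ∀ v, ‖v‖ = 1 → ENNReal.ofReal (2 * c) ≤ Ph (S v)) (v : V) :
    ENNReal.ofReal (c * ‖v‖ ^ p) ≤ Dp p (S v) := by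
  rcases (norm_nonneg v).eq_or_lt with h | h
  · simp [← h, hp.ne']
  · have e : S v = ‖v‖ • S (‖v‖⁻¹ • v) := by rw [← map_smul, smul_inv_smul₀ h.ne']
    rw [e, Dp_smul, abs_of_pos h, mul_comm, ENNReal.ofReal_mul (by positivity)]
    refine mul_le_mul_right ?_ _
    have h1 := (hL (‖v‖⁻¹ • v) (by
      rw [norm_smul, norm_inv, norm_norm, inv_mul_cancel₀ h.ne'])).trans (Ph_le_Dp hp hp1 _)
    rw [ENNReal.ofReal_mul (by norm_num), ENNReal.ofReal_ofNat] at h1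
    exact (ENNReal.mul_le_mul_iff_right (by simp) (by simp)).mp h1

theorem extension_seq (T : V →ₗ[ℝ] ℝ → ℝ) {C : ℝ} (hC : 0 ≤ C) (hm : ∀ v, Measurable (T v))
    (hT : ∀ v, DD (T v) ≤ ENNReal.ofReal (C * √‖v‖)) :
    ∃ S : Completion V →ₗ[ℝ] ℝ → ℝ, ∀ ξ, AEMeasurable (S ξ) mu ∧ ∃ v : ℕ → V,
      Tendsto (fun n => (v n : Completion V)) atTop (𝓝 ξ) ∧
      Tendsto (fun n => DD (S ξ - T (v n))) atTop (𝓝 0) := by
  let R : Submodule ℝ (Completion V × (ℝ → ℝ)) :=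
    { carrier := {z | AEMeasurable z.2 mu ∧ ∃ v : ℕ → V,
        Tendsto (fun n => (v n : Completion V)) atTop (𝓝 z.1) ∧
        Tendsto (fun n => DD (z.2 - T (v n))) atTop (𝓝 0)}
      add_mem' := by
        rintro ⟨ξ, F⟩ ⟨ξ', F'⟩ ⟨h1, v, h2, h3⟩ ⟨h1', v', h2', h3'⟩
        refine ⟨h1.add h1', v + v', by simpa [Completion.coe_add] using h2.add h2', ?_⟩
        refine tendsto_of_tendsto_of_tendsto_of_le_of_le tendsto_const_nhds
          (by simpa using h3.add h3') (fun _ => zero_le) fun n => ?_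
        refine le_trans (le_of_eq ?_) (DD_add_le (h1.sub (hm (v n)).aemeasurable) _)
        congr 1
        simp only [Prod.snd_add, Pi.add_apply, map_add]
        abel
      zero_mem' := ⟨aemeasurable_const, 0, by simp [Completion.coe_zero], by simp [DD]⟩
      smul_mem' := by
        rintro a ⟨ξ, F⟩ ⟨h1, v, h2, h3⟩
        refine ⟨h1.const_smul a, a • v, by simpa [Completion.coe_smul] using h2.const_smul a, ?_⟩
        have := ENNReal.Tendsto.const_mul (a := ENNReal.ofReal √|a|) h3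
          (Or.inr ENNReal.ofReal_ne_top)
        simpa [← DD_smul, smul_sub] using this }
  obtain ⟨s, hs⟩ := LinearMap.exists_rightInverse_of_surjective
    (LinearMap.fst ℝ _ _ ∘ₗ R.subtype) (LinearMap.range_eq_top.mpr fun ξ => by
      obtain ⟨F, hF⟩ := exists_limit T hC hm hT ξ
      exact ⟨⟨(ξ, F), hF⟩, rfl⟩)
  refine ⟨LinearMap.snd ℝ _ _ ∘ₗ R.subtype ∘ₗ s, fun ξ => ?_⟩
  obtain ⟨h1, v, h2, h3⟩ := (s ξ).2
  have e : (s ξ).1.1 = ξ := LinearMap.congr_fun hs ξ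
  rw [e] at h2
  exact ⟨h1, v, h2, h3⟩

theorem extension_Ph (T : V →ₗ[ℝ] ℝ → ℝ) {c : ℝ} (hm : ∀ v, Measurable (T v))
    (hU : ∀ v, ‖v‖ < 1 / 400 → Ph (T v) ≤ ENNReal.ofReal (98 * ‖v‖))
    (hL : ∀ v, ‖v‖ = 1 → ENNReal.ofReal c ≤ Ph (T v)) :
    ∃ S : Completion V →ₗ[ℝ] ℝ → ℝ, (∀ ξ, AEMeasurable (S ξ) mu) ∧
      (∀ ξ, ‖ξ‖ < 1 / 400 → Ph (S ξ) ≤ ENNReal.ofReal (98 * ‖ξ‖)) ∧
      ∀ ξ, ‖ξ‖ = 1 → ENNReal.ofReal c ≤ Ph (S ξ) := by
  obtain ⟨C, hC, hT⟩ := Dp_upper (p := 1 / 2) (by norm_num) (by norm_num) T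
    (fun v => (hm v).aemeasurable) hU
  simp only [Dp_half, ← Real.sqrt_eq_rpow] at hT
  obtain ⟨S, hS⟩ := extension_seq T hC.le hm hT
  refine ⟨S, fun ξ => (hS ξ).1, fun ξ hξ => ?_, fun ξ hξ => ?_⟩
  · obtain ⟨h1, v, h2, h3⟩ := hS ξ
    have h4 : Tendsto (fun n => ‖v n‖) atTop (𝓝 ‖ξ‖) := by simpa using h2.norm
    have h5 := (ENNReal.tendsto_ofReal (h4.const_mul 98)).add
      (ENNReal.Tendsto.const_mul (a := 2) h3 (Or.inr (by simp)))
    rw [mul_zero, add_zero] at h5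
    refine ge_of_tendsto h5 ((h4.eventually (gt_mem_nhds hξ)).mono fun n hn => ?_)
    exact (Ph_le_add (hm (v n)).aemeasurable).trans (add_le_add (hU _ hn) le_rfl)
  · obtain ⟨h1, v, h2, h3⟩ := hS ξ
    have h4 : Tendsto (fun n => ‖v n‖) atTop (𝓝 1) := by simpa [hξ] using h2.norm
    have h5 : Tendsto (fun n => ENNReal.ofReal (C * √(|‖v n‖⁻¹ - 1| * ‖v n‖))) atTop (𝓝 0) := by
      simpa using ENNReal.tendsto_ofReal
        (((((h4.inv₀ one_ne_zero).sub_const 1).abs.mul h4).sqrt).const_mul C)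
    have h6 := (ENNReal.Tendsto.const_mul (a := 2) (h5.add h3) (Or.inr (by simp))).const_add
      (Ph (S ξ))
    rw [add_zero, mul_zero, add_zero] at h6
    refine ge_of_tendsto h6 ((h4.eventually (lt_mem_nhds zero_lt_one)).mono fun n hn => ?_)
    refine (hL (‖v n‖⁻¹ • v n) (by
      rw [norm_smul, norm_inv, norm_norm, inv_mul_cancel₀ hn.ne'])).trans
      ((Ph_le_add h1).trans (add_le_add le_rfl (mul_le_mul_right ?_ _)))
    have e : T (‖v n‖⁻¹ • v n) - S ξ = T ((‖v n‖⁻¹ - 1) • v n) + -(S ξ - T (v n)) := by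
      rw [sub_smul, one_smul, map_sub]
      abel
    rw [e]
    refine (DD_add_le (hm _).aemeasurable _).trans (add_le_add ((hT _).trans_eq ?_) ?_)
    · rw [norm_smul, Real.norm_eq_abs]
    · rw [DD_neg]

theorem exists_T_Ph : ∃ (T : VV →ₗ[ℝ] ℝ → ℝ) (c : ℝ), 0 < c ∧ (∀ x, Measurable (T x)) ∧
    (∀ x, NN x < 1 / 400 → Ph (T x) ≤ ENNReal.ofReal (98 * NN x)) ∧
    ∀ x, NN x = 1 → ENNReal.ofReal (2 * c) ≤ Ph (T x) := by
  obtain ⟨T, hm, hb, hc⟩ := exists_T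
  have hi1 : ∀ x, Integrable (fun t => Real.cos (T x t)) mu := fun x =>
    Integrable.of_bound (by have := hm x; fun_prop) 1 (ae_of_all _ fun t => Real.abs_cos_le_one _)
  have hI : ∀ x, Ph (T x) = ENNReal.ofReal (1 - ∫ t, Real.cos (T x t) ∂mu) := fun x => by
    have hi3 : Integrable (fun t => 1 - Real.cos (T x t)) mu := (integrable_const _).sub (hi1 x)
    rw [Ph, ← ofReal_integral_eq_lintegral_ofReal hi3
      (ae_of_all _ fun t => sub_nonneg.mpr (Real.cos_le_one _)),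
      integral_sub (integrable_const _) (hi1 x)]
    simp
  refine ⟨T, (1 - Real.exp (-(1 / 10 ^ 7))) / 2, half_pos (sub_pos.mpr
    (Real.exp_lt_one_iff.mpr (by norm_num))), hm, fun x hx => ?_, fun x hx => ?_⟩
  · obtain ⟨s, hs⟩ := exists_supp x
    rw [hI, hc _ s hs]
    exact ENNReal.ofReal_le_ofReal (((one_sub_prod_le s _ (fun k _ => chiB_nonneg _ _ _)
      fun k _ => chiB_le_one _ _ _).trans (sum_le_sum fun k _ => one_sub_chiB_le _ _ _)).trans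
      (psi_le_NN x s hx.le))
  · obtain ⟨s, hs, h1⟩ := chiB_prod_le x hx
    rw [hI, hc x s hs]
    exact ENNReal.ofReal_le_ofReal (by linarith)

theorem to_Lp {X : Type} [NormedAddCommGroup X] [NormedSpace ℝ X] {p : ℝ} (hp : 0 < p)
    (S : X →ₗ[ℝ] ℝ → ℝ) (hm : ∀ x, AEMeasurable (S x) mu) {c C : ℝ} (hc : 0 < c) (hC : 0 < C)
    (h : ∀ x, ENNReal.ofReal (c * ‖x‖ ^ p) ≤ Dp p (S x) ∧
      Dp p (S x) ≤ ENNReal.ofReal (C * ‖x‖ ^ p)) :
    ∃ (T : X →ₗ[ℝ] Lp ℝ (ENNReal.ofReal p) mu) (a b : ℝ), 0 < a ∧ a ≤ b ∧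
      ∀ x, a * ‖x‖ ≤ ‖T x‖ ∧ ‖T x‖ ≤ b * ‖x‖ := by
  have e : ∀ (a : ℝ) (x : X), 0 < a →
      ENNReal.ofReal (a * ‖x‖ ^ p) ^ (1 / p) = ENNReal.ofReal (a ^ (1 / p) * ‖x‖) := by
    intro a x ha
    rw [ENNReal.ofReal_rpow_of_nonneg (by positivity) (by positivity),
      Real.mul_rpow ha.le (by positivity), ← Real.rpow_mul (norm_nonneg _),
      mul_one_div_cancel hp.ne', Real.rpow_one]
  have h1 : ∀ x, ENNReal.ofReal (c ^ (1 / p) * ‖x‖) ≤ eLpNorm (S x) (ENNReal.ofReal p) mu ∧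
      eLpNorm (S x) (ENNReal.ofReal p) mu ≤ ENNReal.ofReal (C ^ (1 / p) * ‖x‖) := fun x => by
    rw [eLpNorm_eq_Dp hp, ← e _ _ hc, ← e _ _ hC]
    exact ⟨ENNReal.rpow_le_rpow (h x).1 (by positivity), ENNReal.rpow_le_rpow (h x).2 (by positivity)⟩
  have h2 : ∀ x, MemLp (S x) (ENNReal.ofReal p) mu := fun x =>
    ⟨(hm x).aestronglyMeasurable, (h1 x).2.trans_lt ENNReal.ofReal_lt_top⟩
  let T : X →ₗ[ℝ] Lp ℝ (ENNReal.ofReal p) mu :=
    { toFun := fun x => (h2 x).toLp (S x)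
      map_add' := fun x y => by
        rw [← MemLp.toLp_add]
        exact MemLp.toLp_congr _ _ (by rw [map_add])
      map_smul' := fun a x => by
        rw [RingHom.id_apply, ← MemLp.toLp_const_smul]
        exact MemLp.toLp_congr _ _ (by rw [map_smul]) }
  have h3 : ∀ x, ‖T x‖ = (eLpNorm (S x) (ENNReal.ofReal p) mu).toReal := fun x => by
    rw [Lp.norm_def]
    exact congrArg _ (eLpNorm_congr_ae (h2 x).coeFn_toLp)
  refine ⟨T, c ^ (1 / p), max (c ^ (1 / p)) (C ^ (1 / p)), by positivity, le_max_left _ _,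
    fun x => ?_⟩
  rw [h3]
  refine ⟨(ENNReal.ofReal_le_iff_le_toReal (h2 x).2.ne).mp (h1 x).1, ?_⟩
  exact (ENNReal.toReal_le_of_le_ofReal (by positivity) (h1 x).2).trans
    (mul_le_mul_of_nonneg_right (le_max_right _ _) (norm_nonneg _))

theorem lift_L1 {Ω : Type*} [MeasurableSpace Ω] (ν : Measure Ω) {W : Type} [AddCommGroup W]
    [Module ℝ W] (S : W →ₗ[ℝ] Lp ℝ 1 ν) :
    ∃ S' : W →ₗ[ℝ] Ω → ℝ, ∀ x, S' x =ᵐ[ν] S x := by
  let R : Submodule ℝ (W × (Ω → ℝ)) :=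
    { carrier := {z | z.2 =ᵐ[ν] S z.1}
      add_mem' := by
        rintro ⟨x, f⟩ ⟨y, g⟩ h1 h2
        change f =ᵐ[ν] S x at h1
        change g =ᵐ[ν] S y at h2
        change f + g =ᵐ[ν] S (x + y)
        rw [map_add]
        exact (EventuallyEq.add h1 h2).trans (Lp.coeFn_add _ _).symm
      zero_mem' := by
        change (0 : Ω → ℝ) =ᵐ[ν] S 0
        rw [map_zero]
        exact (Lp.coeFn_zero _ _ _).symm
      smul_mem' := by
        rintro a ⟨x, f⟩ h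
        change f =ᵐ[ν] S x at h
        change a • f =ᵐ[ν] S (a • x)
        rw [map_smul]
        exact (EventuallyEq.const_smul h a).trans (Lp.coeFn_smul _ _).symm }
  obtain ⟨s, hs⟩ := LinearMap.exists_rightInverse_of_surjective
    (LinearMap.fst ℝ _ _ ∘ₗ R.subtype) (LinearMap.range_eq_top.mpr fun x =>
      ⟨⟨(x, S x), (EventuallyEq.refl _ _ : ⇑(S x) =ᵐ[ν] S x)⟩, rfl⟩)
  refine ⟨LinearMap.snd ℝ _ _ ∘ₗ R.subtype ∘ₗ s, fun x => ?_⟩
  have e : (s x).1.1 = x := LinearMap.congr_fun hs x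
  have h : (s x).1.2 =ᵐ[ν] S (s x).1.1 := (s x).2
  rw [e] at h
  exact h

theorem all_p : ∃ (X : Type) (_ : NormedAddCommGroup X) (_ : NormedSpace ℝ X), CompleteSpace X ∧
    (∀ p : ℝ, 0 < p → p < 1 →
      ∃ (T : X →ₗ[ℝ] Lp ℝ (ENNReal.ofReal p) mu) (a b : ℝ), 0 < a ∧ a ≤ b ∧
        ∀ x, a * ‖x‖ ≤ ‖T x‖ ∧ ‖T x‖ ≤ b * ‖x‖) ∧
    ∀ (Ω : Type) [MeasurableSpace Ω] (ν : Measure Ω),
      ¬ ∃ (S : X →ₗ[ℝ] Lp ℝ 1 ν) (a b : ℝ), 0 < a ∧ a ≤ b ∧
        ∀ x, a * ‖x‖ ≤ ‖S x‖ ∧ ‖S x‖ ≤ b * ‖x‖ := by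
  obtain ⟨T, c, hc, hm, hU, hL⟩ := exists_T_Ph
  let _ := NN.toAddGroupSeminorm.toSeminormedAddCommGroup
  let _ : NormedSpace ℝ VV := ⟨fun a x => (map_smul_eq_mul NN a x).le⟩
  obtain ⟨S, h1, h2, h3⟩ := extension_Ph (V := VV) T hm hU hL
  refine ⟨Completion VV, inferInstance, inferInstance, inferInstance, fun p hp hp1 => ?_, ?_⟩
  · obtain ⟨C, hC, h4⟩ := Dp_upper hp hp1 S h1 h2
    exact to_Lp hp S h1 hc hC fun x => ⟨Dp_lower hp hp1 S h3 x, h4 x⟩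
  · rintro Ω _ ν ⟨S₁, a, b, ha, hab, h⟩
    obtain ⟨S', hS'⟩ := lift_L1 ν (S₁ ∘ₗ (Completion.toComplₗᵢ (𝕜 := ℝ) (E := VV)).toLinearMap)
    refine not_embed_gen ν S' ha (ha.trans_le hab) fun x => ?_
    have h4 := h (x : Completion VV)
    rw [Completion.norm_coe, L1.norm_eq_integral_norm] at h4
    have h5 : ∫ t, |S' x t| ∂ν = ∫ t, ‖S₁ (x : Completion VV) t‖ ∂ν :=
      integral_congr_ae ((hS' x).mono fun t ht => by
        simp only [ht, Real.norm_eq_abs]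
        rfl)
    rw [h5]
    exact ⟨(L1.integrable_coeFn _).congr (hS' x).symm, h4⟩

end Pool.Agent.Lib.MP_5d7bff_an
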