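import Mathlib

-- part Pool.Agent.Lib.MP_5d7bff_an.Cube
section

/-!
Biased cubes: expectations, characters, thinning kernels and moment bounds.
-/

namespace Pool.Agent.Lib.MP_5d7bff_an

open Finset

/-- Bernoulli weight. -/
def bw (p : ℝ) (b : Bool) : ℝ := if b then p else 1 - p

/-- Value of a bit. -/
def bv (b : Bool) : ℝ := if b then 1 else 0

@[simp] theorem bw_true (p : ℝ) : bw p true = p := rfl
@[simp] theorem bw_false (p : ℝ) : bw p false = 1 - p := rfl
@[simp] theorem bv_true : bv true = 1 := rfl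
@[simp] theorem bv_false : bv false = 0 := rfl

theorem bv_nonneg (b : Bool) : 0 ≤ bv b := by cases b <;> simp
theorem bv_le_one (b : Bool) : bv b ≤ 1 := by cases b <;> simp

theorem bw_nonneg {p : ℝ} (h0 : 0 ≤ p) (h1 : p ≤ 1) (b : Bool) : 0 ≤ bw p b := by
  cases b
  · simp; linarith
  · simpa

variable {G : Type*} [Fintype G] [DecidableEq G]

/-- Product weight. -/
def cw (p : ℝ) (i : G → Bool) : ℝ := ∏ a, bw p (i a)

/-- Expectation on the biased cube. -/
def Ex (p : ℝ) (F : (G → Bool) → ℝ) : ℝ := ∑ i, cw p i * F i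

omit [DecidableEq G] in
theorem cw_nonneg {p : ℝ} (h0 : 0 ≤ p) (h1 : p ≤ 1) (i : G → Bool) : 0 ≤ cw p i :=
  prod_nonneg fun a _ => bw_nonneg h0 h1 (i a)

theorem sum_prod_cube (f : G → Bool → ℝ) :
    ∑ i : G → Bool, ∏ a, f a (i a) = ∏ a, (f a true + f a false) := by
  rw [← Fintype.piFinset_univ, ← prod_univ_sum]
  simp

theorem Ex_prod (p : ℝ) (f : G → Bool → ℝ) :
    Ex p (fun i => ∏ a, f a (i a)) = ∏ a, (p * f a true + (1 - p) * f a false) := by
  unfold Ex cw
  simp_rw [← prod_mul_distrib]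
  rw [sum_prod_cube fun a b => bw p b * f a b]
  simp

theorem Ex_const (p c : ℝ) : Ex p (fun _ : G → Bool => c) = c := by
  have := Ex_prod (G := G) p fun _ _ => 1
  simp only [prod_const_one, mul_one, add_sub_cancel] at this
  unfold Ex at *
  rw [← sum_mul]
  simp only [mul_one] at this
  rw [this, one_mul]

theorem Ex_add (p : ℝ) (F H : (G → Bool) → ℝ) :
    Ex p (fun i => F i + H i) = Ex p F + Ex p H := by
  simp [Ex, mul_add, sum_add_distrib]

theorem Ex_sub (p : ℝ) (F H : (G → Bool) → ℝ) :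
    Ex p (fun i => F i - H i) = Ex p F - Ex p H := by
  simp [Ex, mul_sub, sum_sub_distrib]

theorem Ex_const_mul (p c : ℝ) (F : (G → Bool) → ℝ) :
    Ex p (fun i => c * F i) = c * Ex p F := by
  simp only [Ex, mul_sum]
  exact sum_congr rfl fun i _ => by ring

theorem Ex_sum {α : Type*} (p : ℝ) (s : Finset α) (F : α → (G → Bool) → ℝ) :
    Ex p (fun i => ∑ x ∈ s, F x i) = ∑ x ∈ s, Ex p (F x) := by
  simp only [Ex, mul_sum]
  exact sum_comm

theorem Ex_mono {p : ℝ} (h0 : 0 ≤ p) (h1 : p ≤ 1) {F H : (G → Bool) → ℝ} (h : ∀ i, F i ≤ H i) :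
    Ex p F ≤ Ex p H :=
  sum_le_sum fun i _ => mul_le_mul_of_nonneg_left (h i) (cw_nonneg h0 h1 i)

theorem Ex_nonneg {p : ℝ} (h0 : 0 ≤ p) (h1 : p ≤ 1) {F : (G → Bool) → ℝ} (h : ∀ i, 0 ≤ F i) :
    0 ≤ Ex p F :=
  sum_nonneg fun i _ => mul_nonneg (cw_nonneg h0 h1 i) (h i)

theorem Ex_congr (p : ℝ) {F H : (G → Bool) → ℝ} (h : ∀ i, F i = H i) : Ex p F = Ex p H := by
  rw [funext h]

theorem Ex_one (F : (G → Bool) → ℝ) : Ex 1 F = F fun _ => true := by
  unfold Ex
  rw [sum_eq_single (fun _ => true)]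
  · simp [cw]
  · intro i _ hi
    obtain ⟨a, ha⟩ : ∃ a, i a = false := by
      by_contra h
      apply hi
      ext a
      have : ¬ i a = false := fun h' => h ⟨a, h'⟩
      simpa using this
    have : cw 1 i = 0 := prod_eq_zero (mem_univ a) (by simp [ha])
    rw [this, zero_mul]
  · simp

/-- Unnormalised characters. -/
def chi (p : ℝ) (S : Finset G) (i : G → Bool) : ℝ := ∏ a ∈ S, (bv (i a) - p)

omit [Fintype G] [DecidableEq G] in
@[simp] theorem chi_empty (p : ℝ) (i : G → Bool) : chi p ∅ i = 1 := by simp [chi]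

omit [Fintype G] [DecidableEq G] in
@[simp] theorem chi_singleton (p : ℝ) (a : G) (i : G → Bool) : chi p {a} i = bv (i a) - p := by
  simp [chi]

theorem Ex_chi_mul (p : ℝ) (S T : Finset G) :
    Ex p (fun i => chi p S i * chi p T i) = if S = T then (p * (1 - p)) ^ S.card else 0 := by
  have h : ∀ i : G → Bool, chi p S i * chi p T i =
      ∏ a, ((if a ∈ S then bv (i a) - p else 1) * (if a ∈ T then bv (i a) - p else 1)) := by
    intro i
    rw [prod_mul_distrib, prod_ite_mem_eq, prod_ite_mem_eq]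
    rfl
  rw [Ex_congr p h, Ex_prod p fun a b =>
    (if a ∈ S then bv b - p else 1) * (if a ∈ T then bv b - p else 1)]
  split_ifs with hST
  · subst hST
    rw [← prod_const, ← prod_ite_mem_eq S]
    refine prod_congr rfl fun a _ => ?_
    split_ifs <;> simp
    ring
  · obtain ⟨a, ha⟩ : ∃ a, ¬ (a ∈ S ↔ a ∈ T) := by
      by_contra h
      exact hST (Finset.ext fun a => not_not.mp fun h' => h ⟨a, h'⟩)
    refine prod_eq_zero (mem_univ a) ?_
    by_cases h1 : a ∈ S <;> by_cases h2 : a ∈ T <;> simp_all <;> ring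

theorem Ex_chi (p : ℝ) (S : Finset G) : Ex p (chi p S) = if S = ∅ then 1 else 0 := by
  have := Ex_chi_mul p S ∅
  simp only [chi_empty, mul_one] at this
  rw [this]
  split_ifs with h
  · simp [h]
  · rfl

theorem Ex_comb_mul (p : ℝ) (A B : Finset (Finset G)) (c d : Finset G → ℝ) :
    Ex p (fun i => (∑ S ∈ A, c S * chi p S i) * ∑ T ∈ B, d T * chi p T i) =
      ∑ S ∈ A ∩ B, c S * d S * (p * (1 - p)) ^ S.card := by
  have h : ∀ i : G → Bool, (∑ S ∈ A, c S * chi p S i) * ∑ T ∈ B, d T * chi p T i =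
      ∑ S ∈ A, ∑ T ∈ B, c S * d T * (chi p S i * chi p T i) := by
    intro i
    rw [sum_mul_sum]
    exact sum_congr rfl fun S _ => sum_congr rfl fun T _ => by ring
  rw [Ex_congr p h, Ex_sum]
  simp_rw [Ex_sum, Ex_const_mul, Ex_chi_mul, mul_ite, mul_zero, sum_ite_eq]
  rw [← sum_filter, filter_mem_eq_inter]

/-- Bessel inequality. -/
theorem bessel {p : ℝ} (h0 : 0 < p) (h1 : p < 1) (A : Finset (Finset G)) (F : (G → Bool) → ℝ) :
    ∑ S ∈ A, Ex p (fun i => F i * chi p S i) ^ 2 / (p * (1 - p)) ^ S.card ≤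
      Ex p fun i => F i ^ 2 := by
  set c : Finset G → ℝ := fun S => Ex p (fun i => F i * chi p S i) / (p * (1 - p)) ^ S.card
    with hc
  have hv : 0 < p * (1 - p) := mul_pos h0 (by linarith)
  have h2 : 0 ≤ Ex p fun i => (F i - ∑ S ∈ A, c S * chi p S i) ^ 2 :=
    Ex_nonneg h0.le h1.le fun i => sq_nonneg _
  have h3 : ∀ i, (F i - ∑ S ∈ A, c S * chi p S i) ^ 2 =
      F i ^ 2 - 2 * (∑ S ∈ A, c S * (F i * chi p S i)) +
        (∑ S ∈ A, c S * chi p S i) * ∑ S ∈ A, c S * chi p S i := by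
    intro i
    have : ∑ S ∈ A, c S * (F i * chi p S i) = F i * ∑ S ∈ A, c S * chi p S i := by
      rw [mul_sum]
      exact sum_congr rfl fun S _ => by ring
    rw [this]
    ring
  rw [Ex_congr p h3, Ex_add, Ex_sub, Ex_const_mul, Ex_sum, Ex_comb_mul, inter_self] at h2
  simp_rw [Ex_const_mul] at h2
  have e1 : ∑ S ∈ A, c S * Ex p (fun i => F i * chi p S i) =
      ∑ S ∈ A, Ex p (fun i => F i * chi p S i) ^ 2 / (p * (1 - p)) ^ S.card :=
    sum_congr rfl fun S _ => by rw [hc]; ring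
  have e2 : ∑ S ∈ A, c S * c S * (p * (1 - p)) ^ S.card =
      ∑ S ∈ A, Ex p (fun i => F i * chi p S i) ^ 2 / (p * (1 - p)) ^ S.card :=
    sum_congr rfl fun S _ => by
      have : (p * (1 - p)) ^ S.card ≠ 0 := by positivity
      rw [hc]
      field_simp
  rw [e1, e2] at h2
  linarith

theorem Ex_bv (p : ℝ) (a : G) : Ex p (fun i => bv (i a)) = p := by
  have h := Ex_chi p ({a} : Finset G)
  rw [Ex_congr p (chi_singleton p a), Ex_sub, Ex_const] at h
  simp only [singleton_ne_empty, if_false] at h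
  linarith

theorem Ex_bv_mul (p : ℝ) {a b : G} (hab : a ≠ b) :
    Ex p (fun i => bv (i a) * bv (i b)) = p ^ 2 := by
  have h := Ex_chi_mul p ({a} : Finset G) {b}
  rw [if_neg (by simpa using hab)] at h
  have e : ∀ i : G → Bool, chi p {a} i * chi p {b} i =
      bv (i a) * bv (i b) - p * bv (i a) - p * bv (i b) + p ^ 2 := by
    intro i
    simp only [chi_singleton]
    ring
  rw [Ex_congr p e, Ex_add, Ex_sub, Ex_sub, Ex_const_mul, Ex_const_mul, Ex_bv, Ex_bv,
    Ex_const] at h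
  linarith

/-- The thinning kernel. -/
noncomputable def kw (q p : ℝ) (U i : G → Bool) : ℝ :=
  ∏ a, bw (if U a then p / q else 0) (i a)

/-- Expectation over a thinned subset of `U`. -/
noncomputable def Cond (q p : ℝ) (F : (G → Bool) → ℝ) (U : G → Bool) : ℝ :=
  ∑ i, kw q p U i * F i

omit [DecidableEq G] in
theorem kw_nonneg {q p : ℝ} (hq : 0 < q) (h0 : 0 ≤ p) (h1 : p ≤ q) (U i : G → Bool) :
    0 ≤ kw q p U i := by
  refine prod_nonneg fun a _ => bw_nonneg ?_ ?_ _
  · split_ifs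
    · positivity
    · exact le_rfl
  · split_ifs
    · rwa [div_le_one hq]
    · exact zero_le_one

omit [DecidableEq G] in
theorem kw_support {q p : ℝ} {U i : G → Bool} (h : kw q p U i ≠ 0) (a : G) (ha : i a = true) :
    U a = true := by
  by_contra hU
  apply h
  refine prod_eq_zero (mem_univ a) ?_
  simp [hU, ha]

theorem sum_kw (q p : ℝ) (U : G → Bool) : ∑ i, kw q p U i = 1 := by
  unfold kw
  rw [sum_prod_cube fun a b => bw (if U a then p / q else 0) b]
  simp

theorem Cond_const (q p c : ℝ) (U : G → Bool) : Cond q p (fun _ => c) U = c := by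
  unfold Cond
  rw [← sum_mul, sum_kw, one_mul]

theorem Cond_mono {q p : ℝ} (hq : 0 < q) (h0 : 0 ≤ p) (h1 : p ≤ q) {F H : (G → Bool) → ℝ}
    (h : ∀ i, F i ≤ H i) (U : G → Bool) : Cond q p F U ≤ Cond q p H U :=
  sum_le_sum fun i _ => mul_le_mul_of_nonneg_left (h i) (kw_nonneg hq h0 h1 U i)

theorem Cond_nonneg {q p : ℝ} (hq : 0 < q) (h0 : 0 ≤ p) (h1 : p ≤ q) {F : (G → Bool) → ℝ}
    (h : ∀ i, 0 ≤ F i) (U : G → Bool) : 0 ≤ Cond q p F U :=
  sum_nonneg fun i _ => mul_nonneg (kw_nonneg hq h0 h1 U i) (h i)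

theorem Cond_le_one {q p : ℝ} (hq : 0 < q) (h0 : 0 ≤ p) (h1 : p ≤ q) {F : (G → Bool) → ℝ}
    (h : ∀ i, F i ≤ 1) (U : G → Bool) : Cond q p F U ≤ 1 :=
  (Cond_mono hq h0 h1 h U).trans_eq (Cond_const q p 1 U)

theorem Cond_const_mul (q p c : ℝ) (F : (G → Bool) → ℝ) (U : G → Bool) :
    Cond q p (fun i => c * F i) U = c * Cond q p F U := by
  simp only [Cond, mul_sum]
  exact sum_congr rfl fun i _ => by ring

theorem Cond_one (p : ℝ) (F : (G → Bool) → ℝ) : Cond 1 p F (fun _ => true) = Ex p F := by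
  simp [Cond, Ex, kw, cw]

theorem Cond_expand {q p : ℝ} (hq : q ≠ 0) (hp : p ≠ 1) (F : (G → Bool) → ℝ) (U : G → Bool) :
    Cond q p F U = ∑ S : Finset G,
      (Ex p (fun i => F i * chi p S i) / (q * (1 - p)) ^ S.card) * chi q S U := by
  have hp' : 1 - p ≠ 0 := sub_ne_zero.mpr hp.symm
  have h : ∀ i : G → Bool, kw q p U i =
      cw p i * ∑ S : Finset G, chi p S i / (q * (1 - p)) ^ S.card * chi q S U := by
    intro i
    have e1 : kw q p U i =
        cw p i * ∏ a, (1 + (bv (i a) - p) / (q * (1 - p)) * (bv (U a) - q)) := by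
      unfold kw cw
      rw [← prod_mul_distrib]
      refine prod_congr rfl fun a _ => ?_
      cases U a <;> cases i a <;>
        simp only [bw_true, bw_false, bv_true, bv_false, if_true, Bool.false_eq_true, if_false] <;>
        field_simp <;> ring
    rw [e1, prod_one_add, powerset_univ]
    congr 1
    refine sum_congr rfl fun S _ => ?_
    rw [prod_mul_distrib, prod_div_distrib, prod_const]
    rfl
  unfold Cond Ex
  simp_rw [h, sum_div, sum_mul, mul_sum, sum_mul]
  rw [sum_comm]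
  exact sum_congr rfl fun S _ => sum_congr rfl fun i _ => by ring

theorem Ex_Cond {q p : ℝ} (hq : q ≠ 0) (hp : p ≠ 1) (F : (G → Bool) → ℝ) :
    Ex q (Cond q p F) = Ex p F := by
  rw [Ex_congr q (Cond_expand hq hp F), Ex_sum]
  simp_rw [Ex_const_mul, Ex_chi]
  simp

/-- Centered linear forms. -/
def lin (q : ℝ) (κ : G → ℝ) (U : G → Bool) : ℝ := ∑ a, κ a * (bv (U a) - q)

theorem Ex_lin_sq (q : ℝ) (κ : G → ℝ) :
    Ex q (fun U => lin q κ U ^ 2) = q * (1 - q) * ∑ a, κ a ^ 2 := by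
  have h : ∀ U : G → Bool, lin q κ U ^ 2 =
      ∑ a, ∑ b, κ a * κ b * (chi q {a} U * chi q {b} U) := by
    intro U
    rw [sq, lin, sum_mul_sum]
    exact sum_congr rfl fun a _ => sum_congr rfl fun b _ => by simp only [chi_singleton]; ring
  rw [Ex_congr q h, Ex_sum]
  simp_rw [Ex_sum, Ex_const_mul, Ex_chi_mul, singleton_inj, mul_ite, mul_zero, sum_ite_eq,
    mem_univ, if_true, card_singleton, pow_one, mul_sum]
  exact sum_congr rfl fun a _ => by ring

theorem Ex_exp_lin {q : ℝ} (h0 : 0 ≤ q) (h1 : q ≤ 1) (κ : G → ℝ) (hκ : ∀ a, |κ a| ≤ 1) :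
    Ex q (fun U => Real.exp (lin q κ U)) ≤ Real.exp (q * (1 - q) * ∑ a, κ a ^ 2) := by
  have h : ∀ U : G → Bool, Real.exp (lin q κ U) = ∏ a, Real.exp (κ a * (bv (U a) - q)) :=
    fun U => Real.exp_sum _ _
  rw [Ex_congr q h, Ex_prod q fun a b => Real.exp (κ a * (bv b - q)), mul_sum, Real.exp_sum]
  refine prod_le_prod (fun a _ => ?_) fun a _ => ?_
  · have := Real.exp_pos (κ a * (bv true - q))
    have := Real.exp_pos (κ a * (bv false - q))
    have : 0 ≤ 1 - q := by linarith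
    positivity
  · have key : ∀ y : ℝ, |y| ≤ 1 → Real.exp (κ a * y) ≤ 1 + κ a * y + (κ a * y) ^ 2 := by
      intro y hy
      have h2 : |κ a * y| ≤ 1 := by
        rw [abs_mul]
        exact mul_le_one₀ (hκ a) (abs_nonneg _) hy
      have := (abs_le.mp (Real.abs_exp_sub_one_sub_id_le h2)).2
      linarith
    have k1 := key (bv true - q) (by rw [bv_true, abs_le]; constructor <;> linarith)
    have k2 := key (bv false - q) (by rw [bv_false, abs_le]; constructor <;> linarith)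
    have k3 := Real.add_one_le_exp (q * (1 - q) * κ a ^ 2)
    have k4 := mul_le_mul_of_nonneg_left k1 h0
    have k5 := mul_le_mul_of_nonneg_left k2 (by linarith : 0 ≤ 1 - q)
    simp only [bv_true, bv_false] at *
    nlinarith

theorem exp_add_exp_neg_ge (y : ℝ) : 2 + y ^ 4 / 24 ≤ Real.exp y + Real.exp (-y) := by
  have key : ∀ z : ℝ, 0 ≤ z → 2 + z ^ 4 / 24 ≤ Real.exp z + Real.exp (-z) := by
    intro z hz
    have h1 := Real.sum_le_exp_of_nonneg hz 5
    have h2 := Real.add_one_le_exp (-z)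
    simp only [sum_range_succ, range_zero, sum_empty, Nat.factorial] at h1
    norm_num at h1
    nlinarith [sq_nonneg z, pow_nonneg hz 3]
  rcases le_total 0 y with h | h
  · exact key y h
  · have := key (-y) (by linarith)
    rw [neg_neg, show (-y) ^ 4 = y ^ 4 by ring] at this
    linarith

/-- Fourth moment of a centered linear form. -/
theorem Ex_lin_four {q : ℝ} (h0 : 0 ≤ q) (h1 : q ≤ 1) (κ : G → ℝ) {B : ℝ} (hB : 0 < B)
    (hκ : ∀ a, κ a ^ 2 ≤ B) (hV : q * (1 - q) * ∑ a, κ a ^ 2 ≤ B) :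
    Ex q (fun U => lin q κ U ^ 4) ≤ 96 * B * (q * (1 - q) * ∑ a, κ a ^ 2) := by
  set V := q * (1 - q) * ∑ a, κ a ^ 2 with hVdef
  set τ := (√B)⁻¹ with hτ
  have hτ2 : τ ^ 2 * B = 1 := by
    rw [hτ, inv_pow, Real.sq_sqrt hB.le, inv_mul_cancel₀ hB.ne']
  have hV0 : 0 ≤ V := mul_nonneg (mul_nonneg h0 (by linarith)) (sum_nonneg fun a _ => sq_nonneg _)
  have key : ∀ t : ℝ, t ^ 2 = τ ^ 2 →
      Ex q (fun U => Real.exp (t * lin q κ U)) ≤ 1 + 2 * (τ ^ 2 * V) := by
    intro t ht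
    have e : ∀ U : G → Bool, Real.exp (t * lin q κ U) = Real.exp (lin q (fun a => t * κ a) U) := by
      intro U
      congr 1
      simp only [lin, mul_sum]
      exact sum_congr rfl fun a _ => by ring
    rw [Ex_congr q e]
    refine (Ex_exp_lin h0 h1 _ fun a => ?_).trans ?_
    · rw [← sq_le_one_iff_abs_le_one, mul_pow, ht, ← hτ2]
      exact mul_le_mul_of_nonneg_left (hκ a) (sq_nonneg _)
    · have e2 : q * (1 - q) * ∑ a, (t * κ a) ^ 2 = τ ^ 2 * V := by
        simp_rw [mul_pow, ← mul_sum, ht, hVdef]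
        ring
      rw [e2]
      have h3 : τ ^ 2 * V ≤ 1 := by
        rw [← hτ2]
        exact mul_le_mul_of_nonneg_left hV (sq_nonneg _)
      have h4 : 0 ≤ τ ^ 2 * V := by positivity
      have h5 := (abs_le.mp (Real.abs_exp_sub_one_sub_id_le
        (x := τ ^ 2 * V) (by rwa [abs_of_nonneg h4]))).2
      nlinarith
  have k1 := key τ rfl
  have k2 := key (-τ) (by ring)
  have k3 : Ex q (fun U => 2 + τ ^ 4 / 24 * lin q κ U ^ 4) ≤
      Ex q (fun U => Real.exp (τ * lin q κ U) + Real.exp (-τ * lin q κ U)) := by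
    refine Ex_mono h0 h1 fun U => ?_
    have := exp_add_exp_neg_ge (τ * lin q κ U)
    rw [neg_mul]
    calc 2 + τ ^ 4 / 24 * lin q κ U ^ 4 = 2 + (τ * lin q κ U) ^ 4 / 24 := by ring
      _ ≤ _ := this
  rw [Ex_add, Ex_add, Ex_const, Ex_const_mul] at k3
  set E := Ex q (fun U => lin q κ U ^ 4)
  have k4 : τ ^ 4 * E ≤ 96 * (τ ^ 2 * V) := by linarith
  have k5 := mul_le_mul_of_nonneg_right k4 (sq_nonneg B)
  calc E = (τ ^ 2 * B) ^ 2 * E := by rw [hτ2]; ring
    _ = τ ^ 4 * E * B ^ 2 := by ring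
    _ ≤ 96 * (τ ^ 2 * V) * B ^ 2 := k5
    _ = 96 * B * V * (τ ^ 2 * B) := by ring
    _ = 96 * B * V := by rw [hτ2, mul_one]

end Pool.Agent.Lib.MP_5d7bff_an
end

-- part Pool.Agent.Lib.MP_5d7bff_an.Key
section

/-!
The second moment estimate at one scale.
-/

namespace Pool.Agent.Lib.MP_5d7bff_an

open Finset

variable {G : Type*} [Fintype G] [DecidableEq G]

theorem sum_split (f : Finset G → ℝ) :
    ∑ S, f S = f ∅ + ∑ a, f {a} + ∑ S ∈ univ.filter (fun S : Finset G => 2 ≤ S.card), f S := by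
  rw [← sum_filter_add_sum_filter_not univ (fun S : Finset G => 2 ≤ S.card), add_comm]
  congr 1
  have : univ.filter (fun S : Finset G => ¬ 2 ≤ S.card) =
      insert ∅ (univ.image fun a : G => ({a} : Finset G)) := by
    ext S
    simp only [mem_filter, mem_univ, true_and, mem_insert, mem_image]
    constructor
    · intro h
      rcases Nat.eq_zero_or_pos S.card with h0 | h0
      · exact Or.inl (card_eq_zero.mp h0)
      · obtain ⟨a, ha⟩ := card_eq_one.mp (show S.card = 1 by omega)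
        exact Or.inr ⟨a, ha.symm⟩
    · rintro (rfl | ⟨a, rfl⟩) <;> simp
  rw [this, sum_insert (by simp), sum_image (by intro a _ b _ h; simpa using h)]

theorem key_second_moment {α : Type*} (A : Finset α) {q : ℝ} (p : α → ℝ)
    (F : α → (G → Bool) → ℝ) (hq0 : 0 < q) (hq1 : q ≤ 1) (hp0 : ∀ r ∈ A, 0 < p r)
    (hpq : ∀ r ∈ A, p r ≤ q) (hp2 : ∀ r ∈ A, p r ≤ 1 / 2) (hsum : ∑ r ∈ A, p r / q ≤ 2)
    (hF0 : ∀ r ∈ A, ∀ i, 0 ≤ F r i) (hF1 : ∀ r ∈ A, ∀ i, F r i ≤ 1)
    (hinf : ∀ a, ∑ r ∈ A, Ex (p r) (fun i => bv (i a) * F r i) / p r ≤ 1)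
    (hm : ∑ r ∈ A, q / p r * Ex (p r) (F r) ≤ 1 / 600) :
    Ex q (fun U => (∑ r ∈ A, q / p r * Cond q (p r) (F r) U) ^ 2) ≤
      600 * ∑ r ∈ A, q / p r * Ex (p r) (F r) := by
  set m := ∑ r ∈ A, q / p r * Ex (p r) (F r) with hmdef
  set Z : (G → Bool) → ℝ := fun U => ∑ r ∈ A, q / p r * Cond q (p r) (F r) U with hZ
  have hp1 : ∀ r ∈ A, p r < 1 := fun r hr => by linarith [hp2 r hr]
  have hE0 : ∀ r ∈ A, 0 ≤ Ex (p r) (F r) := fun r hr =>
    Ex_nonneg (hp0 r hr).le (hp1 r hr).le (hF0 r hr)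
  have hm0 : 0 ≤ m := sum_nonneg fun r hr =>
    mul_nonneg (div_pos hq0 (hp0 r hr)).le (hE0 r hr)
  have hZ0 : ∀ U, 0 ≤ Z U := fun U => sum_nonneg fun r hr =>
    mul_nonneg (div_pos hq0 (hp0 r hr)).le (Cond_nonneg hq0 (hp0 r hr).le (hpq r hr) (hF0 r hr) U)
  set b : α → Finset G → ℝ := fun r S =>
    q / p r * (Ex (p r) (fun i => F r i * chi (p r) S i) / (q * (1 - p r)) ^ S.card) with hb
  set c : Finset G → ℝ := fun S => ∑ r ∈ A, b r S with hc
  have hZe : ∀ U, Z U = ∑ S, c S * chi q S U := by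
    intro U
    simp only [hZ, hc, sum_mul]
    rw [sum_comm]
    refine sum_congr rfl fun r hr => ?_
    rw [Cond_expand hq0.ne' (hp1 r hr).ne, mul_sum]
    exact sum_congr rfl fun S _ => by rw [hb]; ring
  have hc0 : c ∅ = m := by simp [hc, hb, hmdef]
  set A2 := univ.filter (fun S : Finset G => 2 ≤ S.card) with hA2
  set κ : G → ℝ := fun a => c {a} with hκ
  set W : (G → Bool) → ℝ := fun U => ∑ S ∈ A2, c S * chi q S U with hW
  set V := q * (1 - q) * ∑ a, κ a ^ 2 with hV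
  have hV0 : 0 ≤ V := mul_nonneg (mul_nonneg hq0.le (by linarith))
    (sum_nonneg fun a _ => sq_nonneg _)
  have hdec : ∀ U, Z U = m + lin q κ U + W U := by
    intro U
    rw [hZe, sum_split, hc0]
    simp [lin, hκ, hW, hA2]
  have hlin : ∀ U, lin q κ U =
      ∑ S ∈ univ.image (fun a : G => ({a} : Finset G)), c S * chi q S U := by
    intro U
    rw [sum_image (by intro a _ b _ h; simpa using h)]
    simp [lin, hκ]
  have hZl : Ex q (fun U => Z U * lin q κ U) = V := by
    simp_rw [hZe, hlin]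
    rw [Ex_comb_mul, univ_inter, sum_image (by intro a _ b _ h; simpa using h), hV, mul_sum]
    exact sum_congr rfl fun a _ => by simp [hκ]; ring
  have hW2e : Ex q (fun U => W U ^ 2) = ∑ S ∈ A2, c S * c S * (q * (1 - q)) ^ S.card := by
    simp_rw [sq, hW]
    rw [Ex_comb_mul, inter_self]
  have hZ2 : Ex q (fun U => Z U ^ 2) = m ^ 2 + V + Ex q (fun U => W U ^ 2) := by
    rw [hW2e]
    simp_rw [sq, hZe]
    rw [Ex_comb_mul, inter_self, sum_split, hc0]
    congr 2
    · simp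
    · rw [hV, mul_sum]
      exact sum_congr rfl fun a _ => by simp [hκ]; ring
  have hW2 : Ex q (fun U => W U ^ 2) ≤ 2 * m := by
    rw [hW2e]
    have h1 : ∀ S ∈ A2, c S * c S * (q * (1 - q)) ^ S.card ≤
        2 * ∑ r ∈ A, q / p r * (Ex (p r) (fun i => F r i * chi (p r) S i) ^ 2 /
          (p r * (1 - p r)) ^ S.card) := by
      intro S hS
      have hS2 : 2 ≤ S.card := (mem_filter.mp hS).2
      have hv : 0 ≤ (q * (1 - q)) ^ S.card := pow_nonneg (mul_nonneg hq0.le (by linarith)) _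
      have h2 : c S * c S ≤ 2 * ∑ r ∈ A, b r S ^ 2 / (p r / q) := by
        rcases A.eq_empty_or_nonempty with hA | hA
        · simp [hc, hA]
        have h3 := sq_sum_div_le_sum_sq_div A (fun r => b r S) (g := fun r => p r / q)
          fun r hr => div_pos (hp0 r hr) hq0
        have h4 : 0 < ∑ r ∈ A, p r / q := sum_pos (fun r hr => div_pos (hp0 r hr) hq0) hA
        rw [div_le_iff₀ h4] at h3
        have h5 : 0 ≤ ∑ r ∈ A, b r S ^ 2 / (p r / q) :=
          sum_nonneg fun r hr => div_nonneg (sq_nonneg _) (div_pos (hp0 r hr) hq0).le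
        have h6 := mul_le_mul_of_nonneg_left hsum h5
        rw [← sq]
        linarith
      refine (mul_le_mul_of_nonneg_right h2 hv).trans ?_
      rw [mul_assoc, sum_mul]
      refine mul_le_mul_of_nonneg_left (sum_le_sum fun r hr => ?_) (by norm_num)
      have hpr := hp0 r hr
      have hpr1 : 0 < 1 - p r := by linarith [hp1 r hr]
      set l := p r * (1 - q) / (q * (1 - p r)) with hl
      have hl0 : 0 ≤ l := div_nonneg (mul_nonneg hpr.le (by linarith)) (by positivity)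
      have hl1 : l ≤ p r / q := by
        rw [hl, div_le_div_iff₀ (by positivity) hq0]
        have := hpq r hr
        have : 0 ≤ p r * q * (q - p r) := mul_nonneg (by positivity) (by linarith)
        nlinarith
      have hρ1 : p r / q ≤ 1 := (div_le_one hq0).mpr (hpq r hr)
      have hl2 : l ^ S.card ≤ (p r / q) ^ 2 :=
        (pow_le_pow_left₀ hl0 hl1 _).trans (pow_le_pow_of_le_one (by positivity) hρ1 hS2)
      have e : b r S ^ 2 / (p r / q) * (q * (1 - q)) ^ S.card =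
          (q / p r) ^ 3 * l ^ S.card * (Ex (p r) (fun i => F r i * chi (p r) S i) ^ 2 /
            (p r * (1 - p r)) ^ S.card) := by
        simp only [hb, hl, div_pow, mul_pow]
        field_simp
      rw [e]
      refine mul_le_mul_of_nonneg_right ?_ (by positivity)
      calc (q / p r) ^ 3 * l ^ S.card ≤ (q / p r) ^ 3 * (p r / q) ^ 2 := by gcongr
        _ = q / p r := by field_simp
    refine (sum_le_sum h1).trans ?_
    rw [← mul_sum, sum_comm]
    refine mul_le_mul_of_nonneg_left (sum_le_sum fun r hr => ?_) (by norm_num)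
    rw [← mul_sum]
    refine mul_le_mul_of_nonneg_left ((bessel (hp0 r hr) (hp1 r hr) A2 (F r)).trans ?_)
      (div_pos hq0 (hp0 r hr)).le
    refine Ex_mono (hp0 r hr).le (hp1 r hr).le fun i => ?_
    have := hF0 r hr i
    have := hF1 r hr i
    nlinarith
  have hκb : ∀ a, κ a ^ 2 ≤ 4 + V := by
    intro a
    have e : κ a = ∑ r ∈ A, Ex (p r) (fun i => F r i * (bv (i a) - p r)) / (p r * (1 - p r)) := by
      simp only [hκ, hc, hb, chi_singleton, card_singleton, pow_one]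
      refine sum_congr rfl fun r hr => ?_
      have := (hp0 r hr).ne'
      have : 1 - p r ≠ 0 := by linarith [hp1 r hr]
      field_simp
    have u1 : κ a ≤ 1 := by
      rw [e]
      refine le_trans (sum_le_sum fun r hr => ?_) (hinf a)
      have hpr := hp0 r hr
      have hpr1 : 0 < 1 - p r := by linarith [hp1 r hr]
      rw [div_le_div_iff₀ (by positivity) hpr]
      have : Ex (p r) (fun i => F r i * (bv (i a) - p r)) ≤
          (1 - p r) * Ex (p r) (fun i => bv (i a) * F r i) := by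
        rw [← Ex_const_mul]
        refine Ex_mono hpr.le (hp1 r hr).le fun i => ?_
        have := hF0 r hr i
        cases i a
        · simp only [bv_false]
          nlinarith
        · simp only [bv_true]
          nlinarith
      nlinarith
    have u2 : -(2 * m) ≤ κ a := by
      rw [e, hmdef, mul_sum, ← sum_neg_distrib]
      refine sum_le_sum fun r hr => ?_
      have hpr := hp0 r hr
      have hpr1 : 0 < 1 - p r := by linarith [hp1 r hr]
      rw [le_div_iff₀ (by positivity)]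
      have h1 : -p r * Ex (p r) (F r) ≤ Ex (p r) (fun i => F r i * (bv (i a) - p r)) := by
        rw [← Ex_const_mul]
        refine Ex_mono hpr.le (hp1 r hr).le fun i => ?_
        have := mul_nonneg (hF0 r hr i) (bv_nonneg (i a))
        nlinarith
      have h2 : 1 ≤ q / p r := (one_le_div hpr).mpr (hpq r hr)
      have h3 : 1 ≤ 2 * (q / p r) * (1 - p r) := by nlinarith [hp2 r hr]
      have h4 := mul_le_mul_of_nonneg_left h3 (mul_nonneg hpr.le (hE0 r hr))
      nlinarith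
    nlinarith
  have h4 := Ex_lin_four hq0.le hq1 κ (B := 4 + V) (by linarith) hκb (by linarith)
  have h2 := Ex_lin_sq q κ
  rw [← hV] at h4 h2
  have hEZ : Ex q Z = m := by
    rw [hZ, Ex_sum]
    refine sum_congr rfl fun r hr => ?_
    rw [Ex_const_mul, Ex_Cond hq0.ne' (hp1 r hr).ne]
  change Ex q (fun U => Z U ^ 2) ≤ 600 * m
  clear_value m Z κ W V
  obtain ⟨θ, hθ⟩ : ∃ θ, θ = 145 * (1 + V) := ⟨_, rfl⟩
  have hθ0 : 0 < θ := by rw [hθ]; positivity
  have hpt : ∀ U, 4 * θ * (Z U * lin q κ U) ≤ 4 * θ ^ 2 * Z U +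
      ((3 / 2) * lin q κ U ^ 2 + (3 / 4) * lin q κ U ^ 4 + W U ^ 2) := by
    intro U
    have a1 : 4 * θ * (Z U * lin q κ U) ≤ 4 * θ ^ 2 * Z U + Z U * lin q κ U ^ 2 := by
      have := mul_nonneg (hZ0 U) (sq_nonneg (2 * θ - lin q κ U))
      nlinarith
    have a2 : Z U * lin q κ U ^ 2 ≤
        (3 / 2) * lin q κ U ^ 2 + (3 / 4) * lin q κ U ^ 4 + W U ^ 2 := by
      rw [hdec U]
      set y := lin q κ U
      have b1 : m * y ^ 2 ≤ y ^ 2 := mul_le_of_le_one_left (sq_nonneg _) (by linarith)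
      nlinarith [sq_nonneg (y - y ^ 2), sq_nonneg (W U - y ^ 2 / 2)]
    linarith
  have h5 := Ex_mono hq0.le hq1 hpt
  rw [Ex_const_mul, hZl, Ex_add, Ex_add, Ex_add, Ex_const_mul, Ex_const_mul, Ex_const_mul,
    hEZ, h2] at h5
  have h6 : 4 * θ * V ≤ 4 * θ ^ 2 * m + 2 * θ * V + 4 * θ * m := by
    have : 1 ≤ θ := by rw [hθ]; linarith
    have : 2 * m ≤ 4 * θ * m := by nlinarith
    have : (3 / 2) * V + (3 / 4) * (96 * (4 + V) * V) ≤ 2 * θ * V := by
      rw [hθ]
      nlinarith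
    linarith
  have h7 : V ≤ 2 * θ * m + 2 * m := by
    have : 2 * θ * V ≤ 2 * θ * (2 * θ * m + 2 * m) := by nlinarith
    exact le_of_mul_le_mul_left this (by positivity)
  have h8 : V ≤ 590 * m := by
    rw [hθ] at h7
    have : V * m ≤ V * (1 / 600) := mul_le_mul_of_nonneg_left hm hV0
    nlinarith
  rw [hZ2]
  nlinarith

end Pool.Agent.Lib.MP_5d7bff_an
end

-- part Pool.Agent.Lib.MP_5d7bff_an.Block
section

/-!
One block: definitions and the lower estimate.
-/

namespace Pool.Agent.Lib.MP_5d7bff_an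

open Finset

/-- Amplitude at scale `σ`. -/
noncomputable def amp (R σ : ℕ) : ℝ := 2 ^ σ / 2 ^ R

/-- Density of the random set at scale `σ`. -/
noncomputable def qq (R σ : ℕ) : ℝ := (1 / 2) ^ (σ - R)

/-- Density at level `r`. -/
noncomputable def pp (r : ℕ) : ℝ := (1 / 2) ^ r

/-- Number of children of level `r` at scale `σ`. -/
def MM (R σ r : ℕ) : ℕ := if σ ≤ r + R then 2 ^ (r + R - σ) else 0

/-- Truncated square. -/
noncomputable def hh (y : ℝ) : ℝ := min 1 (y ^ 2)

/-- One minus the characteristic function of the average of two signs. -/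
noncomputable def eta (y : ℝ) : ℝ := (1 - Real.cos y) / 2

theorem amp_pos (R σ : ℕ) : 0 < amp R σ := by unfold amp; positivity
theorem amp_succ (R σ : ℕ) : amp R (σ + 1) = 2 * amp R σ := by unfold amp; ring
theorem amp_add (R s : ℕ) : amp R (s + R) = 2 ^ s := by unfold amp; field_simp; ring
theorem qq_pos (R σ : ℕ) : 0 < qq R σ := by unfold qq; positivity
theorem qq_le_one (R σ : ℕ) : qq R σ ≤ 1 := pow_le_one₀ (by norm_num) (by norm_num)
theorem pp_pos (r : ℕ) : 0 < pp r := by unfold pp; positivity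
theorem pp_le_one (r : ℕ) : pp r ≤ 1 := pow_le_one₀ (by norm_num) (by norm_num)
theorem two_pow_mul_pp (r : ℕ) : 2 ^ r * pp r = 1 := by unfold pp; rw [← mul_pow]; norm_num

theorem pp_le_half {r : ℕ} (h : 1 ≤ r) : pp r ≤ 1 / 2 := by
  have := pow_le_pow_of_le_one (a := (1 / 2 : ℝ)) (by norm_num) (by norm_num) h
  rwa [pow_one] at this

theorem pp_ne_one {r : ℕ} (h : 1 ≤ r) : pp r ≠ 1 := by linarith [pp_le_half h]

theorem pp_le_qq {R σ r : ℕ} (h : σ ≤ r + R) : pp r ≤ qq R σ :=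
  pow_le_pow_of_le_one (by norm_num) (by norm_num) (by omega)

theorem qq_of_le {R σ : ℕ} (h : σ ≤ R) : qq R σ = 1 := by
  unfold qq; rw [Nat.sub_eq_zero_of_le h, pow_zero]

theorem MM_mul_amp {R σ r : ℕ} (h : σ ≤ r + R) : (MM R σ r : ℝ) * amp R σ = 2 ^ r := by
  unfold MM amp
  rw [if_pos h]
  push_cast
  rw [← mul_div_assoc, ← pow_add, Nat.sub_add_cancel h, pow_add]
  field_simp

theorem MM_of_lt {R σ r : ℕ} (h : ¬ σ ≤ r + R) : MM R σ r = 0 := if_neg h

theorem MM_eq_div {R σ r : ℕ} (h : σ ≤ r + R) (h' : R ≤ σ) : (MM R σ r : ℝ) = qq R σ / pp r := by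
  obtain ⟨s, rfl⟩ := Nat.exists_eq_add_of_le' h'
  have h1 := MM_mul_amp h
  rw [amp_add] at h1
  have h2 : qq R (s + R) = pp s := by unfold qq pp; rw [Nat.add_sub_cancel]
  rw [h2, eq_div_iff (pp_pos r).ne']
  have h3 := two_pow_mul_pp r
  have h4 := two_pow_mul_pp s
  calc (MM R (s + R) r : ℝ) * pp r = MM R (s + R) r * pp r * (2 ^ s * pp s) := by rw [h4, mul_one]
    _ = (MM R (s + R) r * 2 ^ s) * pp r * pp s := by ring
    _ = pp s := by rw [h1, h3, one_mul]

theorem hh_nonneg (y : ℝ) : 0 ≤ hh y := le_min zero_le_one (sq_nonneg y)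
theorem hh_le_one (y : ℝ) : hh y ≤ 1 := min_le_left _ _
theorem eta_nonneg (y : ℝ) : 0 ≤ eta y := by unfold eta; linarith [Real.cos_le_one y]
theorem eta_le_one (y : ℝ) : eta y ≤ 1 := by unfold eta; linarith [Real.neg_one_le_cos y]

theorem eta_le_hh (y : ℝ) : eta y ≤ hh y := by
  refine le_min (eta_le_one y) ?_
  unfold eta
  nlinarith [Real.one_sub_sq_div_two_le_cos (x := y), sq_nonneg y]

theorem sq_le_eta {y : ℝ} (h : |y| ≤ 1) : y ^ 2 / 5 ≤ eta y := by
  have h1 := (abs_le.mp (Real.cos_bound h)).2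
  have h2 : |y| ^ 4 ≤ y ^ 2 := by
    rw [← sq_abs y]
    exact pow_le_pow_of_le_one (abs_nonneg _) h (by norm_num)
  unfold eta
  linarith [sq_nonneg y]

theorem sum_pp_le (t : ℕ) (s : Finset ℕ) (hs : ∀ r ∈ s, t ≤ r) : ∑ r ∈ s, pp r ≤ 2 * pp t := by
  obtain ⟨N, hN⟩ := s.bddAbove
  have h1 : s ⊆ Ico t (max t N + 1) := fun r hr =>
    mem_Ico.mpr ⟨hs r hr, Nat.lt_succ_of_le ((hN hr).trans (le_max_right _ _))⟩
  refine (sum_le_sum_of_subset_of_nonneg h1 fun r _ _ => (pp_pos r).le).trans ?_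
  have h2 := geom_sum_Ico_le_of_lt_one (x := (1 / 2 : ℝ)) (m := t) (n := max t N + 1)
    (by norm_num) (by norm_num)
  unfold pp
  refine h2.trans (le_of_eq ?_)
  ring

variable {G : Type*} [Fintype G] [DecidableEq G]

/-- Functions on a block. -/
abbrev Fn (G : Type*) := ℕ → (G → Bool) → ℝ

/-- Expected truncated energy of the children of `U`. -/
noncomputable def YY (L R σ : ℕ) (x : Fn G) (U : G → Bool) : ℝ :=
  ∑ r ∈ Icc 1 L, (MM R σ r : ℝ) * Cond (qq R σ) (pp r) (fun i => hh (amp R σ * x r i)) U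

/-- The modular. -/
noncomputable def psi (L R : ℕ) (x : Fn G) : ℝ :=
  ∑ σ ∈ range (L + R + 1), Ex (qq R σ) fun U => min 1 (YY L R σ x U)

/-- Characteristic function at one scale. -/
noncomputable def chiS (L R σ : ℕ) (x : Fn G) : ℝ :=
  Ex (qq R σ) fun U => ∏ r ∈ Icc 1 L,
    (1 - Cond (qq R σ) (pp r) (fun i => eta (amp R σ * x r i)) U) ^ MM R σ r

/-- Characteristic function of a block. -/
noncomputable def chiB (L R : ℕ) (x : Fn G) : ℝ := ∏ σ ∈ range (L + R + 1), chiS L R σ x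

/-- Pairing with a test function. -/
noncomputable def pair (L : ℕ) (g x : Fn G) : ℝ :=
  ∑ r ∈ Icc 1 L, 2 ^ r * Ex (pp r) fun i => g r i * |x r i|

/-- Energy of a test function. -/
noncomputable def en (L : ℕ) (g : Fn G) : ℝ := ∑ r ∈ Icc 1 L, Ex (pp r) fun i => g r i ^ 2

/-- Admissible test functions. -/
def InD (L : ℕ) (g : Fn G) : Prop :=
  (∀ r i, 0 ≤ g r i) ∧ (∀ r i, g r i ≤ 1) ∧
    ∀ a, ∑ r ∈ Icc 1 L, 2 ^ r * Ex (pp r) (fun i => bv (i a) * g r i ^ 2) ≤ 1

theorem factor_bounds (R σ r : ℕ) {F : (G → Bool) → ℝ} (h0 : ∀ i, 0 ≤ F i) (h1 : ∀ i, F i ≤ 1)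
    (U : G → Bool) :
    0 ≤ (1 - Cond (qq R σ) (pp r) F U) ^ MM R σ r ∧
    (1 - Cond (qq R σ) (pp r) F U) ^ MM R σ r ≤
      Real.exp (-(MM R σ r * Cond (qq R σ) (pp r) F U)) ∧
    1 - MM R σ r * Cond (qq R σ) (pp r) F U ≤ (1 - Cond (qq R σ) (pp r) F U) ^ MM R σ r ∧
    0 ≤ MM R σ r * Cond (qq R σ) (pp r) F U := by
  by_cases h : σ ≤ r + R
  · have a0 := Cond_nonneg (qq_pos R σ) (pp_pos r).le (pp_le_qq h) h0 U
    have a1 := Cond_le_one (qq_pos R σ) (pp_pos r).le (pp_le_qq h) h1 U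
    set β := Cond (qq R σ) (pp r) F U
    refine ⟨pow_nonneg (by linarith) _, ?_, ?_, by positivity⟩
    · rw [← mul_neg, Real.exp_nat_mul]
      exact pow_le_pow_left₀ (by linarith) (by linarith [Real.add_one_le_exp (-β)]) _
    · have := one_add_mul_le_pow (a := -β) (by linarith) (MM R σ r)
      rw [mul_neg] at this
      exact this
  · simp [MM_of_lt h]

theorem term_mono (R σ r : ℕ) {F H : (G → Bool) → ℝ} (h : ∀ i, F i ≤ H i) (U : G → Bool) :
    MM R σ r * Cond (qq R σ) (pp r) F U ≤ MM R σ r * Cond (qq R σ) (pp r) H U := by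
  by_cases hσ : σ ≤ r + R
  · exact mul_le_mul_of_nonneg_left (Cond_mono (qq_pos R σ) (pp_pos r).le (pp_le_qq hσ) h U)
      (Nat.cast_nonneg _)
  · simp [MM_of_lt hσ]

theorem chiS_nonneg (L R σ : ℕ) (x : Fn G) : 0 ≤ chiS L R σ x :=
  Ex_nonneg (qq_pos R σ).le (qq_le_one R σ) fun U => prod_nonneg fun r _ =>
    (factor_bounds R σ r (fun _ => eta_nonneg _) (fun _ => eta_le_one _) U).1

theorem chiS_le (L R σ : ℕ) (x : Fn G) (H : Fn G) {θ : ℝ}
    (hH : ∀ r ∈ Icc 1 L, ∀ i, θ * H r i ≤ eta (amp R σ * x r i)) :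
    chiS L R σ x ≤ Ex (qq R σ) fun U =>
      Real.exp (-(θ * ∑ r ∈ Icc 1 L, MM R σ r * Cond (qq R σ) (pp r) (H r) U)) := by
  refine Ex_mono (qq_pos R σ).le (qq_le_one R σ) fun U => ?_
  refine (prod_le_prod (fun r _ =>
    (factor_bounds R σ r (fun _ => eta_nonneg _) (fun _ => eta_le_one _) U).1) fun r _ =>
    (factor_bounds R σ r (fun _ => eta_nonneg _) (fun _ => eta_le_one _) U).2.1).trans ?_
  rw [← Real.exp_sum, sum_neg_distrib, Real.exp_le_exp, neg_le_neg_iff, mul_sum]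
  refine sum_le_sum fun r hr => le_trans (le_of_eq ?_) (term_mono R σ r (hH r hr) U)
  rw [Cond_const_mul]
  ring

theorem chiS_le_one (L R σ : ℕ) (x : Fn G) : chiS L R σ x ≤ 1 := by
  have := chiS_le L R σ x 0 (θ := 0) fun r _ i => by simpa using eta_nonneg _
  simpa [Ex_const] using this

theorem one_sub_prod_le {α : Type*} (s : Finset α) (f : α → ℝ) (h0 : ∀ a ∈ s, 0 ≤ f a)
    (h1 : ∀ a ∈ s, f a ≤ 1) : 1 - ∏ a ∈ s, f a ≤ ∑ a ∈ s, (1 - f a) := by
  classical
  induction s using Finset.induction_on with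
  | empty => simp
  | insert a s ha ih =>
    rw [prod_insert ha, sum_insert ha]
    have b0 : ∀ b ∈ s, 0 ≤ f b := fun b hb => h0 b (mem_insert_of_mem hb)
    have b1 : ∀ b ∈ s, f b ≤ 1 := fun b hb => h1 b (mem_insert_of_mem hb)
    have := ih b0 b1
    have := prod_le_one b0 b1
    have := h1 a (mem_insert_self a s)
    nlinarith

theorem chiB_nonneg (L R : ℕ) (x : Fn G) : 0 ≤ chiB L R x :=
  prod_nonneg fun σ _ => chiS_nonneg L R σ x

theorem chiB_le_one (L R : ℕ) (x : Fn G) : chiB L R x ≤ 1 :=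
  prod_le_one (fun σ _ => chiS_nonneg L R σ x) fun σ _ => chiS_le_one L R σ x

theorem one_sub_chiB_le (L R : ℕ) (x : Fn G) : 1 - chiB L R x ≤ psi L R x := by
  refine (one_sub_prod_le _ _ (fun σ _ => chiS_nonneg L R σ x)
    fun σ _ => chiS_le_one L R σ x).trans (sum_le_sum fun σ _ => ?_)
  rw [← Ex_const (G := G) (qq R σ) 1, chiS, ← Ex_sub]
  simp only [Ex_const]
  refine Ex_mono (qq_pos R σ).le (qq_le_one R σ) fun U => ?_
  have fb := fun r => factor_bounds R σ r (F := fun i => eta (amp R σ * x r i))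
    (fun _ => eta_nonneg _) (fun _ => eta_le_one _) U
  refine le_min ?_ ?_
  · linarith [prod_nonneg fun r (_ : r ∈ Icc 1 L) => (fb r).1]
  · refine (one_sub_prod_le _ _ (fun r _ => (fb r).1) fun r _ => (fb r).2.1.trans ?_).trans
      (sum_le_sum fun r _ => ?_)
    · rw [Real.exp_le_one_iff, neg_nonpos]
      exact (fb r).2.2.2
    · have := (fb r).2.2.1
      have := term_mono R σ r (fun i => eta_le_hh (amp R σ * x r i)) U
      linarith

theorem exp_neg_le_quad {y : ℝ} (h : 0 ≤ y) : Real.exp (-y) ≤ 1 - y + y ^ 2 := by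
  rw [Real.exp_neg, inv_le_comm₀ (Real.exp_pos y) (by nlinarith)]
  refine le_trans ?_ (Real.add_one_le_exp y)
  rw [inv_le_iff_one_le_mul₀ (by nlinarith)]
  nlinarith [pow_nonneg h 3]

/-- The lower estimate for one block. -/
theorem chiB_le_exp (L R : ℕ) (g x : Fn G) (hg : InD L g) (hp : pair L g x ≤ 1 / 600)
    (hx : ∀ r ∈ Icc 1 L, ∀ i, |x r i| ≤ 2 ^ R) :
    chiB L R x ≤ Real.exp (-((pair L g x - en L g) / 4800)) := by
  classical
  obtain ⟨hg0, hg1, hgD⟩ := hg
  let sc : ℕ → (G → Bool) → ℕ := fun r i =>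
    Nat.findGreatest (fun σ => amp R σ * |x r i| ≤ g r i) (r + R)
  have sc_le : ∀ r i, sc r i ≤ r + R := fun r i => Nat.findGreatest_le _
  have sc_spec : ∀ r i, sc r i ≠ 0 → amp R (sc r i) * |x r i| ≤ g r i := fun r i h =>
    Nat.findGreatest_of_ne_zero rfl h
  have sc_one : ∀ r ∈ Icc 1 L, ∀ i, amp R (sc r i) * |x r i| ≤ 1 := by
    intro r hr i
    by_cases h : sc r i = 0
    · rw [h, amp, pow_zero, div_mul_eq_mul_div, one_mul, div_le_one (by positivity)]
      exact hx r hr i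
    · exact (sc_spec r i h).trans (hg1 r i)
  let H : ℕ → Fn G := fun σ r i => if sc r i = σ then (amp R σ * |x r i|) ^ 2 else 0
  have H0 : ∀ σ r i, 0 ≤ H σ r i := fun σ r i => by
    simp only [H]
    split_ifs
    · positivity
    · exact le_rfl
  have H1 : ∀ σ, ∀ r ∈ Icc 1 L, ∀ i, H σ r i ≤ 1 := fun σ r hr i => by
    simp only [H]
    split_ifs with h
    · rw [← h]
      exact pow_le_one₀ (mul_nonneg (amp_pos _ _).le (abs_nonneg _)) (sc_one r hr i)
    · exact zero_le_one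
  have Hg : ∀ σ, σ ≠ 0 → ∀ r i, H σ r i ≤ amp R σ * |x r i| * g r i ∧ H σ r i ≤ g r i ^ 2 := by
    intro σ hσ r i
    have h0 : 0 ≤ amp R σ * |x r i| := mul_nonneg (amp_pos _ _).le (abs_nonneg _)
    simp only [H]
    split_ifs with h
    · have := sc_spec r i (h ▸ hσ)
      rw [h] at this
      exact ⟨by nlinarith, pow_le_pow_left₀ h0 this 2⟩
    · exact ⟨mul_nonneg h0 (hg0 r i), sq_nonneg _⟩
  have Heta : ∀ σ, ∀ r ∈ Icc 1 L, ∀ i, 1 / 600 * H σ r i ≤ eta (amp R σ * x r i) := by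
    intro σ r hr i
    simp only [H]
    split_ifs with h
    · have h1 : |amp R σ * x r i| = amp R σ * |x r i| := by
        rw [abs_mul, abs_of_pos (amp_pos _ _)]
      have h2 := sq_le_eta (y := amp R σ * x r i) (by rw [h1, ← h]; exact sc_one r hr i)
      rw [← sq_abs, h1] at h2
      nlinarith [sq_nonneg (amp R σ * |x r i|)]
    · simpa using eta_nonneg _
  let m : ℕ → ℝ := fun σ => ∑ r ∈ Icc 1 L, MM R σ r * Ex (pp r) (H σ r)
  have m0 : ∀ σ, 0 ≤ m σ := fun σ => sum_nonneg fun r _ =>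
    mul_nonneg (Nat.cast_nonneg _) (Ex_nonneg (pp_pos r).le (pp_le_one r) (H0 σ r))
  have hscale : ∀ σ, chiS L R σ x ≤ Real.exp (-(m σ / 2400)) := by
    intro σ
    by_cases hσ : σ ≤ R
    · refine (chiS_le L R σ x (H σ) (Heta σ)).trans ?_
      rw [qq_of_le hσ, Ex_one]
      simp only [Cond_one]
      rw [Real.exp_le_exp]
      have := m0 σ
      simp only [m] at this ⊢
      linarith
    · have hσR : R ≤ σ := (not_le.mp hσ).le
      have hσ0 : σ ≠ 0 := by omega
      set A := (Icc 1 L).filter (fun r => σ ≤ r + R) with hA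
      have hAs : ∀ f : ℕ → ℝ, ∑ r ∈ Icc 1 L, MM R σ r * f r = ∑ r ∈ A, qq R σ / pp r * f r := by
        intro f
        rw [hA, sum_filter]
        refine sum_congr rfl fun r _ => ?_
        split_ifs with h
        · rw [MM_eq_div h hσR]
        · simp [MM_of_lt h]
      have hAI : ∀ r ∈ A, r ∈ Icc 1 L := fun r hr => (mem_filter.mp hr).1
      have hmp : m σ ≤ 1 / 600 := by
        refine le_trans (sum_le_sum fun r _ => ?_) hp
        by_cases h : σ ≤ r + R
        · rw [← MM_mul_amp h, mul_assoc, ← Ex_const_mul (pp r) (amp R σ)]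
          refine mul_le_mul_of_nonneg_left (Ex_mono (pp_pos r).le (pp_le_one r) fun i => ?_)
            (Nat.cast_nonneg _)
          have := (Hg σ hσ0 r i).1
          linarith
        · rw [MM_of_lt h, Nat.cast_zero, zero_mul]
          exact mul_nonneg (by positivity) (Ex_nonneg (pp_pos r).le (pp_le_one r) fun i =>
            mul_nonneg (hg0 r i) (abs_nonneg _))
      have hk := key_second_moment A pp (H σ) (qq_pos R σ) (qq_le_one R σ)
        (fun r _ => pp_pos r) (fun r hr => pp_le_qq (mem_filter.mp hr).2)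
        (fun r hr => pp_le_half (mem_Icc.mp (hAI r hr)).1)
        (by
          rw [← sum_div, div_le_iff₀ (qq_pos R σ)]
          exact sum_pp_le (σ - R) A fun r hr => by have := (mem_filter.mp hr).2; omega)
        (fun r _ => H0 σ r) (fun r hr => H1 σ r (hAI r hr))
        (fun a => by
          refine le_trans ?_ (hgD a)
          refine le_trans (sum_le_sum fun r _ => ?_)
            (sum_le_sum_of_subset_of_nonneg (filter_subset _ _) fun r _ _ =>
              mul_nonneg (by positivity) (Ex_nonneg (pp_pos r).le (pp_le_one r) fun i =>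
                mul_nonneg (bv_nonneg _) (sq_nonneg _)))
          rw [div_le_iff₀ (pp_pos r), mul_right_comm, two_pow_mul_pp, one_mul]
          exact Ex_mono (pp_pos r).le (pp_le_one r) fun i =>
            mul_le_mul_of_nonneg_left (Hg σ hσ0 r i).2 (bv_nonneg _))
        (by rw [← hAs]; exact hmp)
      simp_rw [← hAs] at hk
      have hEZ : Ex (qq R σ) (fun U => ∑ r ∈ Icc 1 L, MM R σ r * Cond (qq R σ) (pp r) (H σ r) U)
          = m σ := by
        rw [Ex_sum]
        refine sum_congr rfl fun r hr => ?_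
        rw [Ex_const_mul, Ex_Cond (qq_pos R σ).ne' (pp_ne_one (mem_Icc.mp hr).1)]
      have hle := chiS_le L R σ x (H σ) (θ := 1 / 1200) fun r hr i => by
        have := Heta σ r hr i
        have := H0 σ r i
        linarith
      refine hle.trans ((Ex_mono (qq_pos R σ).le (qq_le_one R σ) fun U =>
        exp_neg_le_quad (mul_nonneg (by norm_num) (sum_nonneg fun r hr =>
          (factor_bounds R σ r (H0 σ r) (H1 σ r hr) U).2.2.2))).trans ?_)
      simp_rw [mul_pow]
      rw [Ex_add, Ex_sub, Ex_const, Ex_const_mul, Ex_const_mul, hEZ]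
      have := Real.add_one_le_exp (-(m σ / 2400))
      change _ ≤ 600 * m σ at hk
      linarith
  refine (prod_le_prod (fun σ _ => chiS_nonneg L R σ x) fun σ _ => hscale σ).trans ?_
  rw [← Real.exp_sum, Real.exp_le_exp, sum_neg_distrib, neg_le_neg_iff, ← sum_div]
  have : pair L g x - en L g ≤ 2 * ∑ σ ∈ range (L + R + 1), m σ := by
    simp only [m, pair, en]
    rw [sum_comm, mul_sum, ← sum_sub_distrib]
    refine sum_le_sum fun r hr => ?_
    simp_rw [← Ex_const_mul]
    rw [← Ex_sum, ← Ex_const_mul, ← Ex_sub]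
    refine Ex_mono (pp_pos r).le (pp_le_one r) fun i => ?_
    have hs := sc_le r i
    have hrL := (mem_Icc.mp hr).2
    simp only [H, mul_ite, mul_zero, sum_ite_eq, mem_range]
    rw [if_pos (by omega)]
    have e := MM_mul_amp hs
    have t0 := abs_nonneg (x r i)
    have a0 := amp_pos R (sc r i)
    have g0 := hg0 r i
    have e2 : (MM R (sc r i) r : ℝ) * (amp R (sc r i) * |x r i|) ^ 2 =
        2 ^ r * (amp R (sc r i) * |x r i| * |x r i|) := by rw [← e]; ring
    rw [e2]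
    rcases hs.lt_or_eq with h | h
    · have h1 : ¬ amp R (sc r i + 1) * |x r i| ≤ g r i :=
        Nat.findGreatest_is_greatest (Nat.lt_succ_self _) h
      rw [amp_succ, not_le] at h1
      have h2 : g r i * |x r i| ≤ 2 * (amp R (sc r i) * |x r i| * |x r i|) := by nlinarith
      have h3 := mul_le_mul_of_nonneg_left h2 (by positivity : (0 : ℝ) ≤ 2 ^ r)
      nlinarith [sq_nonneg (g r i)]
    · have h1 := sc_spec r i (by have := (mem_Icc.mp hr).1; omega)
      rw [h, amp_add] at h1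
      have h2 : 2 ^ r * (g r i * |x r i|) ≤ g r i ^ 2 := by nlinarith
      have h3 : 0 ≤ 2 ^ r * (amp R (sc r i) * |x r i| * |x r i|) := by positivity
      linarith
  linarith

end Pool.Agent.Lib.MP_5d7bff_an
end

-- part Pool.Agent.Lib.MP_5d7bff_an.Prob
section

/-!
Realising characteristic functions by random variables on the unit interval.
-/

namespace Pool.Agent.Lib.MP_5d7bff_an

open Finset MeasureTheory

section Rep

variable {E : Type*} [AddCommGroup E] [Module ℝ E]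

/-- Positive combinations of characters. -/
def Rep (φ : E → ℝ) : Prop :=
  ∃ (Ω : Type) (_ : Fintype Ω) (W : Ω → ℝ) (f : Ω → E →ₗ[ℝ] ℝ), (∀ ω, 0 ≤ W ω) ∧
    ∀ x, (φ x : ℂ) = ∑ ω, W ω * Complex.exp (f ω x * Complex.I)

theorem Rep.const {c : ℝ} (hc : 0 ≤ c) : Rep fun _ : E => c :=
  ⟨Unit, inferInstance, fun _ => c, fun _ => 0, fun _ => hc, fun x => by simp⟩

theorem Rep.cos (l : E →ₗ[ℝ] ℝ) : Rep fun x => Real.cos (l x) := by
  refine ⟨Bool, inferInstance, fun _ => 1 / 2, fun b => if b then l else -l,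
    fun _ => by norm_num, fun x => ?_⟩
  simp [Complex.cos]
  ring

theorem Rep.add {φ ψ : E → ℝ} (h : Rep φ) (h' : Rep ψ) : Rep fun x => φ x + ψ x := by
  obtain ⟨Ω, _, W, f, h0, h1⟩ := h
  obtain ⟨Ω', _, W', f', h0', h1'⟩ := h'
  refine ⟨Ω ⊕ Ω', inferInstance, Sum.elim W W', Sum.elim f f', ?_, fun x => ?_⟩
  · rintro (a | a)
    exacts [h0 a, h0' a]
  · simp [h1, h1']

theorem Rep.mul {φ ψ : E → ℝ} (h : Rep φ) (h' : Rep ψ) : Rep fun x => φ x * ψ x := by
  obtain ⟨Ω, _, W, f, h0, h1⟩ := h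
  obtain ⟨Ω', _, W', f', h0', h1'⟩ := h'
  refine ⟨Ω × Ω', inferInstance, fun a => W a.1 * W' a.2, fun a => f a.1 + f' a.2,
    fun a => mul_nonneg (h0 _) (h0' _), fun x => ?_⟩
  rw [Complex.ofReal_mul, h1, h1', sum_mul_sum, Fintype.sum_prod_type]
  refine sum_congr rfl fun a _ => sum_congr rfl fun b _ => ?_
  simp only [LinearMap.add_apply, Complex.ofReal_add, add_mul, Complex.exp_add,
    Complex.ofReal_mul]
  ring

theorem Rep.sum {α : Type*} (s : Finset α) {φ : α → E → ℝ} (h : ∀ a ∈ s, Rep (φ a)) :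
    Rep fun x => ∑ a ∈ s, φ a x := by
  have := sum_induction φ Rep (fun _ _ => Rep.add) (Rep.const le_rfl) h
  rwa [sum_fn] at this

theorem Rep.prod {α : Type*} (s : Finset α) {φ : α → E → ℝ} (h : ∀ a ∈ s, Rep (φ a)) :
    Rep fun x => ∏ a ∈ s, φ a x := by
  have := prod_induction φ Rep (fun _ _ => Rep.mul) (Rep.const zero_le_one) h
  rwa [prod_fn] at this

theorem Rep.pow {φ : E → ℝ} (h : Rep φ) (n : ℕ) : Rep fun x => φ x ^ n := by
  simpa using Rep.prod (range n) fun _ _ => h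

end Rep

/-- Evaluation. -/
def ev {G : Type*} (r : ℕ) (i : G → Bool) : Fn G →ₗ[ℝ] ℝ where
  toFun x := x r i
  map_add' _ _ := rfl
  map_smul' _ _ := rfl

theorem rep_chiB {G : Type*} [Fintype G] [DecidableEq G] (L R : ℕ) :
    Rep fun x : Fn G => chiB L R x := by
  unfold chiB chiS Ex
  refine Rep.prod _ fun σ _ => Rep.sum _ fun U _ =>
    (Rep.const (cw_nonneg (qq_pos R σ).le (qq_le_one R σ) U)).mul (Rep.prod _ fun r _ => ?_)
  by_cases h : σ ≤ r + R
  · refine Rep.pow ?_ _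
    have e : ∀ x : Fn G, 1 - Cond (qq R σ) (pp r) (fun i => eta (amp R σ * x r i)) U =
        ∑ i, kw (qq R σ) (pp r) U i * (1 / 2 + 1 / 2 * Real.cos (amp R σ * x r i)) := by
      intro x
      nth_rewrite 1 [← sum_kw (qq R σ) (pp r) U]
      rw [Cond, ← sum_sub_distrib]
      refine sum_congr rfl fun i _ => ?_
      unfold eta
      ring
    simp only [e]
    refine Rep.sum _ fun i _ => (Rep.const (kw_nonneg (qq_pos R σ) (pp_pos r).le (pp_le_qq h)
      U i)).mul ((Rep.const (by norm_num)).add ((Rep.const (by norm_num)).mul ?_))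
    exact Rep.cos (E := Fn G) (amp R σ • ev r i)
  · simpa [MM_of_lt h] using Rep.const (E := Fn G) zero_le_one

theorem chiB_zero {G : Type*} [Fintype G] [DecidableEq G] (L R : ℕ) :
    chiB L R (0 : Fn G) = 1 := by
  simp [chiB, chiS, eta, Cond_const, Ex_const]

/-- Lebesgue measure on the unit interval. -/
noncomputable abbrev mu : Measure ℝ := volume.restrict (Set.Icc (0 : ℝ) 1)

instance : IsProbabilityMeasure mu := ⟨by simp [mu]⟩

theorem exists_indep (Ω : ℕ → Type) [∀ k, Fintype (Ω k)] (W : ∀ k, Ω k → ℝ)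
    (h0 : ∀ k ω, 0 ≤ W k ω) (h1 : ∀ k, ∑ ω, W k ω = 1) :
    ∃ Z : ∀ k, ℝ → Ω k, (∀ k (φ : Ω k → ℝ), Measurable fun t => φ (Z k t)) ∧
      ∀ (s : Finset ℕ) (φ : ∀ k, Ω k → ℂ),
        ∫ t, ∏ k ∈ s, φ k (Z k t) ∂mu = ∏ k ∈ s, ∑ ω, W k ω * φ k ω := by
  let _ : ∀ k, MeasurableSpace (Ω k) := fun _ => ⊤
  have : ∀ k, DiscreteMeasurableSpace (Ω k) := fun _ => ⟨fun _ => trivial⟩
  have : ∀ k, Nonempty (Ω k) := fun k => by
    by_contra h
    have := h1 k
    rw [not_nonempty_iff] at h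
    simp at this
  let p : ∀ k, PMF (Ω k) := fun k => PMF.ofFintype (fun ω => ENNReal.ofReal (W k ω)) (by
    rw [← ENNReal.ofReal_sum_of_nonneg fun ω _ => h0 k ω, h1, ENNReal.ofReal_one])
  obtain ⟨F, hF, hmap⟩ := (Measure.infinitePi fun k => (p k).toMeasure).exists_measurable_map_eq
  have hc : Measurable (Set.projIcc (0 : ℝ) 1 zero_le_one) := continuous_projIcc.measurable
  refine ⟨fun k t => F (Set.projIcc 0 1 zero_le_one t) k, fun k φ => ?_, fun s φ => ?_⟩
  · exact (Measurable.of_discrete (f := φ)).comp ((measurable_pi_apply k).comp (hF.comp hc))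
  have hm : Measurable fun y : ∀ k, Ω k => ∏ k ∈ s, φ k (y k) :=
    s.measurable_fun_prod fun k _ => (Measurable.of_discrete (f := φ k)).comp
      (measurable_pi_apply k)
  have e1 : ∫ t, ∏ k ∈ s, φ k (F (Set.projIcc 0 1 zero_le_one t) k) ∂mu =
      ∫ y, ∏ k ∈ s, φ k (y k) ∂Measure.infinitePi fun k => (p k).toMeasure := by
    rw [← hmap, integral_map hF.aemeasurable hm.aestronglyMeasurable,
      ← unitInterval.measurePreserving_coe.integral_comp unitInterval.measurableEmbedding_coe]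
    simp
  rw [e1]
  have e2 := integral_restrict_infinitePi (fun k => (p k).toMeasure) (s := s)
    (f := fun y => ∏ k : s, φ k (y k)) (Measurable.of_discrete).aestronglyMeasurable
  rw [integral_fintype_prod_eq_prod (f := fun (k : s) y => φ k y)] at e2
  simp only [restrict_def] at e2
  simp_rw [prod_coe_sort s fun k => φ k _] at e2
  rw [prod_coe_sort s fun k => ∫ y, φ k y ∂(p k).toMeasure] at e2
  refine e2.trans (prod_congr rfl fun k _ => ?_)
  rw [PMF.integral_eq_sum]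
  refine sum_congr rfl fun ω _ => ?_
  simp [p, ENNReal.toReal_ofReal (h0 k ω)]

end Pool.Agent.Lib.MP_5d7bff_an
end

-- part Pool.Agent.Lib.MP_5d7bff_an.Ext
section

/-!
Extending an embedding into the space of functions with a half moment to the completion.
-/

namespace Pool.Agent.Lib.MP_5d7bff_an

open MeasureTheory Filter Topology UniformSpace

/-- The half moment. -/
noncomputable def DD (f : ℝ → ℝ) : ENNReal := ∫⁻ t, ENNReal.ofReal √|f t| ∂mu

theorem sqrt_add_le' (a b : ℝ) : √|a + b| ≤ √|a| + √|b| := by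
  rw [Real.sqrt_le_left (by positivity), add_sq, Real.sq_sqrt (abs_nonneg _),
    Real.sq_sqrt (abs_nonneg _)]
  have := abs_add_le a b
  have : 0 ≤ 2 * √|a| * √|b| := by positivity
  linarith

theorem aem_DD {f : ℝ → ℝ} (hf : AEMeasurable f mu) :
    AEMeasurable (fun t => ENNReal.ofReal √|f t|) mu := by fun_prop

theorem DD_add_le {f : ℝ → ℝ} (hf : AEMeasurable f mu) (g : ℝ → ℝ) :
    DD (f + g) ≤ DD f + DD g := by
  unfold DD
  rw [← lintegral_add_left' (aem_DD hf)]
  refine lintegral_mono fun t => ?_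
  rw [← ENNReal.ofReal_add (by positivity) (by positivity)]
  exact ENNReal.ofReal_le_ofReal (sqrt_add_le' _ _)

theorem DD_smul (c : ℝ) (f : ℝ → ℝ) : DD (c • f) = ENNReal.ofReal √|c| * DD f := by
  unfold DD
  rw [← lintegral_const_mul' _ _ ENNReal.ofReal_ne_top]
  refine lintegral_congr fun t => ?_
  rw [← ENNReal.ofReal_mul (by positivity), ← Real.sqrt_mul (abs_nonneg _), ← abs_mul]
  rfl

theorem DD_neg (f : ℝ → ℝ) : DD (-f) = DD f := by simp [DD]

theorem eLpNorm_half (f : ℝ → ℝ) : eLpNorm f (ENNReal.ofReal (1 / 2)) mu = DD f ^ 2 := by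
  rw [eLpNorm_eq_lintegral_rpow_enorm_toReal (by simp) (by simp),
    ENNReal.toReal_ofReal (by norm_num), one_div_one_div, ENNReal.rpow_ofNat]
  congr 1
  refine lintegral_congr fun t => ?_
  rw [Real.sqrt_eq_rpow, ← ENNReal.ofReal_rpow_of_nonneg (abs_nonneg _) (by norm_num),
    Real.enorm_eq_ofReal_abs]

variable {V : Type} [SeminormedAddCommGroup V] [NormedSpace ℝ V]

theorem exists_limit (T : V →ₗ[ℝ] ℝ → ℝ) {C : ℝ} (hC : 0 ≤ C) (hm : ∀ v, Measurable (T v))
    (hT : ∀ v, DD (T v) ≤ ENNReal.ofReal (C * √‖v‖)) (ξ : Completion V) :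
    ∃ F : ℝ → ℝ, AEMeasurable F mu ∧ ∃ v : ℕ → V,
      Tendsto (fun n => (v n : Completion V)) atTop (𝓝 ξ) ∧
      Tendsto (fun n => DD (F - T (v n))) atTop (𝓝 0) := by
  choose v hv using fun n : ℕ => (Completion.denseRange_coe (α := V)).exists_dist_lt ξ
    (show (0 : ℝ) < (1 / 4) ^ n by positivity)
  have hb : ∀ n m, n ≤ m → DD (T (v m) - T (v n)) ≤ ENNReal.ofReal (2 * C * (1 / 2) ^ n) := by
    intro n m h
    rw [← map_sub]
    refine (hT _).trans (ENNReal.ofReal_le_ofReal ?_)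
    have h1 : ‖v m - v n‖ ≤ (2 * (1 / 2) ^ n) ^ 2 := by
      rw [← dist_eq_norm, ← Completion.dist_eq]
      have h2 := dist_triangle_left (v m : Completion V) (v n) ξ
      have h3 : (1 / 4 : ℝ) ^ m ≤ (1 / 4) ^ n :=
        pow_le_pow_of_le_one (by norm_num) (by norm_num) h
      have h4 : (2 * (1 / 2 : ℝ) ^ n) ^ 2 = 4 * (1 / 4) ^ n := by
        rw [mul_pow, ← pow_mul, mul_comm n, pow_mul]
        norm_num
      have h5 : (0 : ℝ) < (1 / 4) ^ n := by positivity
      linarith [hv n, hv m]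
    have := mul_le_mul_of_nonneg_left ((Real.sqrt_le_left (by positivity)).mpr h1) hC
    linarith
  have hs : Summable fun n : ℕ => 2 * C * (1 / 2 : ℝ) ^ n := summable_geometric_two.mul_left _
  have hmd : ∀ n m, AEMeasurable (fun t => ENNReal.ofReal √|(T (v m) - T (v n)) t|) mu :=
    fun n m => aem_DD ((hm _).sub (hm _)).aemeasurable
  have h1 : ∫⁻ t, ∑' n, ENNReal.ofReal √|(T (v (n + 1)) - T (v n)) t| ∂mu ≠ ⊤ := by
    rw [lintegral_tsum fun n => hmd _ _]
    exact ne_top_of_le_ne_top hs.tsum_ofReal_ne_top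
      (ENNReal.tsum_le_tsum fun n => hb n _ (Nat.le_succ n))
  have h2 : ∀ᵐ t ∂mu, ∃ l, Tendsto (fun n => T (v n) t) atTop (𝓝 l) := by
    filter_upwards [ae_lt_top' (AEMeasurable.tsum fun n => hmd _ _) h1] with t ht
    have h3 := ENNReal.summable_toReal ht.ne
    simp only [ENNReal.toReal_ofReal (Real.sqrt_nonneg _)] at h3
    refine cauchySeq_tendsto_of_complete (cauchySeq_of_summable_dist ?_)
    refine Summable.of_nonneg_of_le (fun _ => dist_nonneg) (fun n => ?_)
      (h3.mul_left (∑' n, √|(T (v (n + 1)) - T (v n)) t|))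
    rw [dist_comm, Real.dist_eq, ← Real.mul_self_sqrt (abs_nonneg _)]
    exact mul_le_mul_of_nonneg_right (h3.le_tsum n fun _ _ => Real.sqrt_nonneg _)
      (Real.sqrt_nonneg _)
  obtain ⟨F, hF, hl⟩ := measurable_limit_of_tendsto_metrizable_ae
    (fun n => (hm (v n)).aemeasurable) h2
  refine ⟨F, hF.aemeasurable, v, ?_, ?_⟩
  · rw [tendsto_iff_dist_tendsto_zero]
    refine squeeze_zero (fun _ => dist_nonneg) (fun n => ?_)
      (tendsto_pow_atTop_nhds_zero_of_lt_one (r := 1 / 4) (by norm_num) (by norm_num))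
    rw [dist_comm]
    exact (hv n).le
  · have h3 : ∀ n, DD (F - T (v n)) ≤ ENNReal.ofReal (2 * C * (1 / 2) ^ n) := by
      intro n
      refine le_trans (le_of_eq (lintegral_congr_ae ?_)) ((lintegral_liminf_le' (hmd n)).trans
        (liminf_le_of_frequently_le' ((eventually_ge_atTop n).mono (hb n)).frequently))
      filter_upwards [hl] with t ht
      refine (Tendsto.liminf_eq ?_).symm
      exact ENNReal.tendsto_ofReal (ht.sub_const _).abs.sqrt
    refine tendsto_of_tendsto_of_tendsto_of_le_of_le tendsto_const_nhds ?_ (fun _ => zero_le) h3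
    simpa using ENNReal.tendsto_ofReal hs.tendsto_atTop_zero

theorem extension (T : V →ₗ[ℝ] ℝ → ℝ) {c C : ℝ} (hC : 0 ≤ C) (hm : ∀ v, Measurable (T v))
    (hT : ∀ v, ENNReal.ofReal (c * √‖v‖) ≤ DD (T v) ∧ DD (T v) ≤ ENNReal.ofReal (C * √‖v‖)) :
    ∃ S : Completion V →ₗ[ℝ] ℝ → ℝ, ∀ ξ, AEMeasurable (S ξ) mu ∧
      ENNReal.ofReal (c * √‖ξ‖) ≤ DD (S ξ) ∧ DD (S ξ) ≤ ENNReal.ofReal (C * √‖ξ‖) := by
  let R : Submodule ℝ (Completion V × (ℝ → ℝ)) :=
    { carrier := {z | AEMeasurable z.2 mu ∧ ∃ v : ℕ → V,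
        Tendsto (fun n => (v n : Completion V)) atTop (𝓝 z.1) ∧
        Tendsto (fun n => DD (z.2 - T (v n))) atTop (𝓝 0)}
      add_mem' := by
        rintro ⟨ξ, F⟩ ⟨ξ', F'⟩ ⟨h1, v, h2, h3⟩ ⟨h1', v', h2', h3'⟩
        refine ⟨h1.add h1', v + v', by simpa [Completion.coe_add] using h2.add h2', ?_⟩
        refine tendsto_of_tendsto_of_tendsto_of_le_of_le tendsto_const_nhds
          (by simpa using h3.add h3') (fun _ => zero_le) fun n => ?_
        refine le_trans (le_of_eq ?_) (DD_add_le (h1.sub (hm (v n)).aemeasurable) _)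
        congr 1
        simp only [Prod.snd_add, Pi.add_apply, map_add]
        abel
      zero_mem' := ⟨aemeasurable_const, 0, by simp [Completion.coe_zero], by simp [DD]⟩
      smul_mem' := by
        rintro a ⟨ξ, F⟩ ⟨h1, v, h2, h3⟩
        refine ⟨h1.const_smul a, a • v, by simpa [Completion.coe_smul] using h2.const_smul a, ?_⟩
        have := ENNReal.Tendsto.const_mul (a := ENNReal.ofReal √|a|) h3
          (Or.inr ENNReal.ofReal_ne_top)
        simpa [← DD_smul, smul_sub] using this }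
  obtain ⟨s, hs⟩ := LinearMap.exists_rightInverse_of_surjective
    (LinearMap.fst ℝ _ _ ∘ₗ R.subtype) (LinearMap.range_eq_top.mpr fun ξ => by
      obtain ⟨F, hF⟩ := exists_limit T hC hm (fun v => (hT v).2) ξ
      exact ⟨⟨(ξ, F), hF⟩, rfl⟩)
  refine ⟨LinearMap.snd ℝ _ _ ∘ₗ R.subtype ∘ₗ s, fun ξ => ?_⟩
  obtain ⟨h1, v, h2, h3⟩ := (s ξ).2
  have e : (s ξ).1.1 = ξ := LinearMap.congr_fun hs ξ
  rw [e] at h2
  change AEMeasurable (s ξ).1.2 mu ∧ _ ≤ DD (s ξ).1.2 ∧ DD (s ξ).1.2 ≤ _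
  set F := (s ξ).1.2
  have h4 : ∀ a : ℝ, Tendsto (fun n => ENNReal.ofReal (a * √‖v n‖)) atTop
      (𝓝 (ENNReal.ofReal (a * √‖ξ‖))) := fun a => by
    simpa using ENNReal.tendsto_ofReal (h2.norm.sqrt.const_mul a)
  refine ⟨h1, ?_, ?_⟩
  · refine le_of_tendsto_of_tendsto' (h4 c) (by simpa using h3.const_add (DD F)) fun n => ?_
    have := DD_add_le h1 (-(F - T (v n)))
    rw [DD_neg, neg_sub, add_sub_cancel] at this
    exact (hT _).1.trans this
  · refine ge_of_tendsto' (by simpa using h3.add (h4 C)) fun n => ?_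
    have := DD_add_le (h1.sub (hm (v n)).aemeasurable) (T (v n))
    change DD (F - T (v n) + T (v n)) ≤ DD (F - T (v n)) + _ at this
    rw [sub_add_cancel] at this
    exact this.trans (add_le_add le_rfl (hT _).2)

end Pool.Agent.Lib.MP_5d7bff_an
end
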