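import Pool.Agent.Lib.MP_5d7bff_an.Space

/-!
Two-sided bounds for the embedding and the conclusion.
-/

namespace Pool.Agent.Lib.MP_5d7bff_an

open Finset MeasureTheory Filter Topology UniformSpace

theorem sqrt_le_cos_sum (J : ℕ) (y : ℝ) (h : |y| ≤ 4 ^ J) :
    √|y| ≤ 1 + 40 * ∑ j ∈ range J, 2 ^ (j + 1) * (1 - Real.cos ((1 / 4) ^ (j + 1) * y)) := by
  have h0 : ∀ j, 0 ≤ 2 ^ (j + 1) * (1 - Real.cos ((1 / 4) ^ (j + 1) * y)) := fun j =>
    mul_nonneg (by positivity) (sub_nonneg.mpr (Real.cos_le_one _))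
  induction J with
  | zero => simpa using h
  | succ J ih =>
    rw [sum_range_succ]
    rcases le_total |y| (4 ^ J) with h1 | h1
    · linarith [ih h1, h0 J]
    · have e : |(1 / 4 : ℝ) ^ (J + 1) * y| = |y| / 4 ^ (J + 1) := by
        rw [abs_mul, abs_of_pos (by positivity), one_div, inv_pow, inv_mul_eq_div]
      have h2 := sq_le_eta (y := (1 / 4) ^ (J + 1) * y) (by
        rwa [e, div_le_one (by positivity)])
      have h3 : 1 / 4 ≤ |y| / 4 ^ (J + 1) := by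
        rw [le_div_iff₀ (by positivity), pow_succ]
        linarith
      rw [← sq_abs, e, eta] at h2
      have h4 : 1 ≤ 40 * (1 - Real.cos ((1 / 4) ^ (J + 1) * y)) := by nlinarith
      have h5 : √|y| ≤ 2 ^ (J + 1) := by
        rw [Real.sqrt_le_left (by positivity), ← pow_mul, mul_comm, pow_mul]
        exact h.trans_eq (by norm_num)
      have h6 := mul_le_mul_of_nonneg_left h4 (by positivity : (0 : ℝ) ≤ 2 ^ (J + 1))
      have h7 := sum_nonneg fun j (_ : j ∈ range J) => h0 j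
      linarith

theorem one_sub_cos_le (y : ℝ) : 1 - Real.cos y ≤ 2 * √|y| := by
  rcases le_total 1 √|y| with h | h
  · linarith [Real.neg_one_le_cos y]
  · have h1 := Real.one_sub_sq_div_two_le_cos (x := y)
    have h2 := Real.sqrt_nonneg |y|
    have h3 := pow_le_pow_of_le_one h2 h (show 1 ≤ 2 * 2 by norm_num)
    rw [pow_one, pow_mul, Real.sq_sqrt (abs_nonneg _), sq_abs] at h3
    linarith

theorem exists_embedding : ∃ (T : VV →ₗ[ℝ] ℝ → ℝ) (c : ℝ), 0 < c ∧ (∀ x, Measurable (T x)) ∧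
    ∀ x, ENNReal.ofReal (c * √(NN x)) ≤ DD (T x) ∧ DD (T x) ≤ ENNReal.ofReal (220 * √(NN x)) := by
  obtain ⟨T, hm, hb, hc⟩ := exists_T
  have hi1 : ∀ x, Integrable (fun t => Real.cos (T x t)) mu := fun x =>
    Integrable.of_bound (by have := hm x; fun_prop) 1 (ae_of_all _ fun t => Real.abs_cos_le_one _)
  have hi2 : ∀ x, Integrable (fun t => √|T x t|) mu := fun x => by
    obtain ⟨B, hB⟩ := hb x
    refine Integrable.of_bound (by have := hm x; fun_prop) √B (ae_of_all _ fun t => ?_)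
    rw [Real.norm_of_nonneg (Real.sqrt_nonneg _)]
    exact Real.sqrt_le_sqrt (hB t)
  have hD : ∀ x, DD (T x) = ENNReal.ofReal (∫ t, √|T x t| ∂mu) := fun x =>
    (ofReal_integral_eq_lintegral_ofReal (hi2 x) (ae_of_all _ fun t => Real.sqrt_nonneg _)).symm
  have hi3 : ∀ x, Integrable (fun t => 1 - Real.cos (T x t)) mu := fun x =>
    (integrable_const _).sub (hi1 x)
  have hI : ∀ x, ∫ t, 1 - Real.cos (T x t) ∂mu = 1 - ∫ t, Real.cos (T x t) ∂mu := fun x => by
    rw [integral_sub (integrable_const _) (hi1 x)]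
    simp
  have hup : ∀ x, NN x ≤ 1 / 400 → DD (T x) ≤ ENNReal.ofReal 11 := by
    intro x hx
    obtain ⟨B, hB⟩ := hb x
    obtain ⟨J, hJ⟩ := pow_unbounded_of_one_lt B (show (1 : ℝ) < 4 by norm_num)
    have hi4 : ∀ j ∈ range J, Integrable
        (fun t => 2 ^ (j + 1) * (1 - Real.cos (T (((1 / 4 : ℝ) ^ (j + 1)) • x) t))) mu :=
      fun j _ => (hi3 _).const_mul _
    have h1 := integral_mono (hi2 x) ((integrable_const 1).add
      ((integrable_finsetSum _ hi4).const_mul 40)) fun t => by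
        simpa only [map_smul, Pi.smul_apply, smul_eq_mul, Pi.add_apply] using
          sqrt_le_cos_sum J _ ((hB t).trans hJ.le)
    rw [integral_add' (integrable_const 1) ((integrable_finsetSum _ hi4).const_mul 40),
      integral_const_mul, integral_finsetSum _ hi4] at h1
    have h2 : ∀ j ∈ range J, ∫ t, 2 ^ (j + 1) *
        (1 - Real.cos (T (((1 / 4 : ℝ) ^ (j + 1)) • x) t)) ∂mu ≤ 1 / 8 * (1 / 2) ^ j := by
      intro j _
      obtain ⟨s, hs⟩ := exists_supp (((1 / 4 : ℝ) ^ (j + 1)) • x)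
      have e : NN (((1 / 4 : ℝ) ^ (j + 1)) • x) = (1 / 4) ^ (j + 1) * NN x := by
        rw [map_smul_eq_mul, Real.norm_of_nonneg (by positivity)]
      have h3 := psi_le_NN (((1 / 4 : ℝ) ^ (j + 1)) • x) s (by
        rw [e]
        exact (mul_le_of_le_one_left (apply_nonneg _ _)
          (pow_le_one₀ (by norm_num) (by norm_num))).trans hx)
      have h4 := ((one_sub_prod_le s _ (fun k _ => chiB_nonneg _ _ _)
        fun k _ => chiB_le_one _ _ _).trans (sum_le_sum fun k _ => one_sub_chiB_le _ _ _)).trans h3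
      rw [integral_const_mul, hI, hc _ s hs]
      refine (mul_le_mul_of_nonneg_left h4 (by positivity)).trans ?_
      have e2 : (2 : ℝ) ^ (j + 1) * (1 / 4) ^ (j + 1) = (1 / 2) ^ j / 2 := by
        rw [← mul_pow, pow_succ]
        norm_num [div_eq_mul_inv]
      rw [e, mul_left_comm, ← mul_assoc (2 ^ _), e2]
      have : (0 : ℝ) < (1 / 2) ^ j := by positivity
      nlinarith
    have h3 := sum_le_sum h2
    rw [← mul_sum] at h3
    rw [hD]
    refine ENNReal.ofReal_le_ofReal (h1.trans ?_)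
    simp only [integral_const, probReal_univ, smul_eq_mul, mul_one]
    linarith [sum_geometric_two_le J]
  have hlow : ∀ x, NN x = 1 → ENNReal.ofReal ((1 - Real.exp (-(1 / 10 ^ 7))) / 2) ≤ DD (T x) := by
    intro x hx
    obtain ⟨s, hs, h1⟩ := chiB_prod_le x hx
    have h2 := integral_mono (hi3 x) ((hi2 x).const_mul 2) fun t => one_sub_cos_le _
    rw [hI, hc x s hs, integral_const_mul] at h2
    rw [hD]
    exact ENNReal.ofReal_le_ofReal (by linarith)
  have hsc : ∀ (x : VV) (d : ℝ), 0 < d → DD (T x) = ENNReal.ofReal √d * DD (T (d⁻¹ • x)) ∧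
      NN (d⁻¹ • x) = NN x / d := fun x d hd => by
    rw [← abs_of_pos hd, ← DD_smul, abs_of_pos hd, ← map_smul, smul_inv_smul₀ hd.ne',
      map_smul_eq_mul, Real.norm_of_nonneg (by positivity), inv_mul_eq_div]
    exact ⟨rfl, rfl⟩
  refine ⟨T, (1 - Real.exp (-(1 / 10 ^ 7))) / 2, half_pos (sub_pos.mpr
    (Real.exp_lt_one_iff.mpr (by norm_num))), hm, fun x => ⟨?_, ?_⟩⟩
  · rcases (apply_nonneg NN x).eq_or_lt with h | h
    · simp [← h]
    · rw [(hsc x _ h).1, mul_comm, ENNReal.ofReal_mul (Real.sqrt_nonneg _)]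
      exact mul_le_mul_right (hlow _ (by rw [(hsc x _ h).2, div_self h.ne'])) _
  · have h1 : Tendsto (fun d : ℝ => ENNReal.ofReal (220 * √d)) (𝓝[>] (NN x))
        (𝓝 (ENNReal.ofReal (220 * √(NN x)))) :=
      ENNReal.tendsto_ofReal ((Continuous.tendsto (by fun_prop) _).mono_left nhdsWithin_le_nhds)
    refine ge_of_tendsto h1 (eventually_nhdsWithin_of_forall fun d hd => ?_)
    have h2 : NN x < d := hd
    have h3 : 0 < 400 * d := by linarith [apply_nonneg NN x]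
    rw [(hsc x _ h3).1]
    refine (mul_le_mul_right (hup _ (by
      rw [(hsc x _ h3).2, div_le_iff₀ h3]
      linarith)) _).trans (le_of_eq ?_)
    rw [← ENNReal.ofReal_mul (Real.sqrt_nonneg _), Real.sqrt_mul (by norm_num),
      show (400 : ℝ) = 20 ^ 2 by norm_num, Real.sqrt_sq (by norm_num)]
    congr 1
    ring

theorem not_embed (S : VV →ₗ[ℝ] ℝ → ℝ) {c C : ℝ} (hc : 0 < c) (hC : 0 < C)
    (h : ∀ x, Integrable (S x) mu ∧ c * NN x ≤ ∫ t, |S x t| ∂mu ∧
      ∫ t, |S x t| ∂mu ≤ C * NN x) : False := by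
  obtain ⟨k, hk⟩ := exists_nat_gt (768 * C / c)
  have k0 : (0 : ℝ) < k := lt_trans (by positivity) hk
  have := no_embed (G := GG k) (LL k) ((Icc 1 (k ^ 2)).image (3 * ·)) ?_ ?_ ?_ (by simp) k0 ?_
    (S ∘ₗ DFinsupp.lsingle (M := fun k => Fn (GG k)) k) (fun x => (h _).1) hc.le (C := C) (fun x g h1 h2 => ?_)
    fun x hx => ?_
  · rw [div_lt_iff₀ hc] at hk
    linarith
  · intro r hr
    obtain ⟨j, hj, rfl⟩ := mem_image.mp hr
    rw [mem_Icc, LL] at *
    omega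
  · intro r hr r' hr' hlt
    obtain ⟨j, -, rfl⟩ := mem_image.mp hr
    obtain ⟨j', -, rfl⟩ := mem_image.mp hr'
    omega
  · intro r hr
    obtain ⟨j, hj, rfl⟩ := mem_image.mp hr
    have h1 : pp (LL k) ≤ pp (3 * j) := pow_le_pow_of_le_one (by norm_num) (by norm_num)
      (Nat.mul_le_mul_left 3 (mem_Icc.mp hj).2)
    have h2 := mul_le_mul_of_nonneg_left h1 (by positivity : (0 : ℝ) ≤ 2 ^ LL k)
    rw [two_pow_mul_pp] at h2
    simp only [Fintype.card_fin, Nat.cast_mul, Nat.cast_ofNat, Nat.cast_pow]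
    linarith
  · rw [card_image_of_injective _ fun a b h => by simpa using h]
    simp
  · refine le_trans (mul_le_mul_of_nonneg_left ?_ hc.le) (h _).2.1
    simpa using pair_le_NN (DFinsupp.single k x) k h1 h2
  · refine (h _).2.2.trans (mul_le_mul_of_nonneg_left (ciSup_le fun a => ?_) hC.le)
    simpa using PP_le a (DFinsupp.single k x) (s := {k}) (B := fun _ => k)
      (fun j hj => DFinsupp.single_eq_of_ne (by simpa using hj)) (fun _ => k0.le)
      (by simpa using hx)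

theorem transfer (V : Type) [SeminormedAddCommGroup V] [NormedSpace ℝ V] (T : V →ₗ[ℝ] ℝ → ℝ)
    {c C : ℝ} (hc : 0 < c) (hC : 0 < C) (hm : ∀ v, Measurable (T v))
    (hT : ∀ v, ENNReal.ofReal (c * √‖v‖) ≤ DD (T v) ∧ DD (T v) ≤ ENNReal.ofReal (C * √‖v‖))
    (H : (∃ (T : Completion V →ₗ[ℝ] (ℝ → ℝ)) (c C : ℝ), 0 < c ∧ 0 < C ∧ ∀ x,
        AEStronglyMeasurable (T x) mu ∧
        ENNReal.ofReal (c * ‖x‖) ≤ eLpNorm (T x) (ENNReal.ofReal (1 / 2)) mu ∧
        eLpNorm (T x) (ENNReal.ofReal (1 / 2)) mu ≤ ENNReal.ofReal (C * ‖x‖)) →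
      ∃ (S : Completion V →ₗ[ℝ] (ℝ → ℝ)) (c C : ℝ), 0 < c ∧ 0 < C ∧ ∀ x,
        AEStronglyMeasurable (S x) mu ∧ ENNReal.ofReal (c * ‖x‖) ≤ eLpNorm (S x) 1 mu ∧
        eLpNorm (S x) 1 mu ≤ ENNReal.ofReal (C * ‖x‖)) :
    ∃ (S : V →ₗ[ℝ] ℝ → ℝ) (c C : ℝ), 0 < c ∧ 0 < C ∧ ∀ x, Integrable (S x) mu ∧
      c * ‖x‖ ≤ ∫ t, |S x t| ∂mu ∧ ∫ t, |S x t| ∂mu ≤ C * ‖x‖ := by
  obtain ⟨T', hT'⟩ := extension T hC.le hm hT
  have e : ∀ (a : ℝ) (ξ : Completion V), 0 < a →
      ENNReal.ofReal (a ^ 2 * ‖ξ‖) = ENNReal.ofReal (a * √‖ξ‖) ^ 2 := fun a ξ ha => by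
    rw [← ENNReal.ofReal_pow (by positivity), mul_pow, Real.sq_sqrt (norm_nonneg _)]
  obtain ⟨S, c', C', hc', hC', hS⟩ := H ⟨T', c ^ 2, C ^ 2, by positivity, by positivity,
    fun ξ => by
      rw [eLpNorm_half, e _ _ hc, e _ _ hC]
      exact ⟨(hT' ξ).1.aestronglyMeasurable, pow_le_pow_left' (hT' ξ).2.1 2,
        pow_le_pow_left' (hT' ξ).2.2 2⟩⟩
  refine ⟨S ∘ₗ (Completion.toComplₗᵢ (𝕜 := ℝ)).toLinearMap, c', C', hc', hC', fun x => ?_⟩
  obtain ⟨h1, h2, h3⟩ := hS x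
  have h4 : Integrable (S x) mu :=
    memLp_one_iff_integrable.mp ⟨h1, h3.trans_lt ENNReal.ofReal_lt_top⟩
  rw [eLpNorm_one_eq_lintegral_enorm, ← ofReal_integral_norm_eq_lintegral_enorm h4,
    Completion.norm_coe] at h2 h3
  exact ⟨h4, (ENNReal.ofReal_le_ofReal_iff (by positivity)).mp h2,
    (ENNReal.ofReal_le_ofReal_iff (by positivity)).mp h3⟩

end Pool.Agent.Lib.MP_5d7bff_an
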