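import Pool.Agent.Lib.MP_5d7bff_an.Main

/-!
The space does not embed into the integrable functions of any measure space.
-/

namespace Pool.Agent.Lib.MP_5d7bff_an

open Finset MeasureTheory Filter Topology UniformSpace

theorem no_embed_gen {Ω : Type*} [MeasurableSpace Ω] (ν : Measure Ω)
    {G : Type*} [Fintype G] [DecidableEq G] (L : ℕ) (Λ : Finset ℕ) (hΛ : Λ ⊆ Icc 1 L)
    (hsp : ∀ r ∈ Λ, ∀ r' ∈ Λ, r < r' → r + 3 ≤ r') (hn : ∀ r ∈ Λ, 8 ≤ Fintype.card G * pp r)
    (hG : 0 < Fintype.card G) {D : ℝ} (hD : 0 < D) (hDΛ : (Λ.card : ℝ) = D ^ 2)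
    (S : Fn G →ₗ[ℝ] Ω → ℝ) (hint : ∀ x, Integrable (S x) ν) {c C : ℝ} (hc : 0 ≤ c)
    (hlow : ∀ x g, InD L g → en L g ≤ 1 → c * pair L g x ≤ ∫ t, |S x t| ∂ν)
    (hup : ∀ x, (∀ g, InD L g → pair L g x ≤ D) → ∫ t, |S x t| ∂ν ≤ C * D) :
    c * D ≤ 768 * C := by
  let A : Fn G → Ω → ℝ := fun κ t => Ex (1 / 2) fun U => |S (sg Λ κ U) t|
  have hAi : ∀ κ, Integrable (A κ) ν := fun κ =>
    integrable_finsetSum _ fun U _ => (hint _).abs.const_mul _
  have hAI : ∀ κ, ∫ t, A κ t ∂ν = Ex (1 / 2) fun U => ∫ t, |S (sg Λ κ U) t| ∂ν := fun κ => by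
    simp only [A, Ex]
    rw [integral_finsetSum _ fun U _ => (hint _).abs.const_mul _]
    simp only [integral_const_mul]
  have hA : ∀ κ t, 2 * A κ t ≤ √(∑ r ∈ Λ, ∑ i, (κ r i * S (bas r i) t) ^ 2) ∧
      √(∑ r ∈ Λ, ∑ i, (κ r i * S (bas r i) t) ^ 2) ≤ 48 * A κ t := by
    intro κ t
    have e : ∀ U, S (sg Λ κ U) t =
        lin (1 / 2) (fun j : Λ × (G → Bool) => κ j.1 j.2 * S (bas j.1 j.2) t) U := by
      intro U
      simp only [sg, map_sum, map_smul, Finset.sum_apply, Pi.smul_apply, smul_eq_mul, lin]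
      exact sum_congr rfl fun j _ => by ring
    simp only [A, e]
    rw [← sum_coe_sort Λ, ← Fintype.sum_prod_type']
    exact ⟨khin_up _, khin_low _⟩
  let κ1 : ℕ → Fn G := fun r r' i => if r' = r then typ r' i else 0
  let κ2 : G → Fn G := fun a r i => bv (i a) * typ r i
  have hpt : ∀ t, Fintype.card G * ∑ r ∈ Λ, pp r * A (κ1 r) t ≤ 192 * ∑ a, A (κ2 a) t := by
    intro t
    have h1 := typ_point Λ hsp fun r i => S (bas r i) t
    have h2 : ∑ r ∈ Λ, pp r * (2 * A (κ1 r) t) ≤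
        ∑ r ∈ Λ, pp r * √(∑ i, (typ r i * S (bas r i) t) ^ 2) := sum_le_sum fun r hr => by
      refine mul_le_mul_of_nonneg_left ((hA _ t).1.trans (le_of_eq ?_)) (pp_pos r).le
      rw [sum_eq_single_of_mem r hr] <;> simp +contextual [κ1]
    have h3 := sum_le_sum fun a (_ : a ∈ univ) => (hA (κ2 a) t).2
    have h4 := mul_le_mul_of_nonneg_left h2 (Nat.cast_nonneg (Fintype.card G))
    simp only [mul_left_comm _ (2 : ℝ), ← mul_sum] at h3 h4
    linarith
  have h1 := integral_mono ((integrable_finsetSum _ fun r _ => (hAi _).const_mul _).const_mul _)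
    ((integrable_finsetSum _ fun a _ => hAi _).const_mul _) hpt
  rw [integral_const_mul, integral_const_mul, integral_finsetSum _ fun r _ => (hAi _).const_mul _,
    integral_finsetSum _ fun a _ => hAi _] at h1
  simp only [integral_const_mul, hAI] at h1
  have h2 : ∀ r ∈ Λ, c / 4 ≤ pp r * Ex (1 / 2) fun U => ∫ t, |S (sg Λ (κ1 r) U) t| ∂ν := by
    intro r hr
    have : ∀ U, c / 4 * 2 ^ r ≤ ∫ t, |S (sg Λ (κ1 r) U) t| ∂ν := by
      intro U
      refine le_trans ?_ (hlow _ _ (lev_InD L r) (lev_en L r))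
      rw [lev_pair (hΛ hr)]
      simp only [abs_sg, if_pos hr, κ1, if_true, (typ_abs _ _).1, div_eq_inv_mul, Ex_const_mul]
      have := mul_le_mul_of_nonneg_left (typ_prob (hn r hr)) (by positivity : 0 ≤ c * 2 ^ r)
      linarith
    have h3 := mul_le_mul_of_nonneg_left
      (Ex_mono (p := 1 / 2) (by norm_num) (by norm_num) this) (pp_pos r).le
    rwa [Ex_const, mul_left_comm, mul_comm (pp r), two_pow_mul_pp, mul_one] at h3
  have h3 : ∀ a, (Ex (1 / 2) fun U => ∫ t, |S (sg Λ (κ2 a) U) t| ∂ν) ≤ C * D := by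
    intro a
    refine (Ex_mono (by norm_num) (by norm_num) fun U => hup _ fun g hg => ?_).trans_eq
      (Ex_const _ _)
    have h4 : ∀ r, 2 ^ r * (Ex (pp r) fun i => g r i * |sg Λ (κ2 a) U r i|) ≤
        (if r ∈ Λ then 1 / (2 * D) else 0) + D / 2 * CE r a fun i => g r i ^ 2 := by
      intro r
      rw [← CE_const r a (if r ∈ Λ then 1 / (2 * D) else 0), ← CE_const_mul, CE, CE, ← mul_add,
        ← Ex_add]
      refine mul_le_mul_of_nonneg_left (Ex_mono (pp_pos r).le (pp_le_one r) fun i => ?_)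
        (by positivity)
      rw [abs_sg]
      have g0 := hg.1 r i
      split_ifs
      · simp only [κ2, abs_mul, (typ_abs _ _).1]
        cases i a
        · simp
        · have h5 : g r i ≤ 1 / (2 * D) + D / 2 * g r i ^ 2 := by
            rw [← sub_nonneg]
            have : 1 / (2 * D) + D / 2 * g r i ^ 2 - g r i = (D * g r i - 1) ^ 2 / (2 * D) := by
              field_simp
              ring
            rw [this]
            positivity
          have := mul_le_mul_of_nonneg_left (typ_abs r i).2 g0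
          simp only [bv_true, abs_one, one_mul]
          linarith
      · have := bv_nonneg (i a)
        rw [mul_zero]
        positivity
    refine (sum_le_sum fun r _ => h4 r).trans ?_
    rw [sum_add_distrib, ← mul_sum, sum_ite_mem, inter_eq_right.mpr hΛ, sum_const, nsmul_eq_mul,
      hDΛ]
    have h5 := mul_le_mul_of_nonneg_left (hg.2.2 a) (by positivity : 0 ≤ D / 2)
    have h6 : D ^ 2 * (1 / (2 * D)) = D / 2 := by field_simp
    rw [h6]
    change D / 2 * ∑ r ∈ Icc 1 L, CE r a (fun i => g r i ^ 2) ≤ _ at h5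
    linarith
  have h4 := mul_le_mul_of_nonneg_left (sum_le_sum h2) (Nat.cast_nonneg (Fintype.card G))
  have h5 := sum_le_sum fun a (_ : a ∈ univ) => h3 a
  rw [sum_const, nsmul_eq_mul] at h4 h5
  rw [hDΛ] at h4
  rw [card_univ] at h5
  have h6 : (0 : ℝ) < Fintype.card G := by exact_mod_cast hG
  refine le_of_mul_le_mul_left ?_ (mul_pos h6 hD)
  nlinarith

theorem not_embed_gen {Ω : Type*} [MeasurableSpace Ω] (ν : Measure Ω)
    (S : VV →ₗ[ℝ] Ω → ℝ) {c C : ℝ} (hc : 0 < c) (hC : 0 < C)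
    (h : ∀ x, Integrable (S x) ν ∧ c * NN x ≤ ∫ t, |S x t| ∂ν ∧
      ∫ t, |S x t| ∂ν ≤ C * NN x) : False := by
  obtain ⟨k, hk⟩ := exists_nat_gt (768 * C / c)
  have k0 : (0 : ℝ) < k := lt_trans (by positivity) hk
  have := no_embed_gen ν (G := GG k) (LL k) ((Icc 1 (k ^ 2)).image (3 * ·)) ?_ ?_ ?_ (by simp) k0 ?_
    (S ∘ₗ DFinsupp.lsingle (M := fun k => Fn (GG k)) k) (fun x => (h _).1) hc.le (C := C) (fun x g h1 h2 => ?_)
    fun x hx => ?_
  · rw [div_lt_iff₀ hc] at hk
    linarith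
  · intro r hr
    obtain ⟨j, hj, rfl⟩ := mem_image.mp hr
    rw [mem_Icc, LL] at *
    omega
  · intro r hr r' hr' hlt
    obtain ⟨j, -, rfl⟩ := mem_image.mp hr
    obtain ⟨j', -, rfl⟩ := mem_image.mp hr'
    omega
  · intro r hr
    obtain ⟨j, hj, rfl⟩ := mem_image.mp hr
    have h1 : pp (LL k) ≤ pp (3 * j) := pow_le_pow_of_le_one (by norm_num) (by norm_num)
      (Nat.mul_le_mul_left 3 (mem_Icc.mp hj).2)
    have h2 := mul_le_mul_of_nonneg_left h1 (by positivity : (0 : ℝ) ≤ 2 ^ LL k)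
    rw [two_pow_mul_pp] at h2
    simp only [Fintype.card_fin, Nat.cast_mul, Nat.cast_ofNat, Nat.cast_pow]
    linarith
  · rw [card_image_of_injective _ fun a b h => by simpa using h]
    simp
  · refine le_trans (mul_le_mul_of_nonneg_left ?_ hc.le) (h _).2.1
    simpa using pair_le_NN (DFinsupp.single k x) k h1 h2
  · refine (h _).2.2.trans (mul_le_mul_of_nonneg_left (ciSup_le fun a => ?_) hC.le)
    simpa using PP_le a (DFinsupp.single k x) (s := {k}) (B := fun _ => k)
      (fun j hj => DFinsupp.single_eq_of_ne (by simpa using hj)) (fun _ => k0.le)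
      (by simpa using hx)
end Pool.Agent.Lib.MP_5d7bff_an
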