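import Pool.Agent.Lib.MP_5d7bff_an.Ext

-- part Pool.Agent.Lib.MP_5d7bff_an.Upper
section

/-!
One block: the upper estimate.
-/

namespace Pool.Agent.Lib.MP_5d7bff_an

open Finset

theorem min_sq (c y : ℝ) (hc : 0 ≤ c) : (min 1 (c * |y|)) ^ 2 = hh (c * y) := by
  have h0 : 0 ≤ c * |y| := mul_nonneg hc (abs_nonneg _)
  have e : (c * y) ^ 2 = (c * |y|) ^ 2 := by rw [mul_pow, mul_pow, sq_abs]
  unfold hh
  rw [e]
  rcases le_total 1 (c * |y|) with h | h
  · rw [min_eq_left h, min_eq_left (one_le_pow₀ h), one_pow]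
  · rw [min_eq_right h, min_eq_right (pow_le_one₀ h0 h)]

theorem hh_mono {c d : ℝ} (y : ℝ) (hc : 0 ≤ c) (h : c ≤ d) : hh (c * y) ≤ hh (d * y) := by
  refine min_le_min le_rfl ?_
  rw [mul_pow, mul_pow]
  exact mul_le_mul_of_nonneg_right (pow_le_pow_left₀ hc h 2) (sq_nonneg _)

theorem hh_two_mul (y : ℝ) : hh (2 * y) ≤ 4 * hh y := by
  unfold hh
  rcases le_total 1 (y ^ 2) with h | h
  · rw [min_eq_left h]
    linarith [min_le_left (1 : ℝ) ((2 * y) ^ 2)]
  · rw [min_eq_right h]
    exact (min_le_right _ _).trans (le_of_eq (by ring))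

theorem hh_le_mul (c y : ℝ) (hc : 0 ≤ c) : hh (c * y) ≤ c * (min 1 (c * |y|) * |y|) := by
  rw [← min_sq c y hc, sq, mul_left_comm]
  exact mul_le_mul_of_nonneg_left (min_le_right _ _)
    (le_min zero_le_one (mul_nonneg hc (abs_nonneg _)))

theorem sum_scales (R S : ℕ) (y : ℝ) :
    ∑ σ ∈ range (S + 1), hh (amp R σ * y) / amp R σ ≤
      6 * (|y| * (amp R S * |y| / (1 + amp R S * |y|))) := by
  have key : ∀ a : ℝ, 0 < a → hh (a * y) / a + 6 * (|y| * (a / 2 * |y| / (1 + a / 2 * |y|))) ≤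
      6 * (|y| * (a * |y| / (1 + a * |y|))) := by
    intro a ha
    have ht := abs_nonneg y
    set t := |y| with htdef
    set z := a * t with hz
    have hz0 : 0 ≤ z := by positivity
    have e1 : hh (a * y) = min 1 (z ^ 2) := by
      unfold hh
      rw [hz, mul_pow, mul_pow, htdef, sq_abs]
    have e2 : a / 2 * t = z / 2 := by rw [hz]; ring
    have e3 : 6 * (t * (z / (1 + z))) - 6 * (t * (z / 2 / (1 + z / 2))) =
        6 * z ^ 2 / ((1 + z) * (2 + z)) / a := by
      rw [hz]
      field_simp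
      ring
    have e4 : min 1 (z ^ 2) ≤ 6 * z ^ 2 / ((1 + z) * (2 + z)) := by
      rw [le_div_iff₀ (by positivity)]
      rcases le_total 1 z with h | h
      · have := mul_le_mul_of_nonneg_right (min_le_left (1 : ℝ) (z ^ 2))
          (by positivity : 0 ≤ (1 + z) * (2 + z))
        nlinarith
      · have := mul_le_mul_of_nonneg_right (min_le_right (1 : ℝ) (z ^ 2))
          (by positivity : 0 ≤ (1 + z) * (2 + z))
        have h6 : (1 + z) * (2 + z) ≤ 6 := by nlinarith
        have := mul_le_mul_of_nonneg_left h6 (sq_nonneg z)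
        linarith
    have e5 := div_le_div_of_nonneg_right e4 ha.le
    rw [e1, e2]
    linarith
  induction S with
  | zero =>
    rw [zero_add, sum_range_one]
    have := key _ (amp_pos R 0)
    have h0 := amp_pos R 0
    have : 0 ≤ 6 * (|y| * (amp R 0 / 2 * |y| / (1 + amp R 0 / 2 * |y|))) := by positivity
    linarith
  | succ S ih =>
    rw [sum_range_succ]
    have := key _ (amp_pos R (S + 1))
    have e : amp R (S + 1) / 2 = amp R S := by rw [amp_succ]; ring
    rw [e] at this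
    linarith

theorem exists_subset_sum {α : Type*} (Q : Finset α) (w : α → ℝ) (h1 : ∀ a ∈ Q, w a ≤ 1) {c : ℝ}
    (hc : 0 ≤ c) (h : c ≤ ∑ a ∈ Q, w a) :
    ∃ Q' ⊆ Q, c ≤ ∑ a ∈ Q', w a ∧ ∑ a ∈ Q', w a ≤ c + 1 := by
  classical
  induction Q using Finset.induction_on with
  | empty => exact ⟨∅, subset_rfl, h, by simp; linarith⟩
  | insert a Q ha ih =>
    by_cases h2 : c ≤ ∑ a ∈ Q, w a
    · obtain ⟨Q', hQ, hh⟩ := ih (fun b hb => h1 b (mem_insert_of_mem hb)) h2
      exact ⟨Q', hQ.trans (subset_insert _ _), hh⟩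
    · refine ⟨_, subset_rfl, h, ?_⟩
      rw [sum_insert ha]
      linarith [h1 a (mem_insert_self _ _)]

variable {G : Type*} [Fintype G] [DecidableEq G]

omit [Fintype G] in
theorem sum_excl (S : Finset G) (i : G → Bool) :
    ∑ a ∈ S, bv (i a) * ∏ b ∈ S.erase a, (1 - bv (i b)) ≤ 1 := by
  by_cases h : ∃ a ∈ S, i a = true
  · obtain ⟨a, ha, hi⟩ := h
    rw [sum_eq_single_of_mem a ha]
    · exact mul_le_one₀ (bv_le_one _) (prod_nonneg fun b _ => by linarith [bv_le_one (i b)])
        (prod_le_one (fun b _ => by linarith [bv_le_one (i b)])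
          fun b _ => by linarith [bv_nonneg (i b)])
    · intro b _ hb
      rw [prod_eq_zero (mem_erase.mpr ⟨hb.symm, ha⟩) (by simp [hi]), mul_zero]
  · rw [sum_eq_zero]
    · exact zero_le_one
    · intro a ha
      have : i a = false := by simpa using fun h' => h ⟨a, ha, h'⟩
      simp [this]

/-- Conditional expectation given that `a` is present. -/
noncomputable def CE (r : ℕ) (a : G) (F : (G → Bool) → ℝ) : ℝ :=
  2 ^ r * Ex (pp r) fun i => bv (i a) * F i

theorem CE_mono (r : ℕ) (a : G) {F H : (G → Bool) → ℝ} (h : ∀ i, i a = true → F i ≤ H i) :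
    CE r a F ≤ CE r a H := by
  refine mul_le_mul_of_nonneg_left (Ex_mono (pp_pos r).le (pp_le_one r) fun i => ?_)
    (by positivity)
  cases hi : i a
  · simp
  · simpa using h i hi

theorem CE_const (r : ℕ) (a : G) (c : ℝ) : CE r a (fun _ => c) = c := by
  unfold CE
  simp_rw [mul_comm _ c]
  rw [Ex_const_mul, Ex_bv, mul_left_comm, two_pow_mul_pp, mul_one]

theorem CE_nonneg (r : ℕ) (a : G) {F : (G → Bool) → ℝ} (h : ∀ i, 0 ≤ F i) : 0 ≤ CE r a F :=
  (CE_const r a 0).symm.trans_le (CE_mono r a fun i _ => h i)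

theorem CE_bv (r : ℕ) {a b : G} (h : a ≠ b) : CE r a (fun i => bv (i b)) = pp r := by
  unfold CE
  rw [Ex_bv_mul _ h, sq, ← mul_assoc, two_pow_mul_pp, one_mul]

theorem CE_sum {α : Type*} (r : ℕ) (a : G) (s : Finset α) (F : α → (G → Bool) → ℝ) :
    CE r a (fun i => ∑ x ∈ s, F x i) = ∑ x ∈ s, CE r a (F x) := by
  unfold CE
  simp_rw [mul_sum]
  rw [Ex_sum, mul_sum]

theorem CE_sub (r : ℕ) (a : G) (F H : (G → Bool) → ℝ) :
    CE r a (fun i => F i - H i) = CE r a F - CE r a H := by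
  unfold CE
  simp_rw [mul_sub]
  rw [Ex_sub, mul_sub]

theorem CE_const_mul (r : ℕ) (a : G) (c : ℝ) (F : (G → Bool) → ℝ) :
    CE r a (fun i => c * F i) = c * CE r a F := by
  unfold CE
  simp_rw [mul_left_comm _ c]
  rw [Ex_const_mul, mul_left_comm]

theorem YY_nonneg (L R σ : ℕ) (x : Fn G) (U : G → Bool) : 0 ≤ YY L R σ x U :=
  sum_nonneg fun r _ => (factor_bounds R σ r (fun _ => hh_nonneg _) (fun _ => hh_le_one _) U).2.2.2

theorem psi_term_nonneg (L R σ : ℕ) (x : Fn G) :
    0 ≤ Ex (qq R σ) fun U => min 1 (YY L R σ x U) :=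
  Ex_nonneg (qq_pos R σ).le (qq_le_one R σ) fun U => le_min zero_le_one (YY_nonneg L R σ x U)

theorem psi_nonneg (L R : ℕ) (x : Fn G) : 0 ≤ psi L R x :=
  sum_nonneg fun σ _ => psi_term_nonneg L R σ x

theorem base_lt_one {L R : ℕ} {x : Fn G} (h : psi L R x < 1) :
    ∑ r ∈ Icc 1 L, 2 ^ r * Ex (pp r) (fun i => hh (x r i)) < 1 := by
  have h1 := single_le_sum (f := fun σ => Ex (qq R σ) fun U => min 1 (YY L R σ x U))
    (fun σ _ => psi_term_nonneg L R σ x) (mem_range.mpr (show R < L + R + 1 by omega))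
  have h2 := h1.trans_lt h
  rw [qq_of_le le_rfl, Ex_one, min_lt_iff, or_iff_right (lt_irrefl _), YY, qq_of_le le_rfl] at h2
  have h3 : amp R R = 1 := by simpa using amp_add R 0
  refine lt_of_eq_of_lt (sum_congr rfl fun r _ => ?_) h2
  have h4 := MM_mul_amp (R := R) (σ := R) (r := r) (by omega)
  rw [h3, mul_one] at h4
  rw [h4, h3, Cond_one]
  simp only [one_mul]

theorem low_le_psi (L R : ℕ) (x : Fn G) :
    ∑ r ∈ Icc 1 L, Ex (pp r) (fun i => hh (2 ^ r * x r i)) ≤ psi L R x := by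
  have h1 : ∀ r ∈ Icc 1 L, Ex (pp r) (fun i => hh (2 ^ r * x r i)) ≤
      Ex (qq R (r + R)) fun U => min 1 (YY L R (r + R) x U) := by
    intro r hr
    rw [← Ex_Cond (qq_pos R (r + R)).ne' (pp_ne_one (mem_Icc.mp hr).1)]
    refine Ex_mono (qq_pos _ _).le (qq_le_one _ _) fun U => le_min ?_ ?_
    · exact Cond_le_one (qq_pos _ _) (pp_pos r).le (pp_le_qq le_rfl) (fun _ => hh_le_one _) U
    · refine le_trans (le_of_eq ?_) (single_le_sum (fun r' _ => (factor_bounds R (r + R) r'
        (fun _ => hh_nonneg _) (fun _ => hh_le_one _) U).2.2.2) hr)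
      simp [MM, amp_add]
  refine (sum_le_sum h1).trans ?_
  rw [← sum_image (s := Icc 1 L) (g := fun r => r + R)
    (f := fun σ => Ex (qq R σ) fun U => min 1 (YY L R σ x U))
    (fun a _ b _ h => by simpa using h)]
  refine sum_le_sum_of_subset_of_nonneg (fun σ hσ => ?_) fun σ _ _ => psi_term_nonneg L R σ x
  obtain ⟨r, hr, rfl⟩ := mem_image.mp hσ
  have := (mem_Icc.mp hr).2
  exact mem_range.mpr (by omega)

/-- Stopping argument: the part of the modular away from the stopped points. -/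
theorem psi_le_stop (L R : ℕ) (x : Fn G) (t : G → ℕ) (sig : ℕ → (G → Bool) → ℕ)
    (hsr : ∀ r i, sig r i ≤ r)
    (hsig : ∀ r i s, s ≤ r → (∀ a, i a = true → s ≤ t a) → s ≤ sig r i) :
    psi L R x ≤ 6 * pair L (fun r i => min 1 (2 ^ sig r i * |x r i|)) x +
      ∑ a ∈ univ.filter (fun a => t a < L), pp (t a) := by
  have h1 : ∀ σ, Ex (qq R σ) (fun U => min 1 (YY L R σ x U)) ≤
      ∑ r ∈ Icc 1 L, MM R σ r * Ex (pp r)
        (fun i => if σ ≤ sig r i + R then hh (amp R σ * x r i) else 0) +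
      ∑ a, if t a + R < σ then qq R σ else 0 := by
    intro σ
    have e1 : ∑ r ∈ Icc 1 L, MM R σ r * Ex (pp r)
        (fun i => if σ ≤ sig r i + R then hh (amp R σ * x r i) else 0) =
        Ex (qq R σ) fun U => ∑ r ∈ Icc 1 L, MM R σ r * Cond (qq R σ) (pp r)
          (fun i => if σ ≤ sig r i + R then hh (amp R σ * x r i) else 0) U := by
      rw [Ex_sum]
      refine sum_congr rfl fun r hr => ?_
      rw [Ex_const_mul, Ex_Cond (qq_pos R σ).ne' (pp_ne_one (mem_Icc.mp hr).1)]
    have e2 : (∑ a, if t a + R < σ then qq R σ else 0) =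
        Ex (qq R σ) fun U => ∑ a, if t a + R < σ then bv (U a) else 0 := by
      rw [Ex_sum]
      refine sum_congr rfl fun a _ => ?_
      split_ifs
      · rw [Ex_bv]
      · rw [Ex_const]
    rw [e1, e2, ← Ex_add]
    refine Ex_mono (qq_pos R σ).le (qq_le_one R σ) fun U => ?_
    have n1 : 0 ≤ ∑ r ∈ Icc 1 L, MM R σ r * Cond (qq R σ) (pp r)
        (fun i => if σ ≤ sig r i + R then hh (amp R σ * x r i) else 0) U :=
      sum_nonneg fun r _ => (factor_bounds R σ r
        (fun i => by split_ifs; exacts [hh_nonneg _, le_rfl])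
        (fun i => by split_ifs; exacts [hh_le_one _, zero_le_one]) U).2.2.2
    have n2 : ∀ a, 0 ≤ if t a + R < σ then bv (U a) else 0 := fun a => by
      split_ifs; exacts [bv_nonneg _, le_rfl]
    by_cases hU : ∃ a, t a + R < σ ∧ U a = true
    · obtain ⟨a, ha, hUa⟩ := hU
      have := single_le_sum (fun a _ => n2 a) (mem_univ a)
      rw [if_pos ha, hUa, bv_true] at this
      linarith [min_le_left (1 : ℝ) (YY L R σ x U)]
    · have n3 := sum_nonneg fun a (_ : a ∈ univ) => n2 a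
      refine (min_le_right _ _).trans (le_trans (le_of_eq ?_) (le_add_of_nonneg_right n3))
      refine sum_congr rfl fun r _ => ?_
      by_cases hr : σ ≤ r + R
      · congr 1
        refine sum_congr rfl fun i _ => ?_
        by_cases hk : kw (qq R σ) (pp r) U i = 0
        · simp [hk]
        · beta_reduce
          rw [if_pos]
          have := hsig r i (σ - R) (by omega) fun a ha => by
            by_contra hc
            exact hU ⟨a, by omega, kw_support hk a ha⟩
          omega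
      · simp [MM_of_lt hr]
  refine (sum_le_sum fun σ _ => h1 σ).trans ?_
  rw [sum_add_distrib]
  refine add_le_add ?_ ?_
  · rw [sum_comm, pair, mul_sum]
    refine sum_le_sum fun r hr => ?_
    simp_rw [← Ex_const_mul]
    rw [← Ex_sum]
    refine Ex_mono (pp_pos r).le (pp_le_one r) fun i => ?_
    have hs := hsr r i
    have hrL := (mem_Icc.mp hr).2
    have e : ∑ σ ∈ range (L + R + 1),
        (MM R σ r : ℝ) * (if σ ≤ sig r i + R then hh (amp R σ * x r i) else 0) =
        2 ^ r * ∑ σ ∈ range (sig r i + R + 1), hh (amp R σ * x r i) / amp R σ := by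
      rw [mul_sum]
      symm
      refine sum_subset_zero_on_sdiff (range_subset_range.mpr (by omega)) ?_ ?_
      · intro σ hσ
        rw [mem_sdiff, mem_range, mem_range] at hσ
        rw [if_neg (by omega), mul_zero]
      · intro σ hσ
        rw [mem_range] at hσ
        rw [if_pos (by omega), ← MM_mul_amp (R := R) (σ := σ) (r := r) (by omega)]
        have := (amp_pos R σ).ne'
        field_simp
    rw [e, mul_left_comm]
    refine mul_le_mul_of_nonneg_left ((sum_scales R _ _).trans ?_) (by positivity)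
    rw [amp_add, mul_comm |x r i|]
    refine mul_le_mul_of_nonneg_left (mul_le_mul_of_nonneg_right ?_ (abs_nonneg _)) (by norm_num)
    have : 0 ≤ 2 ^ sig r i * |x r i| := by positivity
    refine le_min ?_ (div_le_self this (by linarith))
    rw [div_le_one (by linarith)]
    linarith
  · rw [sum_comm, sum_filter]
    refine sum_le_sum fun a _ => ?_
    rw [← sum_filter]
    split_ifs with h
    · have e : ∑ σ ∈ (range (L + R + 1)).filter (fun σ => t a + R < σ), qq R σ =
          ∑ s ∈ ((range (L + R + 1)).filter (fun σ => t a + R < σ)).image (fun σ => σ - R),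
            pp s := by
        rw [sum_image]
        · rfl
        · intro u hu v hv huv
          have := (mem_filter.mp hu).2
          have := (mem_filter.mp hv).2
          simp only at huv
          omega
      rw [e]
      refine (sum_pp_le (t a + 1) _ fun s hs => ?_).trans (le_of_eq ?_)
      · obtain ⟨σ, hσ, rfl⟩ := mem_image.mp hs
        have := (mem_filter.mp hσ).2
        omega
      · unfold pp
        ring
    · rw [sum_eq_zero]
      intro σ hσ
      rw [mem_filter, mem_range] at hσ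
      omega

/-- Points stopped because of low levels are few. -/
theorem low_count (L : ℕ) (H : Fn G) (H0 : ∀ r i, 0 ≤ H r i) (H1 : ∀ r i, H r i ≤ 1)
    (hB : ∑ r ∈ Icc 1 L, Ex (pp r) (H r) ≤ 1) (t : G → ℕ) (Q : Finset G)
    (hQ : ∀ a ∈ Q, 5 ≤ ∑ r ∈ (Icc 1 L).filter (fun r => r ≤ t a), CE r a (H r)) :
    ∑ a ∈ Q, pp (t a) ≤ (∑ r ∈ Icc 1 L, Ex (pp r) (H r)) / 8 := by
  set d : ℕ → G → ℝ := fun r a => CE r a (H r) - Ex (pp r) (H r) with hd
  have E0 : ∀ r, 0 ≤ Ex (pp r) (H r) := fun r => Ex_nonneg (pp_pos r).le (pp_le_one r) (H0 r)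
  have h1 : ∀ a ∈ Q, pp (t a) ≤ (∑ r ∈ Icc 1 L, d r a ^ 2 / 2 ^ r) / 8 := by
    intro a ha
    set A := (Icc 1 L).filter (fun r => r ≤ t a) with hA
    have a1 : 4 ≤ ∑ r ∈ A, d r a := by
      have := sum_le_sum_of_subset_of_nonneg (filter_subset (fun r => r ≤ t a) (Icc 1 L))
        fun r _ _ => E0 r
      have := hQ a ha
      simp only [hd, sum_sub_distrib]
      linarith
    have a2 := sq_sum_div_le_sum_sq_div A (fun r => d r a) (g := fun r => (2 : ℝ) ^ r)
      fun r _ => by positivity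
    have a3 : ∑ r ∈ A, (2 : ℝ) ^ r ≤ 2 * 2 ^ t a := by
      refine (sum_le_sum_of_subset_of_nonneg (t := range (t a + 1))
        (fun r hr => mem_range.mpr (Nat.lt_succ_of_le (mem_filter.mp hr).2))
        fun r _ _ => by positivity).trans ?_
      rw [geom_sum_eq (by norm_num), pow_succ]
      linarith
    have a4 : 0 < ∑ r ∈ A, (2 : ℝ) ^ r := by
      refine sum_pos (fun r _ => by positivity) (nonempty_iff_ne_empty.mpr fun h => ?_)
      rw [h, sum_empty] at a1
      norm_num at a1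
    have a5 := sum_le_sum_of_subset_of_nonneg (f := fun r => d r a ^ 2 / 2 ^ r)
      (filter_subset (fun r => r ≤ t a) (Icc 1 L)) fun r _ _ => by positivity
    have a6 : 16 / (2 * 2 ^ t a) ≤ (∑ r ∈ A, d r a) ^ 2 / ∑ r ∈ A, (2 : ℝ) ^ r :=
      div_le_div₀ (sq_nonneg _) (by nlinarith) a4 a3
    have a7 : pp (t a) = 16 / (2 * 2 ^ t a) / 8 := by
      unfold pp
      rw [one_div, inv_pow]
      field_simp
      norm_num
    rw [a7]
    linarith
  refine (sum_le_sum h1).trans ?_
  rw [← sum_div, sum_comm]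
  refine div_le_div_of_nonneg_right (sum_le_sum fun r hr => ?_) (by norm_num)
  have hp := pp_pos r
  have hp2 := pp_le_half (mem_Icc.mp hr).1
  have b1 := bessel hp (by linarith) (Q.image fun a => ({a} : Finset G)) (H r)
  rw [sum_image (by intro a _ b _ h; simpa using h)] at b1
  have b2 : Ex (pp r) (fun i => H r i ^ 2) ≤ Ex (pp r) (H r) :=
    Ex_mono hp.le (pp_le_one r) fun i => by nlinarith [H0 r i, H1 r i]
  refine le_trans (sum_le_sum fun a _ => ?_) (b1.trans b2)
  have b3 : d r a = 2 ^ r * Ex (pp r) (fun i => H r i * chi (pp r) {a} i) := by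
    have : ∀ i : G → Bool, H r i * chi (pp r) {a} i = bv (i a) * H r i - pp r * H r i := by
      intro i
      rw [chi_singleton]
      ring
    rw [Ex_congr _ this, Ex_sub, Ex_const_mul, mul_sub, ← mul_assoc, two_pow_mul_pp, one_mul]
    rfl
  rw [b3, card_singleton, pow_one, div_le_div_iff₀ (by positivity) (by nlinarith)]
  have b4 := two_pow_mul_pp r
  set E := Ex (pp r) (fun i => H r i * chi (pp r) {a} i)
  have b5 : (0 : ℝ) < 2 ^ r := by positivity
  calc (2 ^ r * E) ^ 2 * (pp r * (1 - pp r)) = (2 ^ r * pp r) * (E ^ 2 * 2 ^ r) * (1 - pp r) := by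
        ring
    _ ≤ E ^ 2 * 2 ^ r := by
        rw [b4, one_mul]
        exact mul_le_of_le_one_right (by positivity) (by linarith)

/-- Test function for the points stopped because of high levels. -/
theorem high_test (L : ℕ) (x : Fn G) (t : G → ℕ) (Q : Finset G) (hQ2 : ∑ a ∈ Q, pp (t a) ≤ 2)
    (hlo : ∀ a ∈ Q, 5 ≤ ∑ r ∈ Icc 1 L, if t a < r then CE r a (fun i => hh (2 ^ t a * x r i)) else 0)
    (hup : ∀ a ∈ Q,
      (∑ r ∈ Icc 1 L, if t a < r then CE r a (fun i => hh (2 ^ t a * x r i)) else 0) ≤ 47) :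
    ∃ g : Fn G, (∀ r i, 0 ≤ g r i) ∧ (∀ r i, g r i ≤ 1) ∧
      (∀ a, ∑ r ∈ Icc 1 L, CE r a (fun i => g r i ^ 2) ≤ 49) ∧
      en L g ≤ ∑ a ∈ Q, pp (t a) ∧ 3 * ∑ a ∈ Q, pp (t a) ≤ pair L g x := by
  let S : ℕ → Finset G := fun r => Q.filter fun a => t a < r
  let o : ℕ → (G → Bool) → G → ℝ := fun r i a => ∏ b ∈ (S r).erase a, (1 - bv (i b))
  let y : ℕ → (G → Bool) → G → ℝ := fun r i a => min 1 (2 ^ t a * |x r i|)
  have o0 : ∀ r i a, 0 ≤ o r i a := fun r i a =>
    prod_nonneg fun b _ => by linarith [bv_le_one (i b)]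
  have o1 : ∀ r i a, o r i a ≤ 1 := fun r i a =>
    prod_le_one (fun b _ => by linarith [bv_le_one (i b)]) fun b _ => by
      linarith [bv_nonneg (i b)]
  have y0 : ∀ r i a, 0 ≤ y r i a := fun r i a => le_min zero_le_one (by positivity)
  have y1 : ∀ r i a, y r i a ≤ 1 := fun r i a => min_le_left _ _
  have w0 : ∀ r i a, 0 ≤ bv (i a) * o r i a := fun r i a => mul_nonneg (bv_nonneg _) (o0 r i a)
  let g : Fn G := fun r i => ∑ a ∈ S r, bv (i a) * o r i a * y r i a
  have hg2 : ∀ r i, g r i ^ 2 ≤ ∑ a ∈ S r, bv (i a) * hh (2 ^ t a * x r i) := by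
    intro r i
    have c1 := sum_sq_le_sum_mul_sum_of_sq_le_mul (S r)
      (r := fun a => bv (i a) * o r i a * y r i a) (f := fun a => bv (i a) * o r i a)
      (g := fun a => bv (i a) * o r i a * y r i a ^ 2) (fun a _ => w0 r i a)
      (fun a _ => mul_nonneg (w0 r i a) (sq_nonneg _)) fun a _ => le_of_eq (by ring)
    refine c1.trans ((mul_le_of_le_one_left (sum_nonneg fun a _ =>
      mul_nonneg (w0 r i a) (sq_nonneg _)) (sum_excl (S r) i)).trans (sum_le_sum fun a _ => ?_))
    rw [min_sq _ _ (by positivity)]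
    exact mul_le_mul_of_nonneg_right (mul_le_of_le_one_right (bv_nonneg _) (o1 r i a))
      (hh_nonneg _)
  have hsum : ∑ r ∈ Icc 1 L, ∑ _a ∈ S r, pp r ≤ ∑ a ∈ Q, pp (t a) := by
    simp only [S, sum_filter]
    rw [sum_comm]
    refine sum_le_sum fun a _ => ?_
    rw [← sum_filter]
    refine (sum_pp_le (t a + 1) _ fun r hr => (mem_filter.mp hr).2).trans (le_of_eq ?_)
    unfold pp
    ring
  refine ⟨g, fun r i => sum_nonneg fun a _ => mul_nonneg (w0 r i a) (y0 r i a), fun r i => ?_,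
    fun b => ?_, ?_, ?_⟩
  · exact le_trans (sum_le_sum fun a _ => mul_le_of_le_one_right (w0 r i a) (y1 r i a))
      (sum_excl (S r) i)
  · have c1 : ∀ r, CE r b (fun i => g r i ^ 2) ≤
        (if b ∈ Q then if t b < r then CE r b (fun i => hh (2 ^ t b * x r i)) else 0 else 0) +
          ∑ _a ∈ S r, pp r := by
      intro r
      refine (CE_mono r b fun i _ => hg2 r i).trans ?_
      rw [CE_sum]
      have c2 : ∀ a ∈ S r, CE r b (fun i => bv (i a) * hh (2 ^ t a * x r i)) ≤
          (if b = a then CE r b (fun i => hh (2 ^ t b * x r i)) else 0) + pp r := by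
        intro a _
        split_ifs with h
        · subst h
          refine le_trans (CE_mono r b fun i _ => ?_) (le_add_of_nonneg_right (pp_pos r).le)
          exact mul_le_of_le_one_left (hh_nonneg _) (bv_le_one _)
        · rw [zero_add, ← CE_bv r h]
          exact CE_mono r b fun i _ => mul_le_of_le_one_right (bv_nonneg _) (hh_le_one _)
      refine (sum_le_sum c2).trans (le_of_eq ?_)
      rw [sum_add_distrib, sum_ite_eq]
      congr 1
      simp only [S, mem_filter, ite_and]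
    refine (sum_le_sum fun r _ => c1 r).trans ?_
    rw [sum_add_distrib]
    by_cases hb : b ∈ Q
    · simp only [if_pos hb]
      linarith [hup b hb]
    · simp only [if_neg hb, sum_const_zero]
      linarith
  · refine le_trans (sum_le_sum fun r _ => ?_) hsum
    refine (Ex_mono (pp_pos r).le (pp_le_one r) fun i => (hg2 r i).trans
      (sum_le_sum fun a _ => mul_le_of_le_one_right (bv_nonneg _) (hh_le_one _))).trans ?_
    rw [Ex_sum]
    simp only [Ex_bv, le_refl]
  · have c1 : ∀ r, ∑ a ∈ S r, pp (t a) * (CE r a (fun i => hh (2 ^ t a * x r i)) -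
        ∑ _b ∈ S r, pp r) ≤ 2 ^ r * Ex (pp r) fun i => g r i * |x r i| := by
      intro r
      have e : 2 ^ r * Ex (pp r) (fun i => g r i * |x r i|) =
          ∑ a ∈ S r, CE r a fun i => o r i a * (y r i a * |x r i|) := by
        simp only [g, CE, sum_mul]
        rw [Ex_sum, mul_sum]
        refine sum_congr rfl fun a _ => ?_
        congr 1
        exact Ex_congr _ fun i => by ring
      rw [e]
      refine sum_le_sum fun a _ => ?_
      have c2 : ∑ b ∈ (S r).erase a, CE r a (fun i => bv (i b)) ≤ ∑ _b ∈ S r, pp r := by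
        refine le_trans (le_of_eq (sum_congr rfl fun b hb => CE_bv r (ne_of_mem_erase hb).symm))
          (sum_le_sum_of_subset_of_nonneg (erase_subset _ _) fun _ _ _ => (pp_pos r).le)
      refine (mul_le_mul_of_nonneg_left (sub_le_sub_left c2 _) (pp_pos _).le).trans ?_
      rw [← CE_sum, ← CE_sub, ← CE_const_mul]
      refine CE_mono r a fun i _ => ?_
      have d1 := one_sub_prod_le ((S r).erase a) (fun b => 1 - bv (i b))
        (fun b _ => by linarith [bv_le_one (i b)]) fun b _ => by linarith [bv_nonneg (i b)]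
      simp only [sub_sub_cancel] at d1
      have d2 := hh_le_mul (2 ^ t a) (x r i) (by positivity)
      have d3 : pp (t a) * hh (2 ^ t a * x r i) ≤ y r i a * |x r i| := by
        have := mul_le_mul_of_nonneg_left d2 (pp_pos (t a)).le
        rwa [← mul_assoc, mul_comm (pp (t a)) (2 ^ t a), two_pow_mul_pp, one_mul] at this
      have d4 : hh (2 ^ t a * x r i) - ∑ b ∈ (S r).erase a, bv (i b) ≤
          o r i a * hh (2 ^ t a * x r i) := by
        have := mul_le_mul_of_nonneg_left (hh_le_one (2 ^ t a * x r i))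
          (sub_nonneg.mpr (o1 r i a))
        simp only [o] at this ⊢
        nlinarith
      have d5 := mul_le_mul_of_nonneg_left d4 (pp_pos (t a)).le
      have d6 := mul_le_mul_of_nonneg_left d3 (o0 r i a)
      nlinarith
    refine le_trans ?_ (sum_le_sum fun r _ => c1 r)
    have hS : ∀ r (f : G → ℝ), ∑ a ∈ S r, f a = ∑ a ∈ Q, if t a < r then f a else 0 :=
      fun r f => sum_filter _ _
    rw [sum_congr rfl fun r _ => hS r fun a => pp (t a) *
      (CE r a (fun i => hh (2 ^ t a * x r i)) - ∑ _b ∈ S r, pp r), sum_comm, mul_sum]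
    refine sum_le_sum fun a ha => ?_
    have c3 : ∀ r, pp (t a) * ((if t a < r then CE r a (fun i => hh (2 ^ t a * x r i)) else 0) -
        ∑ _b ∈ S r, pp r) ≤ if t a < r then pp (t a) * (CE r a (fun i => hh (2 ^ t a * x r i)) -
        ∑ _b ∈ S r, pp r) else 0 := by
      intro r
      split_ifs
      · exact le_rfl
      · have := mul_nonneg (pp_pos (t a)).le (sum_nonneg fun _ (_ : _ ∈ S r) => (pp_pos r).le)
        linarith
    refine le_trans ?_ (sum_le_sum fun r _ => c3 r)
    rw [← mul_sum, sum_sub_distrib, mul_comm]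
    refine mul_le_mul_of_nonneg_left ?_ (pp_pos _).le
    linarith [hlo a ha]

theorem pair_smul (L : ℕ) (c : ℝ) (g x : Fn G) :
    pair L (fun r i => c * g r i) x = c * pair L g x := by
  unfold pair
  rw [mul_sum]
  refine sum_congr rfl fun r _ => ?_
  simp_rw [mul_assoc]
  rw [Ex_const_mul, mul_left_comm]

theorem en_smul (L : ℕ) (c : ℝ) (g : Fn G) : en L (fun r i => c * g r i) = c ^ 2 * en L g := by
  unfold en
  rw [mul_sum]
  refine sum_congr rfl fun r _ => ?_
  simp_rw [mul_pow]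
  rw [Ex_const_mul]

theorem en_nonneg (L : ℕ) (g : Fn G) : 0 ≤ en L g :=
  sum_nonneg fun r _ => Ex_nonneg (pp_pos r).le (pp_le_one r) fun _ => sq_nonneg _

theorem InD_smul {L : ℕ} {g : Fn G} {c B : ℝ} (h0 : ∀ r i, 0 ≤ g r i) (h1 : ∀ r i, g r i ≤ 1)
    (h2 : ∀ a, ∑ r ∈ Icc 1 L, CE r a (fun i => g r i ^ 2) ≤ B) (hc0 : 0 ≤ c) (hc1 : c ≤ 1)
    (hcB : c ^ 2 * B ≤ 1) : InD L fun r i => c * g r i := by
  refine ⟨fun r i => mul_nonneg hc0 (h0 r i), fun r i => mul_le_one₀ hc1 (h0 r i) (h1 r i),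
    fun a => ?_⟩
  change ∑ r ∈ Icc 1 L, CE r a (fun i => (c * g r i) ^ 2) ≤ 1
  simp_rw [mul_pow, CE_const_mul]
  rw [← mul_sum]
  exact (mul_le_mul_of_nonneg_left (h2 a) (sq_nonneg c)).trans hcB

/-- The upper estimate for one block. -/
theorem exists_test (L R : ℕ) (x : Fn G) (hψ : psi L R x < 1) :
    ∃ g, InD L g ∧ en L g ≤ psi L R x ∧ psi L R x ≤ 98 * pair L g x := by
  classical
  have hψ0 := psi_nonneg L R x
  let F : G → ℕ → ℝ := fun a s => ∑ r ∈ Icc 1 L, CE r a fun i => hh (2 ^ min r s * x r i)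
  let t : G → ℕ := fun a => Nat.findGreatest (fun s => F a s ≤ 47) L
  have hF0 : ∀ a, F a 0 ≤ 47 := by
    intro a
    refine le_trans (le_trans (sum_le_sum fun r _ => ?_) (base_lt_one hψ).le) (by norm_num)
    refine mul_le_mul_of_nonneg_left (Ex_mono (pp_pos r).le (pp_le_one r) fun i => ?_)
      (by positivity)
    simpa using mul_le_of_le_one_left (hh_nonneg _) (bv_le_one _)
  have hFt : ∀ a, F a (t a) ≤ 47 := fun a =>
    Nat.findGreatest_spec (P := fun s => F a s ≤ 47) (Nat.zero_le L) (hF0 a)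
  have hFt' : ∀ a, t a < L → 47 / 4 ≤ F a (t a) := by
    intro a ha
    have h1 : ¬ F a (t a + 1) ≤ 47 :=
      Nat.findGreatest_is_greatest (P := fun s => F a s ≤ 47) (Nat.lt_succ_self _) ha
    have h2 : F a (t a + 1) ≤ 4 * F a (t a) := by
      simp only [F, mul_sum]
      refine sum_le_sum fun r _ => ?_
      rw [← CE_const_mul]
      refine CE_mono r a fun i _ => le_trans ?_ (hh_two_mul _)
      rw [← mul_assoc, ← pow_succ']
      exact hh_mono _ (by positivity) (pow_le_pow_right₀ (by norm_num) (by omega))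
    linarith
  let sig : ℕ → (G → Bool) → ℕ := fun r i =>
    Nat.findGreatest (fun s => ∀ a, i a = true → s ≤ t a) r
  have hsr : ∀ r i, sig r i ≤ r := fun r i => Nat.findGreatest_le _
  have hst : ∀ r i a, i a = true → sig r i ≤ t a := fun r i =>
    Nat.findGreatest_spec (P := fun s => ∀ a, i a = true → s ≤ t a) (Nat.zero_le r)
      fun a _ => Nat.zero_le _
  have h1 := psi_le_stop L R x t sig hsr fun r i s hs h => Nat.le_findGreatest hs h
  set g : Fn G := fun r i => min 1 (2 ^ sig r i * |x r i|) with hg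
  have hlow := low_le_psi L R x
  by_cases hA : psi L R x ≤ 14 * pair L g x
  · refine ⟨fun r i => 1 / 7 * g r i, InD_smul (B := 47) (fun r i => le_min zero_le_one
      (by positivity)) (fun r i => min_le_left _ _) (fun a => le_trans (sum_le_sum fun r _ => ?_)
      (hFt a)) (by norm_num) (by norm_num) (by norm_num), ?_, ?_⟩
    · refine CE_mono r a fun i hi => ?_
      rw [hg, min_sq _ _ (by positivity)]
      exact hh_mono _ (by positivity)
        (pow_le_pow_right₀ (by norm_num) (le_min (hsr r i) (hst r i a hi)))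
    · have : en L g ≤ psi L R x := by
        refine le_trans (sum_le_sum fun r _ => Ex_mono (pp_pos r).le (pp_le_one r) fun i => ?_)
          hlow
        rw [hg, min_sq _ _ (by positivity)]
        exact hh_mono _ (by positivity) (pow_le_pow_right₀ (by norm_num) (hsr r i))
      rw [en_smul]
      linarith [en_nonneg L g]
    · rw [pair_smul]
      linarith
  let hi : G → ℝ := fun a =>
    ∑ r ∈ Icc 1 L, if t a < r then CE r a (fun i => hh (2 ^ t a * x r i)) else 0
  have hsplit : ∀ a, F a (t a) = hi a +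
      ∑ r ∈ (Icc 1 L).filter (fun r => r ≤ t a), CE r a fun i => hh (2 ^ r * x r i) := by
    intro a
    simp only [F, hi, sum_filter, ← sum_add_distrib]
    refine sum_congr rfl fun r _ => ?_
    by_cases h : t a < r
    · rw [if_pos h, if_neg (by omega), min_eq_right h.le, add_zero]
    · rw [if_neg h, if_pos (by omega), min_eq_left (by omega), zero_add]
  set Q := univ.filter (fun a => t a < L) with hQ
  have h2 := low_count L (fun r i => hh (2 ^ r * x r i)) (fun r i => hh_nonneg _)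
    (fun r i => hh_le_one _) (hlow.trans hψ.le) t (Q.filter fun a => ¬ 5 ≤ hi a) fun a ha => by
      rw [mem_filter, hQ, mem_filter] at ha
      have := hFt' a ha.1.2
      have := hsplit a
      have := not_le.mp ha.2
      linarith
  have h3 := sum_filter_add_sum_filter_not Q (fun a => 5 ≤ hi a) fun a => pp (t a)
  obtain ⟨Q', hQ', hc1, hc2⟩ := exists_subset_sum (Q.filter fun a => 5 ≤ hi a)
    (fun a => pp (t a)) (fun a _ => pp_le_one _) (c := 7 / 16 * psi L R x) (by positivity)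
    (by linarith)
  obtain ⟨g', g0, g1, g2, g3, g4⟩ := high_test L x t Q' (by linarith)
    (fun a ha => (mem_filter.mp (hQ' ha)).2) fun a _ => by
      have := hFt a
      have := hsplit a
      have := sum_nonneg fun r (_ : r ∈ (Icc 1 L).filter (fun r => r ≤ t a)) =>
        CE_nonneg r a (F := fun i => hh (2 ^ r * x r i)) fun i => hh_nonneg _
      change hi a ≤ 47
      linarith
  set s := ∑ a ∈ Q', pp (t a) with hs
  have hs0 : 0 ≤ s := sum_nonneg fun a _ => (pp_pos _).le
  set l := 7 / 16 * psi L R x / s with hl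
  have hl0 : 0 ≤ l := by positivity
  have hl1 : l ≤ 1 := div_le_one_of_le₀ hc1 hs0
  have hls : l * s = 7 / 16 * psi L R x := by
    rcases hs0.eq_or_lt with h | h
    · rw [← h] at hc1 ⊢
      linarith
    · rw [hl]
      field_simp
  refine ⟨fun r i => l / 7 * g' r i, InD_smul g0 g1 g2 (by positivity) (by linarith)
    (by nlinarith), ?_, ?_⟩
  · rw [en_smul]
    have := mul_le_mul_of_nonneg_left g3 (sq_nonneg (l / 7))
    have : l * (l * s) ≤ l * s := mul_le_of_le_one_left (by positivity) hl1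
    nlinarith
  · rw [pair_smul]
    have := mul_le_mul_of_nonneg_left g4 hl0
    nlinarith

theorem psi_two_mul (L R : ℕ) (x : Fn G) :
    psi L R (fun r i => 2 * x r i) ≤ 4 * psi L R x := by
  unfold psi
  rw [mul_sum]
  refine sum_le_sum fun σ _ => ?_
  rw [← Ex_const_mul]
  refine Ex_mono (qq_pos R σ).le (qq_le_one R σ) fun U => ?_
  have h1 : YY L R σ (fun r i => 2 * x r i) U ≤ 4 * YY L R σ x U := by
    unfold YY
    rw [mul_sum]
    refine sum_le_sum fun r _ => (term_mono R σ r (H := fun i => 4 * hh (amp R σ * x r i))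
      (fun i => ?_) U).trans (le_of_eq ?_)
    · rw [mul_left_comm]
      exact hh_two_mul _
    · rw [Cond_const_mul]
      ring
  rcases le_total 1 (YY L R σ x U) with h | h
  · rw [min_eq_left h]
    linarith [min_le_left (1 : ℝ) (YY L R σ (fun r i => 2 * x r i) U)]
  · rw [min_eq_right h]
    exact (min_le_right _ _).trans h1

theorem continuous_psi (L R : ℕ) (x : Fn G) :
    Continuous fun c : ℝ => psi L R (fun r i => c * x r i) := by
  unfold psi YY Ex Cond hh
  fun_prop

theorem psi_zero (L R : ℕ) : psi L R (fun _ _ => 0 : Fn G) = 0 := by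
  simp [psi, YY, hh, Cond_const, Ex_const]

end Pool.Agent.Lib.MP_5d7bff_an
end

-- part Pool.Agent.Lib.MP_5d7bff_an.NoEmb
section

/-!
The blocks do not embed uniformly into the integrable functions.
-/

namespace Pool.Agent.Lib.MP_5d7bff_an

open Finset MeasureTheory

section Khin

variable {J : Type*} [Fintype J] [DecidableEq J]

theorem khin_up (κ : J → ℝ) : 2 * Ex (1 / 2) (fun U => |lin (1 / 2) κ U|) ≤ √(∑ j, κ j ^ 2) := by
  set m := Ex (1 / 2) (fun U => |lin (1 / 2) κ U|) with hm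
  have h1 : 0 ≤ Ex (1 / 2) fun U => (|lin (1 / 2) κ U| - m) ^ 2 :=
    Ex_nonneg (by norm_num) (by norm_num) fun _ => sq_nonneg _
  have e : ∀ U, (|lin (1 / 2) κ U| - m) ^ 2 =
      lin (1 / 2) κ U ^ 2 - 2 * m * |lin (1 / 2) κ U| + m ^ 2 := fun U => by
    rw [← sq_abs (lin _ _ _)]
    ring
  rw [Ex_congr _ e, Ex_add, Ex_sub, Ex_const, Ex_const_mul, Ex_lin_sq, ← hm] at h1
  exact Real.le_sqrt_of_sq_le (by linarith)

theorem khin_low (κ : J → ℝ) :
    √(∑ j, κ j ^ 2) ≤ 48 * Ex (1 / 2) (fun U => |lin (1 / 2) κ U|) := by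
  have hM : 0 ≤ ∑ j, κ j ^ 2 := sum_nonneg fun _ _ => sq_nonneg _
  rcases (Real.sqrt_nonneg (∑ j, κ j ^ 2)).eq_or_lt with h | h
  · rw [← h]
    exact mul_nonneg (by norm_num) (Ex_nonneg (by norm_num) (by norm_num) fun _ => abs_nonneg _)
  have h4 := Ex_lin_four (q := 1 / 2) (by norm_num) (by norm_num) κ (Real.sqrt_pos.mp h)
    (fun a => single_le_sum (f := fun j => κ j ^ 2) (fun _ _ => sq_nonneg _) (mem_univ a))
    (by linarith)
  have h2 := Ex_lin_sq (1 / 2) κ
  have hs := Real.sq_sqrt hM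
  set s := √(∑ j, κ j ^ 2)
  rw [← hs] at h2 h4
  have h5 : Ex (1 / 2) (fun U => 192 * s ^ 2 * lin (1 / 2) κ U ^ 2 - lin (1 / 2) κ U ^ 4) ≤
      Ex (1 / 2) fun U => 1152 * s ^ 3 * |lin (1 / 2) κ U| := by
    refine Ex_mono (by norm_num) (by norm_num) fun U => ?_
    have t0 := abs_nonneg (lin (1 / 2) κ U)
    rw [← sq_abs (lin _ _ _), ← (by decide : Even 4).pow_abs (lin _ _ _)]
    set t := |lin (1 / 2) κ U|
    have : 0 ≤ t * ((t - 8 * s) ^ 2 * (t + 16 * s)) := by positivity
    have : 0 ≤ s ^ 3 * t := by positivity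
    nlinarith
  rw [Ex_sub, Ex_const_mul, Ex_const_mul, h2] at h5
  refine le_of_mul_le_mul_left ?_ (pow_pos h 3)
  nlinarith

end Khin

theorem omega_bound (Λ : Finset ℕ) (π w : ℕ → ℝ) (h0 : ∀ r, 0 ≤ π r) (h1 : ∀ r, π r ≤ 1)
    (hw : ∀ r, 0 ≤ w r) :
    ∑ r ∈ Λ, (π r - ∑ r' ∈ Λ.filter (r < ·), π r') * w r ≤ √(∑ r ∈ Λ, π r * w r ^ 2) := by
  have key : ∀ Λ : Finset ℕ, ∑ r ∈ Λ, max 0 (π r - ∑ r' ∈ Λ.filter (r < ·), π r') ≤ 1 ∧
      ∑ r ∈ Λ, max 0 (π r - ∑ r' ∈ Λ.filter (r < ·), π r') ≤ ∑ r ∈ Λ, π r := by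
    intro Λ
    induction Λ using Finset.induction_on_min with
    | empty => simp
    | insert a s ha ih =>
      have has : a ∉ s := fun h => lt_irrefl _ (ha a h)
      have e1 : (insert a s).filter (a < ·) = s := by
        rw [filter_insert, if_neg (lt_irrefl _), filter_true_of_mem ha]
      have e2 : ∀ r ∈ s, max 0 (π r - ∑ r' ∈ (insert a s).filter (r < ·), π r') =
          max 0 (π r - ∑ r' ∈ s.filter (r < ·), π r') := fun r hr => by
        rw [filter_insert, if_neg (ha r hr).not_gt]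
      rw [sum_insert has, sum_insert has, e1, sum_congr rfl e2]
      have := sum_nonneg fun r (_ : r ∈ s) => h0 r
      rcases le_total 0 (π a - ∑ r ∈ s, π r) with h | h
      · rw [max_eq_right h]
        constructor <;> linarith [ih.2, h1 a]
      · rw [max_eq_left h]
        constructor <;> linarith [ih.1, ih.2, h0 a]
  set ω : ℕ → ℝ := fun r => max 0 (π r - ∑ r' ∈ Λ.filter (r < ·), π r') with hω
  have ω0 : ∀ r, 0 ≤ ω r := fun r => le_max_left _ _
  have ω1 : ∀ r, ω r ≤ π r := fun r =>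
    max_le (h0 r) (sub_le_self _ (sum_nonneg fun r _ => h0 r))
  refine (sum_le_sum fun r _ => mul_le_mul_of_nonneg_right (le_max_right 0 _) (hw r)).trans
    (Real.le_sqrt_of_sq_le ?_)
  refine (sum_sq_le_sum_mul_sum_of_sq_le_mul Λ (f := ω) (g := fun r => π r * w r ^ 2)
    (fun r _ => ω0 r) (fun r _ => mul_nonneg (h0 r) (sq_nonneg _)) fun r _ => ?_).trans
    (mul_le_of_le_one_left (sum_nonneg fun r _ => mul_nonneg (h0 r) (sq_nonneg _)) (key Λ).1)
  change (ω r * w r) ^ 2 ≤ _
  have := mul_le_mul_of_nonneg_left (ω1 r) (mul_nonneg (ω0 r) (sq_nonneg (w r)))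
  nlinarith

variable {G : Type*} [Fintype G] [DecidableEq G]

/-- Indicator of typical points. -/
noncomputable def typ (r : ℕ) (i : G → Bool) : ℝ :=
  if |lin (pp r) (fun _ => 1) i| ≤ Fintype.card G * pp r / 2 then 1 else 0

omit [DecidableEq G] in
theorem typ_abs (r : ℕ) (i : G → Bool) : |typ r i| = typ r i ∧ typ r i ≤ 1 := by
  unfold typ
  split_ifs <;> simp

theorem typ_prob {r : ℕ} (h : 8 ≤ Fintype.card G * pp r) : 1 / 2 ≤ Ex (pp r) (typ (G := G) r) := by
  set m := Fintype.card G * pp r with hm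
  have h1 : Ex (pp r) (fun i : G → Bool => 1 - 4 / m ^ 2 * lin (pp r) (fun _ => 1) i ^ 2) ≤
      Ex (pp r) (typ (G := G) r) := by
    refine Ex_mono (pp_pos r).le (pp_le_one r) fun i => ?_
    unfold typ
    split_ifs with hi
    · exact sub_le_self _ (by positivity)
    · rw [sub_nonpos, div_mul_eq_mul_div, one_le_div (by positivity), ← sq_abs (lin _ _ _)]
      rw [← hm, not_le] at hi
      nlinarith
  rw [Ex_sub, Ex_const, Ex_const_mul, Ex_lin_sq] at h1
  refine le_trans ?_ h1
  have h2 : pp r * (1 - pp r) * ∑ _a : G, (1 : ℝ) ^ 2 ≤ m := by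
    simp only [one_pow, sum_const, card_univ, nsmul_eq_mul, mul_one, hm]
    have := mul_nonneg (Nat.cast_nonneg (α := ℝ) (Fintype.card G)) (sq_nonneg (pp r))
    nlinarith
  have h3 := mul_le_mul_of_nonneg_left h2 (by positivity : 0 ≤ 4 / m ^ 2)
  have h4 : 4 / m ^ 2 * m ≤ 1 / 2 := by
    rw [div_mul_eq_mul_div, div_le_iff₀ (by positivity)]
    nlinarith
  linarith

theorem typ_point (Λ : Finset ℕ) (hsp : ∀ r ∈ Λ, ∀ r' ∈ Λ, r < r' → r + 3 ≤ r') (u : Fn G) :
    Fintype.card G * ∑ r ∈ Λ, pp r * √(∑ i, (typ r i * u r i) ^ 2) ≤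
      8 * ∑ a, √(∑ r ∈ Λ, ∑ i, (bv (i a) * typ r i * u r i) ^ 2) := by
  set n : ℝ := (Fintype.card G : ℝ) with hn
  have n0 : 0 ≤ n := Nat.cast_nonneg _
  let m : ℕ → ℝ := fun r => ∑ i, (typ r i * u r i) ^ 2
  let v : ℕ → G → ℝ := fun r a => ∑ i, (bv (i a) * typ r i * u r i) ^ 2
  have m0 : ∀ r, 0 ≤ m r := fun r => sum_nonneg fun _ _ => sq_nonneg _
  have v0 : ∀ r a, 0 ≤ v r a := fun r a => sum_nonneg fun _ _ => sq_nonneg _
  have ev : ∀ r a (i : G → Bool), (bv (i a) * typ r i * u r i) ^ 2 =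
      bv (i a) * (typ r i * u r i) ^ 2 := fun r a i => by cases i a <;> simp
  have vm : ∀ r a, v r a ≤ m r := fun r a => sum_le_sum fun i _ => by
    rw [ev]
    exact mul_le_of_le_one_left (sq_nonneg _) (bv_le_one _)
  have hv : ∀ r, n * pp r / 2 * m r ≤ ∑ a, v r a ∧ ∑ a, v r a ≤ 3 / 2 * n * pp r * m r := by
    intro r
    simp only [v, m, ev, mul_sum]
    rw [sum_comm]
    have : ∀ i : G → Bool, n * pp r / 2 * (typ r i * u r i) ^ 2 ≤
        ∑ a, bv (i a) * (typ r i * u r i) ^ 2 ∧ ∑ a, bv (i a) * (typ r i * u r i) ^ 2 ≤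
        3 / 2 * n * pp r * (typ r i * u r i) ^ 2 := by
      intro i
      rw [← sum_mul]
      by_cases hi : |lin (pp r) (fun _ => 1) i| ≤ Fintype.card G * pp r / 2
      · simp only [lin, one_mul, sum_sub_distrib, sum_const, card_univ, nsmul_eq_mul, ← hn,
          abs_le] at hi
        constructor <;> refine mul_le_mul_of_nonneg_right ?_ (sq_nonneg _) <;>
          linarith [hi.1, hi.2]
      · simp [typ, hi]
    exact ⟨sum_le_sum fun i _ => (this i).1, sum_le_sum fun i _ => (this i).2⟩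
  have h1 : ∀ a, ∑ r ∈ Λ, (v r a / m r - ∑ r' ∈ Λ.filter (r < ·), v r' a / m r') * √(m r) ≤
      √(∑ r ∈ Λ, v r a) := fun a => by
    refine (omega_bound Λ (fun r => v r a / m r) _ (fun r => div_nonneg (v0 r a) (m0 r))
      (fun r => div_le_one_of_le₀ (vm r a) (m0 r)) fun r => Real.sqrt_nonneg _).trans
      (Real.sqrt_le_sqrt (sum_le_sum fun r _ => ?_))
    rw [Real.sq_sqrt (m0 r)]
    rw [div_mul_comm]
    exact mul_le_of_le_one_left (v0 r a) (div_self_le_one _)
  refine le_trans ?_ (mul_le_mul_of_nonneg_left (sum_le_sum fun a _ => h1 a) (by norm_num))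
  rw [sum_comm, mul_sum, mul_sum]
  refine sum_le_sum fun r hr => ?_
  rw [← sum_mul, sum_sub_distrib, sum_comm]
  have h2 : ∑ r' ∈ Λ.filter (r < ·), ∑ a, v r' a / m r' ≤ 3 / 8 * n * pp r := by
    have h3 := sum_pp_le (r + 3) (Λ.filter (r < ·)) fun r' hr' =>
      hsp r hr r' (mem_filter.mp hr').1 (mem_filter.mp hr').2
    have h4 : pp (r + 3) = pp r / 8 := by unfold pp; ring
    refine (sum_le_sum (g := fun r' => 3 / 2 * n * pp r') fun r' _ => ?_).trans ?_
    · rw [← sum_div]
      exact div_le_of_le_mul₀ (m0 r') (by have := pp_pos r'; positivity) (hv r').2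
    · rw [← mul_sum]
      nlinarith
  rcases (m0 r).eq_or_lt with h | h
  · change n * (pp r * √(m r)) ≤ _
    rw [← h]
    simp
  · have h3 : n * pp r / 2 ≤ ∑ a, v r a / m r := by
      rw [← sum_div, le_div_iff₀ h]
      exact (hv r).1
    have := mul_le_mul_of_nonneg_right (sub_le_sub h3 h2) (Real.sqrt_nonneg (m r))
    change n * (pp r * √(m r)) ≤ _
    linarith

/-- Basis vectors. -/
def bas (r : ℕ) (i : G → Bool) : Fn G := Pi.single r (Pi.single i 1)

/-- Signed sums of basis vectors. -/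
noncomputable def sg (Λ : Finset ℕ) (κ : Fn G) (U : Λ × (G → Bool) → Bool) : Fn G :=
  ∑ j : Λ × (G → Bool), (κ j.1 j.2 * (bv (U j) - 1 / 2)) • bas j.1 j.2

theorem abs_sg (Λ : Finset ℕ) (κ : Fn G) (U : Λ × (G → Bool) → Bool) (r : ℕ) (i : G → Bool) :
    |sg Λ κ U r i| = if r ∈ Λ then |κ r i| / 2 else 0 := by
  simp only [sg, Finset.sum_apply, Pi.smul_apply, smul_eq_mul]
  split_ifs with h
  · rw [sum_eq_single (⟨r, h⟩, i)]
    · cases U (⟨r, h⟩, i) <;> simp [bas, abs_mul] <;> norm_num <;> ring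
    · rintro ⟨⟨r', h'⟩, i'⟩ _ hne
      by_cases hr : r = r'
      · subst hr
        have : i ≠ i' := fun h => hne (by rw [h])
        simp [bas, this]
      · simp [bas, hr]
    · simp
  · rw [sum_eq_zero, abs_zero]
    rintro ⟨⟨r', h'⟩, i'⟩ _
    have : r ≠ r' := fun e => h (e ▸ h')
    simp [bas, this]

/-- The indicator of a level. -/
def lev (r : ℕ) : Fn G := fun r' _ => if r' = r then 1 else 0

theorem lev_InD (L r : ℕ) : InD L (lev r : Fn G) := by
  refine ⟨fun r' i => ?_, fun r' i => ?_, fun a => ?_⟩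
  · unfold lev
    split_ifs <;> norm_num
  · unfold lev
    split_ifs <;> norm_num
  · change ∑ r' ∈ Icc 1 L, CE r' a (fun _ => (if r' = r then 1 else 0) ^ 2) ≤ 1
    simp only [CE_const, ite_pow, one_pow, ne_eq, OfNat.ofNat_ne_zero, not_false_eq_true,
      zero_pow, sum_ite_eq']
    split_ifs <;> norm_num

theorem lev_en (L r : ℕ) : en L (lev r : Fn G) ≤ 1 := by
  simp only [en, lev, Ex_const, ite_pow, one_pow, ne_eq, OfNat.ofNat_ne_zero, not_false_eq_true,
    zero_pow, sum_ite_eq']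
  split_ifs <;> norm_num

theorem lev_pair {L r : ℕ} (hr : r ∈ Icc 1 L) (x : Fn G) :
    pair L (lev r) x = 2 ^ r * Ex (pp r) fun i => |x r i| := by
  unfold pair
  rw [sum_eq_single_of_mem r hr] <;> simp +contextual [lev, Ex_const]

theorem no_embed (L : ℕ) (Λ : Finset ℕ) (hΛ : Λ ⊆ Icc 1 L)
    (hsp : ∀ r ∈ Λ, ∀ r' ∈ Λ, r < r' → r + 3 ≤ r') (hn : ∀ r ∈ Λ, 8 ≤ Fintype.card G * pp r)
    (hG : 0 < Fintype.card G) {D : ℝ} (hD : 0 < D) (hDΛ : (Λ.card : ℝ) = D ^ 2)
    (S : Fn G →ₗ[ℝ] ℝ → ℝ) (hint : ∀ x, Integrable (S x) mu) {c C : ℝ} (hc : 0 ≤ c)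
    (hlow : ∀ x g, InD L g → en L g ≤ 1 → c * pair L g x ≤ ∫ t, |S x t| ∂mu)
    (hup : ∀ x, (∀ g, InD L g → pair L g x ≤ D) → ∫ t, |S x t| ∂mu ≤ C * D) :
    c * D ≤ 768 * C := by
  let A : Fn G → ℝ → ℝ := fun κ t => Ex (1 / 2) fun U => |S (sg Λ κ U) t|
  have hAi : ∀ κ, Integrable (A κ) mu := fun κ =>
    integrable_finsetSum _ fun U _ => (hint _).abs.const_mul _
  have hAI : ∀ κ, ∫ t, A κ t ∂mu = Ex (1 / 2) fun U => ∫ t, |S (sg Λ κ U) t| ∂mu := fun κ => by
    simp only [A, Ex]
    rw [integral_finsetSum _ fun U _ => (hint _).abs.const_mul _]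
    simp only [integral_const_mul]
  have hA : ∀ κ t, 2 * A κ t ≤ √(∑ r ∈ Λ, ∑ i, (κ r i * S (bas r i) t) ^ 2) ∧
      √(∑ r ∈ Λ, ∑ i, (κ r i * S (bas r i) t) ^ 2) ≤ 48 * A κ t := by
    intro κ t
    have e : ∀ U, S (sg Λ κ U) t =
        lin (1 / 2) (fun j : Λ × (G → Bool) => κ j.1 j.2 * S (bas j.1 j.2) t) U := by
      intro U
      simp only [sg, map_sum, map_smul, Finset.sum_apply, Pi.smul_apply, smul_eq_mul, lin]
      exact sum_congr rfl fun j _ => by ring
    simp only [A, e]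
    rw [← sum_coe_sort Λ, ← Fintype.sum_prod_type']
    exact ⟨khin_up _, khin_low _⟩
  let κ1 : ℕ → Fn G := fun r r' i => if r' = r then typ r' i else 0
  let κ2 : G → Fn G := fun a r i => bv (i a) * typ r i
  have hpt : ∀ t, Fintype.card G * ∑ r ∈ Λ, pp r * A (κ1 r) t ≤ 192 * ∑ a, A (κ2 a) t := by
    intro t
    have h1 := typ_point Λ hsp fun r i => S (bas r i) t
    have h2 : ∑ r ∈ Λ, pp r * (2 * A (κ1 r) t) ≤
        ∑ r ∈ Λ, pp r * √(∑ i, (typ r i * S (bas r i) t) ^ 2) := sum_le_sum fun r hr => by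
      refine mul_le_mul_of_nonneg_left ((hA _ t).1.trans (le_of_eq ?_)) (pp_pos r).le
      rw [sum_eq_single_of_mem r hr] <;> simp +contextual [κ1]
    have h3 := sum_le_sum fun a (_ : a ∈ univ) => (hA (κ2 a) t).2
    have h4 := mul_le_mul_of_nonneg_left h2 (Nat.cast_nonneg (Fintype.card G))
    simp only [mul_left_comm _ (2 : ℝ), ← mul_sum] at h3 h4
    linarith
  have h1 := integral_mono ((integrable_finsetSum _ fun r _ => (hAi _).const_mul _).const_mul _)
    ((integrable_finsetSum _ fun a _ => hAi _).const_mul _) hpt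
  rw [integral_const_mul, integral_const_mul, integral_finsetSum _ fun r _ => (hAi _).const_mul _,
    integral_finsetSum _ fun a _ => hAi _] at h1
  simp only [integral_const_mul, hAI] at h1
  have h2 : ∀ r ∈ Λ, c / 4 ≤ pp r * Ex (1 / 2) fun U => ∫ t, |S (sg Λ (κ1 r) U) t| ∂mu := by
    intro r hr
    have : ∀ U, c / 4 * 2 ^ r ≤ ∫ t, |S (sg Λ (κ1 r) U) t| ∂mu := by
      intro U
      refine le_trans ?_ (hlow _ _ (lev_InD L r) (lev_en L r))
      rw [lev_pair (hΛ hr)]
      simp only [abs_sg, if_pos hr, κ1, if_true, (typ_abs _ _).1, div_eq_inv_mul, Ex_const_mul]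
      have := mul_le_mul_of_nonneg_left (typ_prob (hn r hr)) (by positivity : 0 ≤ c * 2 ^ r)
      linarith
    have h3 := mul_le_mul_of_nonneg_left
      (Ex_mono (p := 1 / 2) (by norm_num) (by norm_num) this) (pp_pos r).le
    rwa [Ex_const, mul_left_comm, mul_comm (pp r), two_pow_mul_pp, mul_one] at h3
  have h3 : ∀ a, (Ex (1 / 2) fun U => ∫ t, |S (sg Λ (κ2 a) U) t| ∂mu) ≤ C * D := by
    intro a
    refine (Ex_mono (by norm_num) (by norm_num) fun U => hup _ fun g hg => ?_).trans_eq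
      (Ex_const _ _)
    have h4 : ∀ r, 2 ^ r * (Ex (pp r) fun i => g r i * |sg Λ (κ2 a) U r i|) ≤
        (if r ∈ Λ then 1 / (2 * D) else 0) + D / 2 * CE r a fun i => g r i ^ 2 := by
      intro r
      rw [← CE_const r a (if r ∈ Λ then 1 / (2 * D) else 0), ← CE_const_mul, CE, CE, ← mul_add,
        ← Ex_add]
      refine mul_le_mul_of_nonneg_left (Ex_mono (pp_pos r).le (pp_le_one r) fun i => ?_)
        (by positivity)
      rw [abs_sg]
      have g0 := hg.1 r i
      split_ifs
      · simp only [κ2, abs_mul, (typ_abs _ _).1]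
        cases i a
        · simp
        · have h5 : g r i ≤ 1 / (2 * D) + D / 2 * g r i ^ 2 := by
            rw [← sub_nonneg]
            have : 1 / (2 * D) + D / 2 * g r i ^ 2 - g r i = (D * g r i - 1) ^ 2 / (2 * D) := by
              field_simp
              ring
            rw [this]
            positivity
          have := mul_le_mul_of_nonneg_left (typ_abs r i).2 g0
          simp only [bv_true, abs_one, one_mul]
          linarith
      · have := bv_nonneg (i a)
        rw [mul_zero]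
        positivity
    refine (sum_le_sum fun r _ => h4 r).trans ?_
    rw [sum_add_distrib, ← mul_sum, sum_ite_mem, inter_eq_right.mpr hΛ, sum_const, nsmul_eq_mul,
      hDΛ]
    have h5 := mul_le_mul_of_nonneg_left (hg.2.2 a) (by positivity : 0 ≤ D / 2)
    have h6 : D ^ 2 * (1 / (2 * D)) = D / 2 := by field_simp
    rw [h6]
    change D / 2 * ∑ r ∈ Icc 1 L, CE r a (fun i => g r i ^ 2) ≤ _ at h5
    linarith
  have h4 := mul_le_mul_of_nonneg_left (sum_le_sum h2) (Nat.cast_nonneg (Fintype.card G))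
  have h5 := sum_le_sum fun a (_ : a ∈ univ) => h3 a
  rw [sum_const, nsmul_eq_mul] at h4 h5
  rw [hDΛ] at h4
  rw [card_univ] at h5
  have h6 : (0 : ℝ) < Fintype.card G := by exact_mod_cast hG
  refine le_of_mul_le_mul_left ?_ (mul_pos h6 hD)
  nlinarith

end Pool.Agent.Lib.MP_5d7bff_an
end

-- part Pool.Agent.Lib.MP_5d7bff_an.Space
section

/-!
The space, its norm and the embedding.
-/

namespace Pool.Agent.Lib.MP_5d7bff_an

open Finset MeasureTheory Filter Topology

section Pair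

variable {G : Type*} [Fintype G] [DecidableEq G] {L : ℕ} {g : Fn G}

theorem pair_nonneg (hg : InD L g) (x : Fn G) : 0 ≤ pair L g x :=
  sum_nonneg fun r _ => mul_nonneg (by positivity) (Ex_nonneg (pp_pos r).le (pp_le_one r)
    fun i => mul_nonneg (hg.1 r i) (abs_nonneg _))

theorem pair_add_le (hg : InD L g) (x y : Fn G) : pair L g (x + y) ≤ pair L g x + pair L g y := by
  unfold pair
  rw [← sum_add_distrib]
  refine sum_le_sum fun r _ => ?_
  rw [← mul_add, ← Ex_add]
  refine mul_le_mul_of_nonneg_left (Ex_mono (pp_pos r).le (pp_le_one r) fun i => ?_)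
    (by positivity)
  rw [← mul_add]
  exact mul_le_mul_of_nonneg_left (abs_add_le _ _) (hg.1 r i)

theorem pair_smul_right (c : ℝ) (x : Fn G) : pair L g (c • x) = |c| * pair L g x := by
  rw [← pair_smul]
  refine sum_congr rfl fun r _ => congrArg _ (Ex_congr _ fun i => ?_)
  rw [Pi.smul_apply, Pi.smul_apply, smul_eq_mul, abs_mul]
  ring

theorem pair_zero : pair L g 0 = 0 := by simpa using pair_smul_right (L := L) (g := g) 0 0

theorem pair_le_top (hg : InD L g) (x : Fn G) : pair L g x ≤ pair L (fun _ _ => 1) x :=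
  sum_le_sum fun r _ => mul_le_mul_of_nonneg_left (Ex_mono (pp_pos r).le (pp_le_one r)
    fun i => mul_le_mul_of_nonneg_right (hg.2.1 r i) (abs_nonneg _)) (by positivity)

theorem abs_le_pair {r : ℕ} (hr : r ∈ Icc 1 L) (x : Fn G) (i : G → Bool) :
    |x r i| ≤ 2 ^ (L * Fintype.card G) * pair L (lev r) x := by
  rw [lev_pair hr]
  have h1 : cw (pp r) i * |x r i| ≤ Ex (pp r) fun i => |x r i| :=
    single_le_sum (f := fun i => cw (pp r) i * |x r i|) (fun i _ =>
      mul_nonneg (cw_nonneg (pp_pos r).le (pp_le_one r) i) (abs_nonneg _)) (mem_univ i)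
  have h2 : pp (L * Fintype.card G) ≤ cw (pp r) i := by
    have h3 : pp L ≤ pp r := pow_le_pow_of_le_one (by norm_num) (by norm_num) (mem_Icc.mp hr).2
    have h4 := pp_le_half (mem_Icc.mp hr).1
    rw [pp, pow_mul, ← card_univ, ← prod_const]
    refine prod_le_prod (fun _ _ => by positivity) fun a _ => h3.trans ?_
    cases i a
    · rw [bw_false]
      linarith
    · exact le_rfl
  have h3 := (mul_le_mul_of_nonneg_right h2 (abs_nonneg (x r i))).trans h1
  have h4 := mul_le_mul_of_nonneg_left h3 (by positivity : (0 : ℝ) ≤ 2 ^ (L * Fintype.card G))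
  rw [← mul_assoc, two_pow_mul_pp, one_mul] at h4
  refine h4.trans (mul_le_mul_of_nonneg_left (le_mul_of_one_le_left ?_ (one_le_pow₀ one_le_two))
    (by positivity))
  exact Ex_nonneg (pp_pos r).le (pp_le_one r) fun _ => abs_nonneg _

end Pair

/-- Number of levels in block `k`. -/
def LL (k : ℕ) : ℕ := 3 * k ^ 2

/-- Ground set of block `k`. -/
abbrev GG (k : ℕ) : Type := Fin (8 * 2 ^ LL k)

/-- Number of extra scales in block `k`. -/
def RR (k : ℕ) : ℕ := LL k * Fintype.card (GG k)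

/-- The algebraic direct sum of the blocks. -/
abbrev VV : Type := Π₀ k, Fn (GG k)

/-- Admissible families of test functions. -/
def Adm : Type := {a : Finset ℕ × ∀ k, Fn (GG k) //
  (∀ k ∈ a.1, InD (LL k) (a.2 k)) ∧ ∑ k ∈ a.1, en (LL k) (a.2 k) ≤ 1}

instance : Nonempty Adm := ⟨⟨(∅, 0), by simp⟩⟩

/-- Total pairing. -/
noncomputable def PP (a : Adm) (x : VV) : ℝ := ∑ k ∈ a.1.1, pair (LL k) (a.1.2 k) (x k)

theorem exists_supp (x : VV) : ∃ s : Finset ℕ, ∀ k ∉ s, x k = 0 := by
  classical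
  exact ⟨x.support, fun k => DFinsupp.notMem_support_iff.mp⟩

theorem PP_le (a : Adm) (x : VV) {s : Finset ℕ} (hs : ∀ k ∉ s, x k = 0) {B : ℕ → ℝ}
    (h0 : ∀ k, 0 ≤ B k) (h : ∀ k ∈ s, ∀ g, InD (LL k) g → pair (LL k) g (x k) ≤ B k) :
    PP a x ≤ ∑ k ∈ s, B k := by
  rw [PP, ← sum_subset (inter_subset_left (s₂ := s)) fun k hk hk' => by
    rw [hs k fun h => hk' (mem_inter.mpr ⟨hk, h⟩), pair_zero]]
  exact (sum_le_sum fun k hk => h k (mem_inter.mp hk).2 _ (a.2.1 k (mem_inter.mp hk).1)).trans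
    (sum_le_sum_of_subset_of_nonneg inter_subset_right fun k _ _ => h0 k)

theorem PP_bdd (x : VV) : BddAbove (Set.range fun a => PP a x) := by
  obtain ⟨s, hs⟩ := exists_supp x
  exact ⟨_, Set.forall_mem_range.mpr fun a => PP_le a x hs
    (fun k => abs_nonneg (pair (LL k) (fun _ _ => 1) (x k))) fun k _ g hg =>
    (pair_le_top hg _).trans (le_abs_self _)⟩

/-- The norm. -/
noncomputable def NN : Seminorm ℝ VV :=
  Seminorm.ofSMulLE (fun x => ⨆ a, PP a x) (by simp [PP, pair_zero])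
    (fun x y => ciSup_le fun a => le_trans (by
      rw [PP, PP, PP, ← sum_add_distrib]
      exact sum_le_sum fun k hk => pair_add_le (a.2.1 k hk) _ _)
      (add_le_add (le_ciSup (PP_bdd x) a) (le_ciSup (PP_bdd y) a)))
    fun c x => ciSup_le fun a => le_trans (le_of_eq (by
      rw [PP, PP, mul_sum]
      exact sum_congr rfl fun k _ => pair_smul_right _ _))
      (mul_le_mul_of_nonneg_left (le_ciSup (PP_bdd x) a) (norm_nonneg c))

theorem PP_le_NN (a : Adm) (x : VV) : PP a x ≤ NN x := le_ciSup (PP_bdd x) a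

theorem pair_le_NN (x : VV) (k : ℕ) {g : Fn (GG k)} (h1 : InD (LL k) g) (h2 : en (LL k) g ≤ 1) :
    pair (LL k) g (x k) ≤ NN x := by
  simpa [PP] using PP_le_NN ⟨({k}, Pi.single k g), by simpa using ⟨h1, h2⟩⟩ x

theorem psi_le_of_lt (x : VV) (s : Finset ℕ) (h : ∑ k ∈ s, psi (LL k) (RR k) (x k) < 1) :
    ∑ k ∈ s, psi (LL k) (RR k) (x k) ≤ 98 * NN x := by
  have : ∀ k, ∃ g, k ∈ s → InD (LL k) g ∧ en (LL k) g ≤ psi (LL k) (RR k) (x k) ∧
      psi (LL k) (RR k) (x k) ≤ 98 * pair (LL k) g (x k) := fun k => by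
    by_cases hk : k ∈ s
    · obtain ⟨g, hg⟩ := exists_test _ _ (x k) ((single_le_sum
        (f := fun k => psi (LL k) (RR k) (x k)) (fun k _ => psi_nonneg _ _ _) hk).trans_lt h)
      exact ⟨g, fun _ => hg⟩
    · exact ⟨0, fun h => absurd h hk⟩
  choose g hg using this
  have h1 := PP_le_NN ⟨(s, g), fun k hk => (hg k hk).1,
    (sum_le_sum fun k hk => (hg k hk).2.1).trans h.le⟩ x
  refine (sum_le_sum fun k hk => (hg k hk).2.2).trans ?_
  rw [← mul_sum]
  exact mul_le_mul_of_nonneg_left h1 (by norm_num)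

theorem psi_le_NN (x : VV) (s : Finset ℕ) (h : NN x ≤ 1 / 400) :
    ∑ k ∈ s, psi (LL k) (RR k) (x k) ≤ 98 * NN x := by
  let F : ℝ → ℝ := fun c => ∑ k ∈ s, psi (LL k) (RR k) fun r i => c * x k r i
  have h1 : Continuous F := continuous_finsetSum _ fun k _ => continuous_psi _ _ _
  have h2 := (h1.tendsto 0).comp (tendsto_pow_atTop_nhds_zero_of_lt_one (r := 1 / 2)
    (by norm_num) (by norm_num))
  have h3 : F 0 < 1 := by simp [F, psi_zero]
  obtain ⟨n, hn⟩ := (h2.eventually (gt_mem_nhds h3)).exists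
  have h4 : ∀ n : ℕ, F ((1 / 2) ^ n) < 1 → F 1 < 1 := by
    intro n
    induction n with
    | zero => simp
    | succ n ih =>
      refine fun h5 => ih ?_
      have h6 := psi_le_of_lt (((1 / 2 : ℝ) ^ (n + 1)) • x) s h5
      change F _ ≤ _ at h6
      have h7 : F ((1 / 2) ^ n) ≤ 4 * F ((1 / 2) ^ (n + 1)) := by
        rw [mul_sum]
        refine sum_le_sum fun k _ => le_trans (le_of_eq ?_) (psi_two_mul _ _ _)
        congr 1
        ext r i
        ring
      have h8 : NN (((1 / 2 : ℝ) ^ (n + 1)) • x) ≤ NN x := by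
        rw [map_smul_eq_mul, Real.norm_of_nonneg (by positivity)]
        exact mul_le_of_le_one_left (apply_nonneg _ _) (pp_le_one _)
      linarith
  exact psi_le_of_lt x s (by simpa [F] using h4 n hn)

theorem chiB_prod_le (x : VV) (h : NN x = 1) :
    ∃ s : Finset ℕ, (∀ k ∉ s, x k = 0) ∧
      ∏ k ∈ s, chiB (LL k) (RR k) (x k) ≤ Real.exp (-(1 / 10 ^ 7)) := by
  obtain ⟨s, hs⟩ := exists_supp x
  obtain ⟨a, ha⟩ := exists_lt_of_lt_ciSup (show 1 / 2 < NN x by linarith)
  refine ⟨a.1.1 ∪ s, fun k hk => hs k fun h => hk (mem_union_right _ h), ?_⟩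
  refine (prod_le_prod_of_subset_of_le_one subset_union_left (fun k _ => chiB_nonneg _ _ _)
    fun k _ _ => chiB_le_one _ _ _).trans ?_
  have h1 : ∀ k ∈ a.1.1, chiB (LL k) (RR k) (x k) ≤ Real.exp (-((1 / 600 *
      pair (LL k) (a.1.2 k) (x k) - (1 / 600) ^ 2 * en (LL k) (a.1.2 k)) / 4800)) := by
    intro k hk
    have hg := a.2.1 k hk
    rw [← pair_smul, ← en_smul]
    refine chiB_le_exp _ _ _ _ (InD_smul (B := 1) hg.1 hg.2.1 hg.2.2 (by norm_num) (by norm_num)
      (by norm_num)) ?_ fun r hr i => ?_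
    · have := pair_le_NN x k hg ((single_le_sum (f := fun k => en (LL k) (a.1.2 k))
        (fun k _ => en_nonneg _ _) hk).trans a.2.2)
      rw [pair_smul]
      linarith
    · refine (abs_le_pair hr _ i).trans (mul_le_of_le_one_right (by positivity) ?_)
      exact h ▸ pair_le_NN x k (lev_InD _ r) (lev_en _ r)
  refine (prod_le_prod (fun k _ => chiB_nonneg _ _ _) h1).trans ?_
  rw [← Real.exp_sum, Real.exp_le_exp, sum_neg_distrib, neg_le_neg_iff, ← sum_div,
    sum_sub_distrib, ← mul_sum, ← mul_sum]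
  have := a.2.2
  unfold PP at ha
  linarith

theorem exists_T : ∃ T : VV →ₗ[ℝ] ℝ → ℝ, (∀ x, Measurable (T x)) ∧ (∀ x, ∃ B, ∀ t, |T x t| ≤ B) ∧
    ∀ (x : VV) (s : Finset ℕ), (∀ k ∉ s, x k = 0) →
      ∫ t, Real.cos (T x t) ∂mu = ∏ k ∈ s, chiB (LL k) (RR k) (x k) := by
  classical
  choose Ω hΩ W f h0 h1 using fun k => rep_chiB (G := GG k) (LL k) (RR k)
  obtain ⟨Z, hZ, hI⟩ := exists_indep Ω W h0 fun k => by
    have := h1 k 0
    simp only [chiB_zero, map_zero, Complex.ofReal_zero, zero_mul, Complex.exp_zero, mul_one] at this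
    exact_mod_cast this.symm
  let T : VV →ₗ[ℝ] ℝ → ℝ := DFinsupp.lsum ℝ fun k => LinearMap.pi fun t => f k (Z k t)
  have hT : ∀ (x : VV) (s : Finset ℕ), (∀ k ∉ s, x k = 0) →
      T x = fun t => ∑ k ∈ s, f k (Z k t) (x k) := by
    intro x s hs
    ext t
    simp only [T, DFinsupp.lsum_apply_apply, DFinsupp.sumAddHom_apply, DFinsupp.sum,
      Finset.sum_apply]
    refine sum_subset (fun k hk => ?_) fun k _ hk => ?_
    · by_contra h
      exact DFinsupp.mem_support_iff.mp hk (hs k h)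
    · simp [DFinsupp.notMem_support_iff.mp hk]
  have hm : ∀ x, Measurable (T x) := fun x => by
    obtain ⟨s, hs⟩ := exists_supp x
    rw [hT x s hs]
    exact s.measurable_fun_sum fun k _ => hZ k fun ω => f k ω (x k)
  refine ⟨T, hm, fun x => ?_, fun x s hs => ?_⟩
  · obtain ⟨s, hs⟩ := exists_supp x
    refine ⟨∑ k ∈ s, ∑ ω, |f k ω (x k)|, fun t => ?_⟩
    rw [hT x s hs]
    exact (abs_sum_le_sum_abs _ _).trans (sum_le_sum fun k _ =>
      single_le_sum (f := fun ω => |f k ω (x k)|) (fun _ _ => abs_nonneg _) (mem_univ _))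
  · have h2 := hI s fun k ω => Complex.exp (f k ω (x k) * Complex.I)
    simp only [← h1, ← Complex.exp_sum, ← sum_mul, ← Complex.ofReal_sum,
      ← Complex.ofReal_prod] at h2
    have h3 : Integrable (fun t => Complex.exp (T x t * Complex.I)) mu :=
      Integrable.of_bound (by have := hm x; fun_prop) 1
        (ae_of_all _ fun t => (Complex.norm_exp_ofReal_mul_I _).le)
    have h4 := integral_re h3
    rw [hT x s hs] at h4 ⊢
    rw [h2] at h4
    simpa only [RCLike.re_to_complex, Complex.exp_ofReal_mul_I_re, Complex.ofReal_re] using h4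

end Pool.Agent.Lib.MP_5d7bff_an
end
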